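import Pool.Agent.H636.HD.Stm

set_option autoImplicit false
set_option linter.unusedSectionVars false

/-!
HD-E: complete blocks with more than `ω` vertices have class `0`, and squares.
-/

namespace Pool.Agent.H636.HD.Kz

open Finset Pool.Agent.H98R2.Ev Pool.Agent.TH410.KV Pool.Agent.Y577.EV Pool.Agent.H636.HC

variable {𝓕 : Fam}

/-- two types with the same members -/
theorem ty_ext {s t : TY 𝓕} (h : ∀ (F : 𝓕) (U : Finset (Fin F.1.1)), U ∈ s.1 F ↔ U ∈ t.1 F) :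
    s = t := by
  apply Subtype.ext
  funext F
  ext U
  exact h F U

/-- the join of two complete blocks -/
theorem mem_J2 {q : ℕ} (hq : 1 ≤ q) (F : 𝓕) (U : Finset (Fin F.1.1)) :
    U ∈ (J 2 (J q (xi : TY 𝓕))).1 F ↔ Cb (ZMod 2 × Fin q) F U := by
  classical
  constructor
  · rintro ⟨ρ, hρ⟩
    have h1 : ∀ i, ∃ col : Fin F.1.1 → Fin q, ∀ x ∈ U.filter (fun x => ρ x = i),
        ∀ y ∈ U.filter (fun x => ρ x = i), F.1.2.Adj x y → col x ≠ col y :=
      fun i => (mem_J' hq F _).1 (hρ i)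
    choose col hcol using h1
    refine ⟨fun x => (ρ x, col (ρ x) x), fun x hx y hy hxy heq => ?_⟩
    have e1 : ρ x = ρ y := congrArg Prod.fst heq
    have e2 : col (ρ x) x = col (ρ y) y := congrArg Prod.snd heq
    rw [← e1] at e2
    exact hcol (ρ x) x (mem_filter.2 ⟨hx, rfl⟩) y (mem_filter.2 ⟨hy, e1.symm⟩) hxy e2
  · rintro ⟨col, h⟩
    refine ⟨fun x => (col x).1, fun i => ?_⟩
    rw [mem_J' hq]
    refine ⟨fun x => (col x).2, fun x hx y hy hxy heq => ?_⟩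
    rw [mem_filter] at hx hy
    exact h x hx.1 y hy.1 hxy (Prod.ext (hx.2.trans hy.2.symm) heq)

theorem J2_eq {q : ℕ} (hq : 1 ≤ q) : J 2 (J q (xi : TY 𝓕)) = J (2 * q) xi := by
  refine ty_ext fun F U => ?_
  rw [mem_J2 hq, mem_J' (by omega)]
  refine Cb_of_equiv (Fintype.equivFinOfCardEq ?_) F U
  rw [Fintype.card_prod, ZMod.card, Fintype.card_fin]

theorem iter_eq (j : ℕ) : (J 2)^[j] (xi : TY 𝓕) = J (2 ^ j) xi := by
  refine ty_ext fun F U => ?_
  rw [mem_iter', mem_J' Nat.one_le_two_pow]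
  refine Cb_of_equiv (Fintype.equivFinOfCardEq ?_) F U
  rw [Fintype.card_fun, ZMod.card, Fintype.card_fin]

theorem t : S_kz := by
  intro 𝓕 h1
  refine ⟨?_, ?_, ?_⟩
  · rintro q hq ⟨F, hF, ⟨C⟩⟩
    unfold Kc
    refine cl_zero 2 _ ⟨F, hF⟩ ?_
    rw [mem_J' hq]
    exact ⟨fun x => C x, fun x _ y _ hxy => C.valid hxy⟩
  · intro q hq
    have hch : CharP (AA 𝓕 2) 2 := charP_of (h := h1)
    unfold Kc
    rw [cl_pow 2 (Or.inl rfl), J2_eq hq, CharTwo.sub_eq_add]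
  · intro j
    unfold Xc Kc
    rw [iter_eq]

end Pool.Agent.H636.HD.Kz
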