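import Pool.Agent.H636.HD.Stm

set_option autoImplicit false
set_option linter.unusedSectionVars false

/-!
HD-D: the values of the functional at `x ^ a` times a product of complete blocks (`S_mono`).
Generalises the last section of `HC/Va.lean` from one block to a list of blocks.
(helper806 for helper636)
-/

namespace Pool.Agent.H636.HD.Mono

open Finset Pool.Agent.H98R2.Ev Pool.Agent.TH410.KV Pool.Agent.Y577.EV Pool.Agent.H636.HC

variable {𝓕 : Fam}

/-- the weights of `a` single vertices and blocks whose sizes are the entries of `T` -/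
def wl (a : ℕ) (T : List ℕ) : Fin a ⊕ Fin T.length → ℕ :=
  Sum.elim (fun _ => 1) (fun i => T.get i)

theorem sum_wl (a : ℕ) (T : List ℕ) : ∑ v, wl a T v = a + T.sum := by
  rw [Fintype.sum_sum_type]
  simp only [wl, Sum.elim_inl, Sum.elim_inr, sum_const, card_univ, Fintype.card_fin, smul_eq_mul,
    mul_one]
  congr 1
  rw [← List.sum_ofFn, List.ofFn_get]

theorem card_wl (a : ℕ) (T : List ℕ) :
    Fintype.card (Fin a ⊕ Fin T.length) = a + T.length := by
  rw [Fintype.card_sum, Fintype.card_fin, Fintype.card_fin]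

theorem prod_get (T : List ℕ) : (T.map (Kc 𝓕)).prod = ∏ i : Fin T.length, Kc 𝓕 (T.get i) := by
  rw [← List.prod_ofFn]
  congr 1
  conv_lhs => rw [← List.ofFn_get T, List.map_ofFn]
  rfl

theorem fL_wl (a : ℕ) (T : List ℕ) :
    fL 𝓕 (Xc 𝓕 0 ^ a * (T.map (Kc 𝓕)).prod) = NN 2 (Kt 𝓕 (wl a T)) := by
  rw [← Lb_prod, fL_apply, prod_get]
  congr 1
  rw [Fintype.prod_sum_type]
  simp only [Kt, wl, Sum.elim_inl, Sum.elim_inr, prod_const, card_univ, Fintype.card_fin, J_one]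
  rfl

theorem wl_pos {a : ℕ} {T : List ℕ} (hT : ∀ q ∈ T, 2 ≤ q) : ∀ v, 1 ≤ wl a T v := by
  rintro (_ | i)
  · exact le_rfl
  · exact le_trans (by norm_num) (hT _ (T.get_mem i))

theorem choose_step (a : ℕ) :
    (1 : ZMod 2) + (1 + (((a + 1).choose 2 : ℕ) : ZMod 2)) =
      1 + (((a + 2 + 1).choose 2 : ℕ) : ZMod 2) := by
  have h2 : (2 : ZMod 2) = 0 := by decide
  have e : (a + 2 + 1).choose 2 = (a + 1).choose 2 + (2 * a + 3) := by
    rw [Nat.choose_succ_succ' (a + 2) 1, Nat.choose_succ_succ' (a + 1) 1, Nat.choose_one_right,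
      Nat.choose_one_right]
    ring
  rw [e]
  push_cast
  have h4 : (3 : ZMod 2) = 1 := by decide
  rw [h2, h4]
  ring

variable {ω : ℕ} (h0 : ∀ F ∈ 𝓕, ¬ F.2.Colorable ω)
  (h1 : ∃ F ∈ 𝓕, F.2.Colorable (ω + 1))

include h0

theorem v_le {a : ℕ} {T : List ℕ} (hT : ∀ q ∈ T, 2 ≤ q) (hc : 2 ≤ a + T.length)
    (h : a + T.sum ≤ ω) : fL 𝓕 (Xc 𝓕 0 ^ a * (T.map (Kc 𝓕)).prod) = 0 := by
  rw [fL_wl]
  exact NN_le (ω := ω) (wl_pos hT) (by rw [card_wl]; exact hc) h0 (by rw [sum_wl]; exact h)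

include h1

theorem v_eq {a : ℕ} {T : List ℕ} (hT : ∀ q ∈ T, 2 ≤ q) (hc : 2 ≤ a + T.length)
    (h : a + T.sum = ω + 1) : fL 𝓕 (Xc 𝓕 0 ^ a * (T.map (Kc 𝓕)).prod) = 1 := by
  rw [fL_wl]
  exact NN_eq_one (ω := ω) (m := 1) le_rfl (wl_pos hT) (by rw [card_wl]; exact hc) h0 h1
    (by rw [sum_wl]; exact h)

theorem v_zero {T : List ℕ} (hT : ∀ q ∈ T, 2 ≤ q) (hc : 2 ≤ T.length)
    (h : T.sum = ω + 2) : fL 𝓕 (Xc 𝓕 0 ^ 0 * (T.map (Kc 𝓕)).prod) = 1 := by
  rw [fL_wl]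
  refine NN_eq_one (ω := ω) (m := 2) (by norm_num) ?_ (by rw [card_wl]; omega) h0 h1
    (by rw [sum_wl]; omega)
  rintro (i | i)
  · exact i.elim0
  · exact hT _ (T.get_mem i)

theorem v_one {T : List ℕ} (hT : ∀ q ∈ T, 2 ≤ q) (hc : 1 ≤ T.length)
    (h : 1 + T.sum = ω + 2) : fL 𝓕 (Xc 𝓕 0 ^ 1 * (T.map (Kc 𝓕)).prod) = 0 := by
  rw [fL_wl]
  refine NN_toggle (ω := ω) (Sum.inl 0) rfl ?_ (by rw [card_wl]; omega) h0 h1
    (by rw [sum_wl]; exact h)
  rintro (i | i) hi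
  · exact absurd (by rw [Subsingleton.elim i 0]) hi
  · exact hT _ (T.get_mem i)

theorem v_main [CharP (AA 𝓕 2) 2] (hω : 1 ≤ ω) : ∀ (n a : ℕ), a ≤ n → ∀ (T : List ℕ),
    (∀ q ∈ T, 2 ≤ q) → 2 ≤ a + T.length → a + T.sum = ω + 2 →
    fL 𝓕 (Xc 𝓕 0 ^ a * (T.map (Kc 𝓕)).prod) = 1 + (((a + 1).choose 2 : ℕ) : ZMod 2) := by
  intro n
  induction n with
  | zero =>
    intro a ha T hT hc h
    obtain rfl : a = 0 := by omega
    rw [v_zero h0 h1 hT (by omega) (by omega)]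
    simp
  | succ n ih =>
    intro a ha T hT hc h
    rcases Nat.lt_or_ge a 2 with h2 | h2
    · rcases Nat.lt_or_ge a 1 with h3 | h3
      · obtain rfl : a = 0 := by omega
        rw [v_zero h0 h1 hT (by omega) (by omega)]
        simp
      · obtain rfl : a = 1 := by omega
        rw [v_one h0 h1 hT (by omega) (by omega)]
        decide
    · obtain ⟨b, rfl⟩ : ∃ b, a = b + 2 := ⟨a - 2, by omega⟩
      have hc' : 2 ≤ b + 1 + T.length := by
        rcases T with _ | ⟨q, T⟩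
        · simp only [List.sum_nil, List.length_nil] at h ⊢
          omega
        · simp only [List.length_cons]
          omega
      have e : Xc 𝓕 0 ^ (b + 2) * (T.map (Kc 𝓕)).prod =
          Xc 𝓕 0 ^ (b + 1) * (T.map (Kc 𝓕)).prod +
          Xc 𝓕 0 ^ b * ((2 :: T).map (Kc 𝓕)).prod := by
        have h5 := Xc_sq (𝓕 := 𝓕) 0
        rw [zero_add] at h5
        have h6 : Kc 𝓕 2 = Xc 𝓕 1 := rfl
        rw [List.map_cons, List.prod_cons, h6, pow_add, h5]
        ring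
      rw [e, map_add, v_eq h0 h1 hT hc' (by omega),
        ih b (by omega) (2 :: T) (fun q hq => by
          rcases List.mem_cons.1 hq with rfl | hq
          · exact le_rfl
          · exact hT q hq) (by simp only [List.length_cons]; omega)
          (by simp only [List.sum_cons]; omega)]
      exact choose_step b

omit h0 h1 in
theorem t : S_mono := by
  intro 𝓕 ω hω h0 h1 a T hT hc
  have hcol1 : ∀ F ∈ 𝓕, ¬ F.2.Colorable 1 := fun F hF hc => h0 F hF (hc.mono (by omega))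
  have hch : CharP (AA 𝓕 2) 2 := charP_of (h := hcol1)
  exact ⟨v_le h0 hT hc, v_eq h0 h1 hT hc, fun h => v_main h0 h1 hω a a le_rfl T hT hc h⟩

end Pool.Agent.H636.HD.Mono
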