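import Pool.Agent.H636.HD.Stm2

set_option autoImplicit false
set_option linter.unusedSectionVars false

/-!
MP_257582_lc, HD-F: homomorphism-closed properties on `p ^ k` vertices are evasive (proof by
helper297 for helper636).
-/

namespace Pool.Agent.H636.HD.Pp

open Finset Pool.Agent.H98R2.Ev Pool.Agent.TH410.KV Pool.Agent.Y577.EV Pool.Agent.H636.HC
open Pool.Agent.H98R2.Nb (Inv)
open Pool.Agent.Y407.EV (not_HH_bot HH_hom)

section

variable {K : Type} [Field K]

/-- multiplication by a unit -/
def mu (g : Kˣ) : Equiv.Perm K := Units.mulLeft g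

/-- translation -/
def tr (t : K) : Equiv.Perm K := Equiv.addRight t

theorem mu_apply (g : Kˣ) (x : K) : mu g x = g * x := rfl

theorem tr_apply (t x : K) : tr t x = x + t := rfl

theorem mu_pow (g : Kˣ) (m : ℕ) (x : K) : (mu g ^ m) x = ((g ^ m : Kˣ) : K) * x := by
  induction m generalizing x with
  | zero => simp
  | succ m ih =>
    rw [pow_succ, Equiv.Perm.mul_apply, ih, mu_apply, pow_succ, Units.val_mul, mul_assoc]

theorem tr_comm (s t : K) : tr s * tr t = tr t * tr s := by
  apply Equiv.ext
  intro x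
  rw [Equiv.Perm.mul_apply, Equiv.Perm.mul_apply, tr_apply, tr_apply, tr_apply, tr_apply,
    add_right_comm]

theorem tr_pow (t : K) (m : ℕ) (x : K) : (tr t ^ m) x = x + m * t := by
  induction m generalizing x with
  | zero => simp
  | succ m ih =>
    rw [pow_succ, Equiv.Perm.mul_apply, ih, tr_apply]
    push_cast
    ring

theorem tr_mu (g : Kˣ) (t : K) : (mu g)⁻¹ * tr t * mu g = tr ((g⁻¹ : Kˣ) * t) := by
  rw [mul_assoc, inv_mul_eq_iff_eq_mul]
  apply Equiv.ext
  intro x
  rw [Equiv.Perm.mul_apply, Equiv.Perm.mul_apply, mu_apply, tr_apply, tr_apply, mu_apply, mul_add,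
    Units.mul_inv_cancel_left]

theorem classify {G : SimpleGraph K} (hG : ∀ t, Inv (tr t) G) {g : Kˣ} (hc : Inv (mu g) G)
    (hg : ∀ u : Kˣ, ∃ m : ℕ, g ^ m = u) {x y x' y' : K} (hxy : x ≠ y) (h : G.Adj x' y') :
    G.Adj x y := by
  have h1 : y - x ≠ 0 := sub_ne_zero.2 hxy.symm
  have h2 : y' - x' ≠ 0 := sub_ne_zero.2 h.ne.symm
  obtain ⟨m, hm⟩ := hg (Units.mk0 (y - x) h1 * (Units.mk0 (y' - x') h2)⁻¹)
  have h3 := inv_pow hc m _ _ h
  rw [mu_pow, mu_pow, hm, Units.val_mul, Units.val_inv_eq_inv_val, Units.val_mk0, Units.val_mk0]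
    at h3
  have h4 := hG (x - (y - x) * (y' - x')⁻¹ * x') _ _ h3
  rw [tr_apply, tr_apply] at h4
  have e1 : (y - x) * (y' - x')⁻¹ * x' + (x - (y - x) * (y' - x')⁻¹ * x') = x := by ring
  have e2 : (y - x) * (y' - x')⁻¹ * y' + (x - (y - x) * (y' - x')⁻¹ * x') = y := by
    field_simp
    ring
  rwa [e1, e2] at h4

end

theorem t : S_pp := by
  intro p k 𝓕 hp hk h0 htop hne
  classical
  have hpf : Fact p.Prime := ⟨hp⟩
  have h2f : Fact (Nat.Prime 2) := ⟨Nat.prime_two⟩
  have hcard : Nat.card (GaloisField p k) = p ^ k := GaloisField.card p k (by omega)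
  have : Fintype (GaloisField p k) := Fintype.ofFinite _
  obtain ⟨E⟩ : Nonempty (Fin (p ^ k) ≃ GaloisField p k) :=
    ⟨(Finite.equivFinOfCardEq hcard).symm⟩
  have hne' := ne_transport E hne
  have htop' : HH 𝓕 (⊤ : SimpleGraph (GaloisField p k)) :=
    HH_hom htop ⟨E, fun {a b} hab => fun h => hab (E.injective h)⟩
  obtain ⟨g, hg⟩ := IsCyclic.exists_generator (α := (GaloisField p k)ˣ)
  have hg' : ∀ u : (GaloisField p k)ˣ, ∃ m : ℕ, g ^ m = u := by
    intro u
    exact (Submonoid.mem_powers_iff _ _).1 ((mem_powers_iff_mem_zpowers).2 (hg u))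
  have hcrit := Pool.Agent.H98R2.Nb.GC.graph_criterion (V := GaloisField p k)
    (fun G => ¬ HH 𝓕 G)
    (fun G G' hGG' hP h => hP (HH_hom h (SimpleGraph.Hom.ofLE hGG')))
    (fun s G hP h => hP (HH_hom h (SimpleGraph.Iso.map s G).symm.toHom))
    (not_HH_bot h0) hne' p 2 0 (fun t : GaloisField p k => tr t) (mu g) 1
    (fun s t => tr_comm s t)
    (fun t => by
      apply Equiv.ext
      intro x
      rw [tr_pow, CharP.cast_eq_zero, zero_mul, add_zero, Equiv.Perm.one_apply])
    (one_pow _)
    (fun t => by rw [mul_one, one_mul])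
    (fun G hG t => by rw [tr_mu]; exact hG _)
    (fun G hG hG2 => by rw [inv_one, one_mul, mul_one]; exact hG2)
    (fun A : Finset Unit => if A = ∅ then ⊥ else ⊤)
    (fun A B => by
      by_cases hA : A = ∅
      · rw [if_pos hA, hA]
        simp
      · rw [if_neg hA]
        have hA' : A = {()} := by
          rcases Finset.nonempty_iff_ne_empty.2 hA with ⟨⟨⟩, h⟩
          ext ⟨⟩
          simp [h]
        by_cases hB : B = ∅
        · rw [if_pos hB, hB, hA']
          constructor
          · intro h
            exfalso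
            have h1 : (⊤ : SimpleGraph (GaloisField p k)).Adj 0 1 := by
              rw [SimpleGraph.top_adj]
              exact zero_ne_one
            exact h h1
          · intro h
            exact absurd (Finset.subset_empty.1 h) (Finset.singleton_ne_empty _)
        · rw [if_neg hB]
          have hB' : B = {()} := by
            rcases Finset.nonempty_iff_ne_empty.2 hB with ⟨⟨⟩, h⟩
            ext ⟨⟩
            simp [h]
          rw [hA', hB']
          simp)
    (fun A t => by
      split_ifs
      · exact fun x y h => h.elim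
      · exact fun x y h => (SimpleGraph.top_adj _ _).2 fun e => h ((tr t).injective e))
    (fun A => by
      split_ifs
      · exact fun x y h => h.elim
      · exact fun x y h => (SimpleGraph.top_adj _ _).2 fun e => h ((mu g).injective e))
    (fun A => by
      split_ifs
      · exact fun x y h => h.elim
      · exact fun x y h => h)
    (fun G _ hG1 hG2 _ => by
      by_cases hb : ∃ x y, G.Adj x y
      · obtain ⟨x', y', h⟩ := hb
        refine ⟨{()}, ?_⟩
        rw [if_neg (Finset.singleton_ne_empty _)]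
        ext x y
        rw [SimpleGraph.top_adj]
        exact ⟨fun hxy => classify hG1 hG2 hg' hxy h, fun hxy => hxy.ne⟩
      · refine ⟨∅, ?_⟩
        rw [if_pos rfl]
        ext x y
        exact ⟨fun h => h.elim, fun h => (hb ⟨x, y, h⟩).elim⟩)
  have e : (Finset.univ : Finset (Finset Unit)) = {∅, {()}} := by decide
  rw [e, Finset.sum_pair (Finset.singleton_ne_empty _).symm, if_pos rfl,
    if_neg (Finset.singleton_ne_empty _), if_pos (not_HH_bot h0), if_neg (not_not.2 htop')] at hcrit
  norm_num at hcrit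

end Pool.Agent.H636.HD.Pp
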