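import Pool.Agent.H636.HD.Stm

set_option autoImplicit false
set_option linter.unusedSectionVars false

/-!
HD-A: blocks with `2 ^ (c i)` vertices and several extra blocks with `q e` vertices.
-/

namespace Pool.Agent.H636.HD.RelE

open Finset Pool.Agent.H98R2.Ev Pool.Agent.TH410.KV Pool.Agent.Y577.EV Pool.Agent.H636.HC
open Pool.Agent.H98R2.Nb (Inv)
open Pool.Agent.Y407.EV (VX tra tra_apply cyv cyv_apply tra_comm tra_sq cyv_tra adj_ne adj_eq
  not_HH_bot HH_hom exists_ne_zero)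

section

variable {B ι : Type} (c : B → ℕ) (q : ι → ℕ)

/-- the vertices of the extra blocks -/
abbrev EX : Type := Σ e : ι, ZMod (q e)

/-- the vertices: blocks with `2 ^ (c i)` vertices and blocks with `q e` vertices -/
abbrev WE : Type := VX c ⊕ EX q

/-- the projection to the blocks -/
def pe : WE c q → B ⊕ ι := Sum.elim (fun x => Sum.inl x.1) (fun x => Sum.inr x.1)

variable {c q}

/-- translations of the blocks -/
def ta (t : ∀ i : B, Fin (c i) → ZMod 2) : Equiv.Perm (WE c q) := Equiv.sumCongr (tra t) 1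

/-- the automorphisms of the blocks and the rotations of the extra blocks -/
def ca (g : ∀ i : B, (Fin (c i) → ZMod 2) ≃+ (Fin (c i) → ZMod 2)) (w : ∀ e : ι, ZMod (q e)) :
    Equiv.Perm (WE c q) :=
  Equiv.sumCongr (cyv g) (Equiv.sigmaCongrRight fun e => Equiv.addRight (w e))

/-- the multiplication in an extra block -/
def mulp {m : ℕ} (μ : ZMod m) (h16 : μ ^ 16 = 1) : Equiv.Perm (ZMod m) where
  toFun x := μ * x
  invFun x := μ ^ 15 * x
  left_inv x := by
    change μ ^ 15 * (μ * x) = x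
    have : μ ^ 15 * (μ * x) = μ ^ 16 * x := by ring
    rw [this, h16, one_mul]
  right_inv x := by
    change μ * (μ ^ 15 * x) = x
    have : μ * (μ ^ 15 * x) = μ ^ 16 * x := by ring
    rw [this, h16, one_mul]

/-- the multiplications -/
def ha (μ : ∀ e : ι, ZMod (q e)) (h16 : ∀ e, μ e ^ 16 = 1) : Equiv.Perm (WE c q) :=
  Equiv.sumCongr 1 (Equiv.sigmaCongrRight fun e => mulp (μ e) (h16 e))

theorem ta_inl (t : ∀ i : B, Fin (c i) → ZMod 2) (i : B) (v : Fin (c i) → ZMod 2) :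
    (ta t : Equiv.Perm (WE c q)) (Sum.inl ⟨i, v⟩) = Sum.inl ⟨i, v + t i⟩ := rfl

theorem ta_inr (t : ∀ i : B, Fin (c i) → ZMod 2) (z : EX q) :
    (ta t : Equiv.Perm (WE c q)) (Sum.inr z) = Sum.inr z := rfl

theorem ca_inl (g : ∀ i : B, (Fin (c i) → ZMod 2) ≃+ (Fin (c i) → ZMod 2))
    (w : ∀ e : ι, ZMod (q e)) (i : B) (v : Fin (c i) → ZMod 2) :
    (ca g w : Equiv.Perm (WE c q)) (Sum.inl ⟨i, v⟩) = Sum.inl ⟨i, g i v⟩ := rfl

theorem ca_inr (g : ∀ i : B, (Fin (c i) → ZMod 2) ≃+ (Fin (c i) → ZMod 2))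
    (w : ∀ e : ι, ZMod (q e)) (e : ι) (z : ZMod (q e)) :
    (ca g w : Equiv.Perm (WE c q)) (Sum.inr ⟨e, z⟩) = Sum.inr ⟨e, z + w e⟩ := rfl

theorem ha_inl (μ : ∀ e : ι, ZMod (q e)) (h16 : ∀ e, μ e ^ 16 = 1) (x : VX c) :
    (ha μ h16 : Equiv.Perm (WE c q)) (Sum.inl x) = Sum.inl x := rfl

theorem ha_inr (μ : ∀ e : ι, ZMod (q e)) (h16 : ∀ e, μ e ^ 16 = 1) (e : ι) (z : ZMod (q e)) :
    (ha μ h16 : Equiv.Perm (WE c q)) (Sum.inr ⟨e, z⟩) = Sum.inr ⟨e, μ e * z⟩ := rfl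

theorem ta_comm (s t : ∀ i : B, Fin (c i) → ZMod 2) :
    (ta s : Equiv.Perm (WE c q)) * ta t = ta t * ta s := by
  apply Equiv.ext
  rintro (⟨i, v⟩ | z)
  · rw [Equiv.Perm.mul_apply, Equiv.Perm.mul_apply, ta_inl, ta_inl, ta_inl, ta_inl,
      add_right_comm]
  · rfl

theorem ta_sq (t : ∀ i : B, Fin (c i) → ZMod 2) : (ta t : Equiv.Perm (WE c q)) ^ 2 = 1 := by
  apply Equiv.ext
  rintro (⟨i, v⟩ | z)
  · rw [pow_two, Equiv.Perm.mul_apply, ta_inl, ta_inl, Equiv.Perm.one_apply, add_assoc]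
    have h : t i + t i = 0 := by
      funext k
      exact CharTwo.add_self_eq_zero _
    rw [h, add_zero]
  · rfl

theorem ca_ta (g : ∀ i : B, (Fin (c i) → ZMod 2) ≃+ (Fin (c i) → ZMod 2))
    (w : ∀ e : ι, ZMod (q e)) (t : ∀ i : B, Fin (c i) → ZMod 2) :
    (ca g w : Equiv.Perm (WE c q))⁻¹ * ta t * ca g w = ta fun i => (g i).symm (t i) := by
  rw [mul_assoc, inv_mul_eq_iff_eq_mul]
  apply Equiv.ext
  rintro (⟨i, v⟩ | ⟨e, z⟩)
  · rw [Equiv.Perm.mul_apply, Equiv.Perm.mul_apply, ta_inl, ca_inl, ca_inl, ta_inl,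
      map_add, AddEquiv.apply_symm_apply]
  · rfl

theorem ha_pow_inl (μ : ∀ e : ι, ZMod (q e)) (h16 : ∀ e, μ e ^ 16 = 1) (x : VX c) (m : ℕ) :
    ((ha μ h16 : Equiv.Perm (WE c q)) ^ m) (Sum.inl x) = Sum.inl x := by
  induction m with
  | zero => rfl
  | succ m ih => rw [pow_succ', Equiv.Perm.mul_apply, ih, ha_inl]

theorem ha_pow_inr (μ : ∀ e : ι, ZMod (q e)) (h16 : ∀ e, μ e ^ 16 = 1) (e : ι) (z : ZMod (q e))
    (m : ℕ) :
    ((ha μ h16 : Equiv.Perm (WE c q)) ^ m) (Sum.inr ⟨e, z⟩) = Sum.inr ⟨e, μ e ^ m * z⟩ := by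
  induction m with
  | zero => simp
  | succ m ih =>
    rw [pow_succ', Equiv.Perm.mul_apply, ih, ha_inr, ← mul_assoc, ← pow_succ']

theorem ha_pow (μ : ∀ e : ι, ZMod (q e)) (h16 : ∀ e, μ e ^ 16 = 1) :
    (ha μ h16 : Equiv.Perm (WE c q)) ^ (2 ^ 4) = 1 := by
  apply Equiv.ext
  rintro (x | ⟨e, z⟩)
  · rw [ha_pow_inl, Equiv.Perm.one_apply]
  · rw [ha_pow_inr, Equiv.Perm.one_apply]
    have : μ e ^ (2 ^ 4) = 1 := h16 e
    rw [this, one_mul]

theorem ta_ha (μ : ∀ e : ι, ZMod (q e)) (h16 : ∀ e, μ e ^ 16 = 1)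
    (t : ∀ i : B, Fin (c i) → ZMod 2) :
    (ta t : Equiv.Perm (WE c q)) * ha μ h16 = ha μ h16 * ta t := by
  apply Equiv.ext
  rintro (x | z)
  · rfl
  · rfl

theorem ha_ca (μ : ∀ e : ι, ZMod (q e)) (h16 : ∀ e, μ e ^ 16 = 1)
    (g : ∀ i : B, (Fin (c i) → ZMod 2) ≃+ (Fin (c i) → ZMod 2)) :
    (ha μ h16 : Equiv.Perm (WE c q))⁻¹ * ca g (fun _ => 1) * ha μ h16 =
      ca g (fun e => μ e ^ 15) := by
  rw [mul_assoc, inv_mul_eq_iff_eq_mul]
  apply Equiv.ext
  rintro (⟨i, v⟩ | ⟨e, z⟩)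
  · rfl
  · rw [Equiv.Perm.mul_apply, Equiv.Perm.mul_apply, ha_inr, ca_inr, ca_inr, ha_inr]
    have : μ e * (z + μ e ^ 15) = μ e * z + μ e ^ 16 := by ring
    rw [this, h16]

theorem ca_pow_inl (g : ∀ i : B, (Fin (c i) → ZMod 2) ≃+ (Fin (c i) → ZMod 2))
    (w : ∀ e : ι, ZMod (q e)) (m : ℕ) (i : B) (v : Fin (c i) → ZMod 2) :
    ((ca g w : Equiv.Perm (WE c q)) ^ m) (Sum.inl ⟨i, v⟩) = Sum.inl ⟨i, (⇑(g i))^[m] v⟩ := by
  induction m with
  | zero => rfl
  | succ m ih =>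
    rw [pow_succ', Equiv.Perm.mul_apply, ih, ca_inl, Function.iterate_succ_apply']

theorem ca_pow_inr (g : ∀ i : B, (Fin (c i) → ZMod 2) ≃+ (Fin (c i) → ZMod 2)) (e : ι)
    (z : ZMod (q e)) (m : ℕ) :
    ((ca g (fun _ => 1) : Equiv.Perm (WE c q)) ^ m) (Sum.inr ⟨e, z⟩) =
      Sum.inr ⟨e, z + m⟩ := by
  induction m with
  | zero => simp
  | succ m ih =>
    rw [pow_succ', Equiv.Perm.mul_apply, ih, ca_inr]
    congr 2
    push_cast
    ring

section classify

variable {G : SimpleGraph (WE c q)} (hG : ∀ t, Inv (ta t) G)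
  {g : ∀ i : B, (Fin (c i) → ZMod 2) ≃+ (Fin (c i) → ZMod 2)}

/-- rotations of one extra block -/
theorem rot (hc : Inv (ca g (fun _ => 1)) G) {e : ι} [NeZero (q e)] {z w : ZMod (q e)}
    (x : ZMod (q e)) (h : G.Adj (Sum.inr ⟨e, z⟩ : WE c q) (Sum.inr ⟨e, w⟩)) :
    G.Adj (Sum.inr ⟨e, z + x⟩ : WE c q) (Sum.inr ⟨e, w + x⟩) := by
  have h1 := inv_pow hc x.val _ _ h
  rwa [ca_pow_inr, ca_pow_inr, ZMod.natCast_zmod_val] at h1

/-- two different extra blocks -/
theorem cross (hco : ∀ e e', e ≠ e' → (q e).Coprime (q e')) (hc : Inv (ca g (fun _ => 1)) G)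
    [∀ e, NeZero (q e)] {e e' : ι} (he : e ≠ e') {z z' : ZMod (q e)} {w w' : ZMod (q e')}
    (h : G.Adj (Sum.inr ⟨e, z'⟩ : WE c q) (Sum.inr ⟨e', w'⟩)) :
    G.Adj (Sum.inr ⟨e, z⟩ : WE c q) (Sum.inr ⟨e', w⟩) := by
  obtain ⟨m, hm1, hm2⟩ := Nat.chineseRemainder (hco e e' he) (z - z').val (w - w').val
  have h1 := inv_pow hc m _ _ h
  rw [ca_pow_inr, ca_pow_inr] at h1
  have e1 : (m : ZMod (q e)) = z - z' := by
    rw [(ZMod.natCast_eq_natCast_iff _ _ _).2 hm1, ZMod.natCast_zmod_val]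
  have e2 : (m : ZMod (q e')) = w - w' := by
    rw [(ZMod.natCast_eq_natCast_iff _ _ _).2 hm2, ZMod.natCast_zmod_val]
  rwa [e1, e2, add_sub_cancel, add_sub_cancel] at h1

include hG

theorem mixed [DecidableEq B] (hc : Inv (ca g (fun _ => 1)) G) {i : B} {e : ι} [NeZero (q e)]
    {u u' : Fin (c i) → ZMod 2} {z z' : ZMod (q e)}
    (h : G.Adj (Sum.inl ⟨i, u'⟩ : WE c q) (Sum.inr ⟨e, z'⟩)) :
    G.Adj (Sum.inl ⟨i, u⟩ : WE c q) (Sum.inr ⟨e, z⟩) := by
  have h1 := inv_pow hc (z - z').val _ _ h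
  rw [ca_pow_inl, ca_pow_inr, ZMod.natCast_zmod_val, add_sub_cancel] at h1
  set u'' := (⇑(g i))^[(z - z').val] u'
  have h2 := hG (Function.update (fun _ => 0) i (u - u'')) _ _ h1
  rw [ta_inl, ta_inr, Function.update_self, add_sub_cancel] at h2
  exact h2

theorem inv_caw [∀ e, NeZero (q e)] [DecidableEq B]
    (hco : ∀ e e', e ≠ e' → (q e).Coprime (q e')) (hc : Inv (ca g (fun _ => 1)) G)
    (w : ∀ e, ZMod (q e)) : Inv (ca g w) G := by
  rintro (⟨i, u⟩ | ⟨e, z⟩) (⟨j, v⟩ | ⟨e', y⟩) h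
  · exact hc _ _ h
  · exact mixed hG hc h
  · exact (mixed hG hc h.symm).symm
  · by_cases he : e = e'
    · subst he
      exact rot hc _ h
    · exact cross hco hc he h

theorem classify [∀ e, NeZero (q e)] [DecidableEq B] (μ : ∀ e : ι, ZMod (q e))
    (h16 : ∀ e, μ e ^ 16 = 1) (hco : ∀ e e', e ≠ e' → (q e).Coprime (q e'))
    (hc : Inv (ca g (fun _ => 1)) G) (hh : Inv (ha μ h16) G)
    (hg : ∀ i (x y : Fin (c i) → ZMod 2), x ≠ 0 → y ≠ 0 → ∃ m : ℕ, (⇑(g i))^[m] x = y)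
    (hq : ∀ e (x y : ZMod (q e)), x ≠ 0 → y ≠ 0 → ∃ m : ℕ, μ e ^ m * x = y)
    (x y x' y' : WE c q) (hxy : x ≠ y) (hxy' : x' ≠ y') (hx : pe c q x = pe c q x')
    (hy : pe c q y = pe c q y') (h : G.Adj x' y') : G.Adj x y := by
  have hG' : ∀ t, Inv (tra t) (G.comap Sum.inl) := fun t a b hab => by
    have := hG t _ _ (show G.Adj (Sum.inl a) (Sum.inl b) from hab)
    exact this
  have hc' : Inv (cyv g) (G.comap Sum.inl) := fun a b hab => by
    have := hc _ _ (show G.Adj (Sum.inl a) (Sum.inl b) from hab)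
    exact this
  rcases x with ⟨i, u⟩ | ⟨e, z⟩ <;> rcases x' with ⟨i', u'⟩ | ⟨e', z'⟩
  · obtain rfl : i = i' := Sum.inl_injective hx
    rcases y with ⟨j, v⟩ | ⟨f, w⟩ <;> rcases y' with ⟨j', v'⟩ | ⟨f', w'⟩
    · obtain rfl : j = j' := Sum.inl_injective hy
      by_cases hij : i = j
      · subst hij
        have huv : u ≠ v := by
          rintro rfl
          exact hxy rfl
        exact adj_eq (G := G.comap Sum.inl) hG' hc' hg huv h
      · exact adj_ne (G := G.comap Sum.inl) hG' hij h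
    · exact absurd hy (by simp [pe])
    · exact absurd hy (by simp [pe])
    · obtain rfl : f = f' := Sum.inr_injective hy
      exact mixed hG hc h
  · exact absurd hx (by simp [pe])
  · exact absurd hx (by simp [pe])
  · obtain rfl : e = e' := Sum.inr_injective hx
    rcases y with ⟨j, v⟩ | ⟨f, w⟩ <;> rcases y' with ⟨j', v'⟩ | ⟨f', w'⟩
    · obtain rfl : j = j' := Sum.inl_injective hy
      exact (mixed hG hc h.symm).symm
    · exact absurd hy (by simp [pe])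
    · exact absurd hy (by simp [pe])
    · obtain rfl : f = f' := Sum.inr_injective hy
      by_cases hef : e = f
      · subst hef
        obtain ⟨m, hm⟩ := hq e (w' - z') (w - z) (by
          rw [sub_ne_zero]
          rintro rfl
          exact hxy' rfl) (by
          rw [sub_ne_zero]
          rintro rfl
          exact hxy rfl)
        have h1 := inv_pow hh m _ _ h
        rw [ha_pow_inr, ha_pow_inr] at h1
        have h2 := rot hc (z - μ e ^ m * z') h1
        rw [add_sub_cancel] at h2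
        have e1 : μ e ^ m * w' + (z - μ e ^ m * z') = w := by
          have : μ e ^ m * w' + (z - μ e ^ m * z') = z + μ e ^ m * (w' - z') := by ring
          rw [this, hm, add_sub_cancel]
        rwa [e1] at h2
      · exact cross hco hc hef h

end classify

end

section crit

variable {B ι : Type} [Fintype B] [DecidableEq B] [Fintype ι] [DecidableEq ι] (c : B → ℕ)
  (q : ι → ℕ)

/-- the blocks with at least two vertices -/
def ce : B ⊕ ι → ℕ := Sum.elim c (fun _ => 1)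

theorem pe_surj [∀ e, NeZero (q e)] : Function.Surjective (pe c q) := by
  rintro (i | e)
  · exact ⟨Sum.inl ⟨i, 0⟩, rfl⟩
  · exact ⟨Sum.inr ⟨e, 0⟩, rfl⟩

open Classical in
/-- the criterion -/
theorem crit [DecidableEq (WE c q)] [∀ e, NeZero (q e)] (h3 : ∀ e, 1 < q e) (μ : ∀ e : ι, ZMod (q e))
    (h16 : ∀ e, μ e ^ 16 = 1) (hco : ∀ e e', e ≠ e' → (q e).Coprime (q e'))
    (hq : ∀ e (x y : ZMod (q e)), x ≠ 0 → y ≠ 0 → ∃ m : ℕ, μ e ^ m * x = y)
    (hgen : S_gen) (𝓕 : Fam) (h0 : ∀ F ∈ 𝓕, ¬ F.2.Colorable 1)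
    (hne : NE (univ : Finset (EV (WE c q))) (fun S => ¬ HH 𝓕 (toG S))) :
    (2 : ℤ) ∣ ∑ A : Finset (EV (B ⊕ ι) ⊕ {o : B ⊕ ι // ce c o ≠ 0}),
      if ¬ HH 𝓕 (gB (pe c q) (ce c) A) then (-1 : ℤ) ^ A.card else 0 := by
  choose g hg using fun i => hgen (c i)
  have hcrit := Pool.Agent.H98R2.Nb.GC.graph_criterion (V := WE c q) (fun G => ¬ HH 𝓕 G)
    (fun G G' hGG' hP h => hP (HH_hom h (SimpleGraph.Hom.ofLE hGG')))
    (fun s G hP h => hP (HH_hom h (SimpleGraph.Iso.map s G).symm.toHom))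
    (not_HH_bot h0) hne 2 2 4 (fun t : (∀ i, Fin (c i) → ZMod 2) => ta t)
    (ca g (fun _ => 1)) (ha μ h16)
    (fun s t => ta_comm s t) (fun t => ta_sq t) (ha_pow μ h16)
    (fun t => ta_ha μ h16 t)
    (fun G hG t => by rw [ca_ta]; exact hG _)
    (fun G hG hG2 => by rw [ha_ca]; exact inv_caw hG hco hG2 _)
    (fun A : Finset (EV (B ⊕ ι) ⊕ {o : B ⊕ ι // ce c o ≠ 0}) => gB (pe c q) (ce c) A)
    (fun A A' => gB_le (pe_surj c q) (by
      rintro (i | e) hi
      · obtain ⟨v, hv⟩ := exists_ne_zero hi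
        refine ⟨Sum.inl ⟨i, 0⟩, Sum.inl ⟨i, v⟩, rfl, rfl, ?_⟩
        intro h
        apply hv
        have h4 := (Sigma.mk.inj_iff.1 (Sum.inl_injective h)).2
        exact (eq_of_heq h4).symm
      · refine ⟨Sum.inr ⟨e, 0⟩, Sum.inr ⟨e, 1⟩, rfl, rfl, ?_⟩
        intro h
        have h4 := (Sigma.mk.inj_iff.1 (Sum.inr_injective h)).2
        have h1 : (0 : ZMod (q e)) = 1 := eq_of_heq h4
        have : Fact (1 < q e) := ⟨h3 e⟩
        exact zero_ne_one h1) A A')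
    (fun A t => blow_inv _ _ _ (by rintro (x | z) <;> rfl))
    (fun A => blow_inv _ _ _ (by rintro (x | z) <;> rfl))
    (fun A => blow_inv _ _ _ (by rintro (x | z) <;> rfl))
    (fun G _ hG1 hG2 hG3 => gB_surj (by
      rintro (i | e) hi x y hx hy
      · rcases x with ⟨j, u⟩ | z
        · rcases y with ⟨k, v⟩ | w
          · obtain rfl : j = i := Sum.inl_injective hx
            obtain rfl : k = j := Sum.inl_injective hy
            have huv : u = v := by
              funext l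
              have hi' : c k = 0 := hi
              exact (Fin.cast hi' l).elim0
            rw [huv]
          · exact absurd hy (by simp [pe])
        · exact absurd hx (by simp [pe])
      · exact absurd hi (by simp [ce]))
      (fun x y x' y' => classify hG1 μ h16 hco hG2 hG3 hg hq x y x' y'))
  exact_mod_cast hcrit

/-- the types of the complete blocks -/
def se (𝓕 : Fam) (c : B → ℕ) (q : ι → ℕ) : B ⊕ ι → TY 𝓕 :=
  Sum.elim (fun i => (J 2)^[c i] xi) (fun e => J (q e) xi)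

theorem se_mem {𝓕 : Fam} [∀ e, NeZero (q e)] (o : B ⊕ ι) (F : 𝓕) (U : Finset (Fin F.1.1)) :
    U ∈ (se 𝓕 c q o).1 F ↔ Cb {v // pe c q v = o} F U := by
  classical
  rcases o with i | e
  · have eq : (Fin (c i) → ZMod 2) ≃ {v : WE c q // pe c q v = Sum.inl i} :=
      { toFun := fun z => ⟨Sum.inl ⟨i, z⟩, rfl⟩
        invFun := fun v => v.1.elim (fun x => if h : x.1 = i then h ▸ x.2 else 0) (fun _ => 0)
        left_inv := fun z => by simp
        right_inv := by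
          rintro ⟨(⟨j, x⟩ | z), h⟩
          · obtain rfl : j = i := Sum.inl_injective h
            simp
          · exact absurd h (by simp [pe]) }
    rw [← Cb_of_equiv eq]
    exact mem_iter' (c i) F U
  · have eq : ZMod (q e) ≃ {v : WE c q // pe c q v = Sum.inr e} :=
      { toFun := fun z => ⟨Sum.inr ⟨e, z⟩, rfl⟩
        invFun := fun v => v.1.elim (fun _ => 0) (fun x => if h : x.1 = e then h ▸ x.2 else 0)
        left_inv := fun z => by simp
        right_inv := by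
          rintro ⟨(x | ⟨f, z⟩), h⟩
          · exact absurd h (by simp [pe])
          · obtain rfl : f = e := Sum.inr_injective h
            simp }
    rw [← Cb_of_equiv eq]
    exact mem_J (q e) F U

end crit

/-- the numbers `3`, `5` and `17` -/
structure Okm (q : ℕ) (μ : ZMod q) : Prop where
  one_lt : 1 < q
  h16 : μ ^ 16 = 1
  gen : ∀ x y : ZMod q, x ≠ 0 → y ≠ 0 → ∃ m : ℕ, μ ^ m * x = y

theorem okm_of {q : ℕ} {μ : ZMod q} (h1 : 1 < q) (h16 : μ ^ 16 = 1)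
    (h : ∀ y : ZMod q, y ≠ 0 → ∃ m : Fin 17, μ ^ (m : ℕ) = y) : Okm q μ := by
  refine ⟨h1, h16, fun x y hx hy => ?_⟩
  obtain ⟨a, ha⟩ := h x hx
  obtain ⟨b, hb⟩ := h y hy
  refine ⟨b + (16 - a), ?_⟩
  have ha' := a.2
  rw [← ha, ← pow_add]
  have e : (b : ℕ) + (16 - a) + a = b + 16 := by omega
  rw [e, pow_add, h16, mul_one, hb]

theorem okm3 : Okm 3 2 := okm_of (by norm_num) (by decide) (by decide)

theorem okm5 : Okm 5 2 := okm_of (by norm_num) (by decide) (by decide)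

theorem okm17 : Okm 17 3 := okm_of (by norm_num) (by decide) (by decide)

theorem okm_ex (q : ℕ) (h : q ∈ [3, 5, 17]) : ∃ μ, Okm q μ := by
  simp only [List.mem_cons, List.not_mem_nil, or_false] at h
  rcases h with rfl | rfl | rfl
  · exact ⟨_, okm3⟩
  · exact ⟨_, okm5⟩
  · exact ⟨_, okm17⟩

theorem t : S_relE := by
  classical
  intro 𝓕 n h1 hNE L E hE hn
  have hch : CharP (AA 𝓕 2) 2 := charP_of (h := h1)
  let c : Fin L.length → ℕ := fun i => L[i]
  let q : Fin E.length → ℕ := fun e => E[e]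
  have hmem : ∀ e, q e ∈ [3, 5, 17] := fun e => hE.subset (List.getElem_mem _)
  choose μ hμ using fun e => okm_ex (q e) (hmem e)
  have hnz : ∀ e, NeZero (q e) := fun e => ⟨by have := (hμ e).one_lt; omega⟩
  have hpw : E.Pairwise Nat.Coprime := List.Pairwise.sublist hE (by decide)
  have hco : ∀ e e', e ≠ e' → (q e).Coprime (q e') := by
    intro e e' he
    rw [List.pairwise_iff_getElem] at hpw
    rcases lt_or_gt_of_ne (fun h : (e : ℕ) = e' => he (Fin.ext h)) with h | h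
    · exact hpw e e' e.2 e'.2 h
    · exact (hpw e' e e'.2 e.2 h).symm
  have hcard : Fintype.card (Fin n) = Fintype.card (WE c q) := by
    rw [Fintype.card_fin, Fintype.card_sum, Fintype.card_sigma, Fintype.card_sigma]
    have h2 : ∀ i, Fintype.card (Fin (c i) → ZMod 2) = 2 ^ c i := fun i => by
      rw [Fintype.card_fun, ZMod.card, Fintype.card_fin]
    rw [Finset.sum_congr rfl (fun i _ => h2 i), Finset.sum_congr rfl (fun e _ => ZMod.card (q e)),
      ← hn]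
    congr 1
    · exact (Fin.sum_univ_fun_getElem L (2 ^ ·)).symm
    · exact (Fin.sum_univ_getElem E).symm
  have hNE2 := ne_transport (Fintype.equivOfCardEq hcard) hNE
  have hd := crit c q (fun e => (hμ e).one_lt) μ (fun e => (hμ e).h16) hco
    (fun e => (hμ e).gen) Pool.Agent.Y350.EV.t 𝓕 h1 hNE2
  have hc := count (𝓕 := 𝓕) (pe c q) (pe_surj c q) (ce c) (se 𝓕 c q)
    (fun o _ F U => se_mem c q o F U)
  rw [(ZMod.intCast_zmod_eq_zero_iff_dvd _ 2).2 (by exact_mod_cast hd)] at hc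
  have e : (∏ o, zq (ce c) (se 𝓕 c q) o) =
      (L.map (Pool.Agent.Y577.EV.zz 𝓕)).prod * (E.map (fun q => Xc 𝓕 0 - Kc 𝓕 q)).prod := by
    rw [Fintype.prod_sum_type]
    congr 1
    · exact Fin.prod_univ_fun_getElem L (Pool.Agent.Y577.EV.zz 𝓕)
    · rw [← Fin.prod_univ_fun_getElem E (fun q => Xc 𝓕 0 - Kc 𝓕 q)]
      refine Finset.prod_congr rfl fun e _ => ?_
      unfold zq
      rw [if_neg (by simp [ce])]
      rfl
  rw [e] at hc
  exact hc.symm

end Pool.Agent.H636.HD.RelE
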