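import Pool.Agent.H636.HD.Stm

/-! Values at products of at most four complete blocks (HD-C, by helper706). -/

set_option autoImplicit false
set_option linter.unusedSectionVars false

namespace Pool.Agent.H636.HD.Val

open Finset Pool.Agent.H98R2.Ev Pool.Agent.TH410.KV Pool.Agent.Y577.EV Pool.Agent.H636.HC

variable {𝓕 : Fam}

section MC

variable {V : Type} [Fintype V] [DecidableEq V]

/-- graphs with at most four vertices are perfect (weighted form) -/
theorem mc_exists (G : SimpleGraph V) (w : V → ℕ) (ω : ℕ) : ∀ (n : ℕ), n ≤ 4 → ∀ U : Finset V,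
    U.card = n → (∀ T ⊆ U, (∀ a ∈ T, ∀ b ∈ T, a ≠ b → G.Adj a b) → ∑ a ∈ T, w a ≤ ω) →
    ∃ s : V → Finset ℕ, (∀ v ∈ U, s v ⊆ range ω ∧ (s v).card = w v) ∧
      ∀ u ∈ U, ∀ v ∈ U, G.Adj u v → Disjoint (s u) (s v) := by
  classical
  intro n
  induction n with
  | zero =>
    intro _ U hU _
    rw [card_eq_zero] at hU
    subst hU
    exact ⟨fun _ => ∅, by simp, by simp⟩
  | succ n ih =>
    intro hn U hU hcl
    by_cases hs : ∃ v ∈ U, ∀ a ∈ U, ∀ b ∈ U, G.Adj v a → G.Adj v b → a ≠ b → G.Adj a b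
    · obtain ⟨v, hv, hs⟩ := hs
      obtain ⟨s, hs1, hs2⟩ := ih (by omega) (U.erase v) (by rw [card_erase_of_mem hv]; omega)
        (fun T hT => hcl T (hT.trans (erase_subset _ _)))
      obtain ⟨N, hN⟩ : ∃ N, N = (U.erase v).filter (fun a => G.Adj v a) := ⟨_, rfl⟩
      have hmN : ∀ a, a ∈ N ↔ (a ≠ v ∧ a ∈ U) ∧ G.Adj v a := by
        intro a
        rw [hN, mem_filter, mem_erase]
      have hvN : v ∉ N := fun h => ((hmN v).1 h).1.1 rfl
      have hNw : w v + ∑ a ∈ N, w a ≤ ω := by
        rw [← sum_insert hvN]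
        refine hcl _ (fun a ha => ?_) (fun a ha b hb hab => ?_)
        · rcases mem_insert.1 ha with h | h
          · rw [h]; exact hv
          · exact ((hmN a).1 h).1.2
        · rcases mem_insert.1 ha with h | h
          · rcases mem_insert.1 hb with h' | h'
            · exact absurd (h.trans h'.symm) hab
            · rw [h]; exact ((hmN b).1 h').2
          · rcases mem_insert.1 hb with h' | h'
            · rw [h']; exact ((hmN a).1 h).2.symm
            · exact hs a ((hmN a).1 h).1.2 b ((hmN b).1 h').1.2 ((hmN a).1 h).2 ((hmN b).1 h').2 hab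
      have hXc : (N.biUnion s).card ≤ ∑ a ∈ N, w a := by
        refine card_biUnion_le.trans (sum_le_sum fun a ha => ?_)
        exact (hs1 a (mem_erase.2 ((hmN a).1 ha).1)).2.le
      have hXr : w v ≤ (range ω \ N.biUnion s).card := by
        have := le_card_sdiff (N.biUnion s) (range ω)
        rw [card_range] at this
        omega
      obtain ⟨Y, hY1, hY2⟩ := exists_subset_card_eq hXr
      have hYd : ∀ u ∈ U, G.Adj v u → Disjoint Y (s u) := by
        intro u hu huv
        have huN : u ∈ N := (hmN u).2 ⟨⟨huv.ne', hu⟩, huv⟩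
        refine Disjoint.mono_left hY1 ?_
        refine Disjoint.mono_right (subset_biUnion_of_mem s huN) ?_
        exact sdiff_disjoint
      refine ⟨Function.update s v Y, fun u hu => ?_, fun u hu u' hu' hadj => ?_⟩
      · by_cases h : u = v
        · rw [h, Function.update_self]
          exact ⟨hY1.trans sdiff_subset, hY2⟩
        · rw [Function.update_of_ne h]
          exact hs1 u (mem_erase.2 ⟨h, hu⟩)
      · by_cases h : u = v
        · have h' : u' ≠ v := by
            intro h'
            rw [h, h'] at hadj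
            exact G.loopless.irrefl _ hadj
          rw [Function.update_of_ne h', h, Function.update_self]
          rw [h] at hadj
          exact hYd u' hu' hadj
        · by_cases h' : u' = v
          · rw [Function.update_of_ne h, h', Function.update_self]
            rw [h'] at hadj
            exact (hYd u hu hadj.symm).symm
          · rw [Function.update_of_ne h, Function.update_of_ne h']
            exact hs2 u (mem_erase.2 ⟨h, hu⟩) u' (mem_erase.2 ⟨h', hu'⟩) hadj
    · push Not at hs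
      obtain ⟨v, hv⟩ : U.Nonempty := by rw [← card_pos]; omega
      obtain ⟨x, hx, y, hy, hvx, hvy, hxy, hnxy⟩ := hs v hv
      have hU4 : U.card ≤ 4 := by omega
      -- the fourth vertex
      have fourth : ∀ x ∈ U, ∀ y ∈ U, G.Adj v x → G.Adj v y → x ≠ y → ¬ G.Adj x y →
          ∃ z ∈ U, z ≠ v ∧ z ≠ x ∧ z ≠ y ∧ G.Adj x z ∧ ¬ G.Adj v z := by
        intro x hx y hy hvx hvy hxy hnxy
        obtain ⟨a, ha, b, hb, hxa, hxb, hab, hnab⟩ := hs x hx
        have hay : a ≠ y := by rintro rfl; exact hnxy hxa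
        have hby : b ≠ y := by rintro rfl; exact hnxy hxb
        by_cases hav : a = v
        · rw [hav] at hab hnab
          exact ⟨b, hb, hab.symm, hxb.ne', hby, hxb, hnab⟩
        · by_cases hbv : b = v
          · rw [hbv] at hab hnab
            exact ⟨a, ha, hab, hxa.ne', hay, hxa, fun h => hnab h.symm⟩
          · exfalso
            have h5 : ({v, x, y, a, b} : Finset V) ⊆ U := by
              intro c hc
              simp only [mem_insert, mem_singleton] at hc
              rcases hc with rfl | rfl | rfl | rfl | rfl <;> assumption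
            have h6 : ({v, x, y, a, b} : Finset V).card = 5 := by
              rw [card_insert_of_notMem, card_insert_of_notMem, card_insert_of_notMem,
                card_insert_of_notMem, card_singleton]
              · simp only [mem_singleton]; exact hab
              · simp only [mem_insert, mem_singleton, not_or]; exact ⟨hay.symm, hby.symm⟩
              · simp only [mem_insert, mem_singleton, not_or]; exact ⟨hxy, hxa.ne, hxb.ne⟩
              · simp only [mem_insert, mem_singleton, not_or]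
                exact ⟨hvx.ne, hvy.ne, fun h => hav h.symm, fun h => hbv h.symm⟩
            have h7 := card_le_card h5
            omega
      obtain ⟨z, hz, hzv, hzx, hzy, hxz, hvz⟩ := fourth x hx y hy hvx hvy hxy hnxy
      obtain ⟨z', hz', hzv', hzy', hzx', hyz, -⟩ := fourth y hy x hx hvy hvx hxy.symm
        (fun h => hnxy h.symm)
      have h5 : ({v, x, y, z} : Finset V) ⊆ U := by
        intro c hc
        simp only [mem_insert, mem_singleton] at hc
        rcases hc with rfl | rfl | rfl | rfl <;> assumption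
      have h6 : ({v, x, y, z} : Finset V).card = 4 := by
        rw [card_insert_of_notMem, card_insert_of_notMem, card_insert_of_notMem, card_singleton]
        · simp only [mem_singleton]; exact hzy.symm
        · simp only [mem_insert, mem_singleton, not_or]; exact ⟨hxy, hzx.symm⟩
        · simp only [mem_insert, mem_singleton, not_or]; exact ⟨hvx.ne, hvy.ne, hzv.symm⟩
      have h7 : ({v, x, y, z} : Finset V) = U := eq_of_subset_of_card_le h5 (by omega)
      have h8 : ∀ u ∈ U, u = v ∨ u = x ∨ u = y ∨ u = z := by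
        intro u hu
        rw [← h7] at hu
        simpa using hu
      have h9 : z' = z := by
        rcases h8 z' hz' with h | h | h | h
        · exact absurd h hzv'
        · exact absurd h hzx'
        · exact absurd h hzy'
        · exact h
      have hw1 : ∀ u ∈ U, w u ≤ ω := by
        intro u hu
        have := hcl {u} (singleton_subset_iff.2 hu) (fun a ha b hb hab => by
          rw [mem_singleton] at ha hb
          exact absurd (ha.trans hb.symm) hab)
        rwa [sum_singleton] at this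
      have hw2 : ∀ u ∈ U, ∀ u' ∈ U, G.Adj u u' → w u + w u' ≤ ω := by
        intro u hu u' hu' hadj
        have := hcl {u, u'} (by
            intro c hc
            simp only [mem_insert, mem_singleton] at hc
            rcases hc with rfl | rfl <;> assumption) (fun a ha b hb hab => by
          simp only [mem_insert, mem_singleton] at ha hb
          rcases ha with rfl | rfl <;> rcases hb with rfl | rfl
          · exact absurd rfl hab
          · exact hadj
          · exact hadj.symm
          · exact absurd rfl hab)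
        rwa [sum_pair hadj.ne] at this
      refine ⟨fun u => if u = v ∨ u = z then range (w u) else Ico (ω - w u) ω,
        fun u hu => ?_, fun u hu u' hu' hadj => ?_⟩
      · have h1 := hw1 u hu
        by_cases h : u = v ∨ u = z
        · simp only [if_pos h]
          exact ⟨range_subset_range.2 h1, card_range _⟩
        · simp only [if_neg h]
          refine ⟨fun i hi => ?_, ?_⟩
          · rw [mem_Ico] at hi
            exact mem_range.2 hi.2
          · rw [Nat.card_Ico]
            omega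
      · have hmix : ∀ u ∈ U, ∀ u' ∈ U, G.Adj u u' →
            Disjoint (range (w u)) (Ico (ω - w u') ω) := by
          intro u hu u' hu' hadj
          rw [disjoint_left]
          intro i hi hi'
          rw [mem_range] at hi
          rw [mem_Ico] at hi'
          have := hw2 u hu u' hu' hadj
          omega
        by_cases h : u = v ∨ u = z
        · by_cases h' : u' = v ∨ u' = z
          · exfalso
            rcases h with rfl | rfl <;> rcases h' with rfl | rfl
            · exact G.loopless.irrefl _ hadj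
            · exact hvz hadj
            · exact hvz hadj.symm
            · exact G.loopless.irrefl _ hadj
          · simp only [if_pos h, if_neg h']
            exact hmix u hu u' hu' hadj
        · by_cases h' : u' = v ∨ u' = z
          · simp only [if_neg h, if_pos h']
            exact (hmix u' hu' u hu hadj.symm).symm
          · exfalso
            rw [not_or] at h h'
            have h10 : u = x ∨ u = y := by
              rcases h8 u hu with h11 | h11 | h11 | h11
              · exact absurd h11 h.1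
              · exact Or.inl h11
              · exact Or.inr h11
              · exact absurd h11 h.2
            have h12 : u' = x ∨ u' = y := by
              rcases h8 u' hu' with h11 | h11 | h11 | h11
              · exact absurd h11 h'.1
              · exact Or.inl h11
              · exact Or.inr h11
              · exact absurd h11 h'.2
            rcases h10 with rfl | rfl <;> rcases h12 with rfl | rfl
            · exact G.loopless.irrefl _ hadj
            · exact hnxy hadj
            · exact hnxy hadj.symm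
            · exact G.loopless.irrefl _ hadj

/-- bad graphs with at most four complete blocks -/
theorem bad_iff {w : V → ℕ} {G : SimpleGraph V} {ω : ℕ} (hV : Fintype.card V ≤ 4)
    (hw : ∀ v, 1 ≤ w v) (h0 : ∀ F ∈ 𝓕, ¬ F.2.Colorable ω)
    (h1 : ∃ F ∈ 𝓕, F.2.Colorable (ω + 1)) : Bad (Kt 𝓕 w) G ↔
      ∃ T : Finset V, (∀ a ∈ T, ∀ b ∈ T, a ≠ b → G.Adj a b) ∧ ω < ∑ a ∈ T, w a := by
  classical
  constructor
  · intro h
    by_contra hcon
    push Not at hcon
    obtain ⟨s, hs1, hs2⟩ := mc_exists G w ω (Fintype.card V) hV univ card_univ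
      (fun T _ hT => hcon T hT)
    obtain ⟨F, κ, col, h2, h3⟩ := bad_col' hw h
    refine h0 F.1 F.2 ?_
    have hc : ∀ v, (s v).card = w v := fun v => (hs1 v (mem_univ v)).2
    have hmem : ∀ v (i : Fin (w v)), (s v).orderEmbOfFin (hc v) i < ω := fun v i =>
      mem_range.1 ((hs1 v (mem_univ v)).1 (orderEmbOfFin_mem (s v) (hc v) i))
    have h4 := (SimpleGraph.Coloring.mk (G := F.1.2)
      (fun x => (⟨(s (κ x)).orderEmbOfFin (hc (κ x)) (col (κ x) x), hmem _ _⟩ : Fin ω)) (by
        intro x y hxy heq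
        have heq' := congrArg Fin.val heq
        change (s (κ x)).orderEmbOfFin (hc (κ x)) (col (κ x) x) =
          (s (κ y)).orderEmbOfFin (hc (κ y)) (col (κ y) y) at heq'
        by_cases hκ : κ x = κ y
        · refine h2 x y hxy hκ ?_
          have h6 : ∀ v, κ y = v → (s v).orderEmbOfFin (hc v) (col v y) =
              (s (κ y)).orderEmbOfFin (hc (κ y)) (col (κ y) y) := by
            rintro v rfl
            rfl
          rw [← h6 (κ x) hκ.symm] at heq'
          exact ((s (κ x)).orderEmbOfFin (hc (κ x))).injective heq'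
        · have h5 := hs2 _ (mem_univ _) _ (mem_univ _) (h3 x y hxy hκ)
          rw [disjoint_left] at h5
          refine h5 (orderEmbOfFin_mem (s (κ x)) (hc (κ x)) (col (κ x) x)) ?_
          rw [heq']
          exact orderEmbOfFin_mem (s (κ y)) (hc (κ y)) (col (κ y) y))).colorable
    rwa [Fintype.card_fin] at h4
  · rintro ⟨T, hT, hlt⟩
    obtain ⟨F, hF, hc⟩ := h1
    exact bad_of_complete hw T hT hF (hc.mono hlt)

end MC

section Cnt

/-- parity of the number of the `b` with `f b` -/
def X2 (f : Bool → Bool) : Bool := Bool.xor (f true) (f false)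

theorem sum_X2 (f : Bool → Bool) :
    ∑ b : Bool, (if f b = true then (1 : ZMod 2) else 0) = if X2 f = true then 1 else 0 := by
  rw [Fintype.sum_bool]
  unfold X2
  rcases f true <;> rcases f false <;> decide

/-- some allowed clique is heavy; two vertices -/
def bd2 (p e : Bool) : Bool := p && e

/-- some clique is heavy; three vertices -/
def bd3 (p01 p02 p12 t : Bool) (e01 e02 e12 : Bool) : Bool :=
  (p01 && e01) || (p02 && e02) || (p12 && e12) || (t && (e01 && e02 && e12))

/-- some clique is heavy; four vertices -/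
def bd4 (p01 p02 p03 p12 p13 p23 t012 t013 t023 t123 q : Bool)
    (e01 e02 e03 e12 e13 e23 : Bool) : Bool :=
  (p01 && e01) || (p02 && e02) || (p03 && e03) || (p12 && e12) || (p13 && e13) || (p23 && e23) ||
  (t012 && (e01 && e02 && e12)) || (t013 && (e01 && e03 && e13)) ||
  (t023 && (e02 && e03 && e23)) || (t123 && (e12 && e13 && e23)) ||
  (q && (e01 && e02 && e03 && e12 && e13 && e23))

/-- parity of the number of good graphs -/
def cnt3 (p01 p02 p12 t : Bool) : Bool :=
  X2 fun e01 => X2 fun e02 => X2 fun e12 => !(bd3 p01 p02 p12 t e01 e02 e12)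

/-- parity of the number of good graphs -/
def cnt4 (p01 p02 p03 p12 p13 p23 t012 t013 t023 t123 q : Bool) : Bool :=
  X2 fun e01 => X2 fun e02 => X2 fun e03 => X2 fun e12 => X2 fun e13 => X2 fun e23 =>
    !(bd4 p01 p02 p03 p12 p13 p23 t012 t013 t023 t123 q e01 e02 e03 e12 e13 e23)

theorem cnt3_eq : ∀ p01 p02 p12 t : Bool, (p12 → p02) → (p02 → p01) → (p01 → t) →
    cnt3 p01 p02 p12 t = ((!p01 && t) || p12) := by
  decide

/-- the order of the weights -/
def ok4 (p01 p02 p03 p12 p13 p23 t012 t013 t023 t123 q : Bool) : Bool :=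
  (!t012 || q) && (!t013 || t012) && (!t023 || t013) && (!t123 || t023) && (!p01 || t013) &&
  (!p02 || p01) && (!p02 || t023) && (!p03 || p02) && (!p12 || p02) && (!p12 || t123) &&
  (!p13 || p12) && (!p13 || p03) && (!p23 || p13)

theorem cnt4_eq : ∀ p01 p02 p03 p12 p13 p23 t012 t013 t023 t123 q : Bool,
    ok4 p01 p02 p03 p12 p13 p23 t012 t013 t023 t123 q = true →
    cnt4 p01 p02 p03 p12 p13 p23 t012 t013 t023 t123 q =
      (p23 || (p03 && !p12 && t123) || (p01 && !p02 && t123) ||
        (!p01 && ((!t012 && q) || t023))) := by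
  decide

end Cnt

section Link

theorem ext_adj {V : Type} [DecidableEq V] {S S' : Finset (EV V)}
    (h : ∀ i j, (toG S).Adj i j ↔ (toG S').Adj i j) : S = S' := by
  ext e
  obtain ⟨e, he⟩ := e
  induction e using Sym2.ind with
  | _ i j =>
    have h1 := h i j
    rw [toG_adj, toG_adj] at h1
    constructor
    · intro h2
      obtain ⟨_, h3⟩ := h1.1 ⟨he, h2⟩
      exact h3
    · intro h2
      obtain ⟨_, h3⟩ := h1.2 ⟨he, h2⟩
      exact h3

theorem ext_lt {n : ℕ} {S S' : Finset (EV (Fin n))}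
    (h : ∀ i j, i < j → ((toG S).Adj i j ↔ (toG S').Adj i j)) : S = S' := by
  refine ext_adj fun i j => ?_
  rcases lt_trichotomy i j with h1 | h1 | h1
  · exact h i j h1
  · rw [h1]
    exact ⟨fun h2 => absurd h2 ((toG S).loopless.irrefl _),
      fun h2 => absurd h2 ((toG S').loopless.irrefl _)⟩
  · rw [(toG S).adj_comm, (toG S').adj_comm]
    exact h j i h1

theorem card_EV (n : ℕ) : Fintype.card (EV (Fin n)) = n.choose 2 := by
  have h := Sym2.card_subtype_not_diag (α := Fin n)
  rw [Fintype.card_fin] at h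
  rw [← h]

open Classical in
/-- the edges -/
noncomputable def ps2 (S : Finset (EV (Fin 2))) : Bool := decide ((toG S).Adj 0 1)

open Classical in
/-- the edges -/
noncomputable def ps3 (S : Finset (EV (Fin 3))) : Bool × Bool × Bool :=
  (decide ((toG S).Adj 0 1), decide ((toG S).Adj 0 2), decide ((toG S).Adj 1 2))

open Classical in
/-- the edges -/
noncomputable def ps4 (S : Finset (EV (Fin 4))) : Bool × Bool × Bool × Bool × Bool × Bool :=
  (decide ((toG S).Adj 0 1), decide ((toG S).Adj 0 2), decide ((toG S).Adj 0 3),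
    decide ((toG S).Adj 1 2), decide ((toG S).Adj 1 3), decide ((toG S).Adj 2 3))

theorem ps2_bij : Function.Bijective ps2 := by
  refine (Fintype.bijective_iff_injective_and_card _).2 ⟨fun S S' h => ext_lt ?_, ?_⟩
  · unfold ps2 at h
    rw [decide_eq_decide] at h
    intro i j hij
    fin_cases i <;> fin_cases j <;> first | exact h | exact absurd hij (by decide)
  · rw [Fintype.card_finset, card_EV, Fintype.card_bool]
    rfl

theorem ps3_bij : Function.Bijective ps3 := by
  refine (Fintype.bijective_iff_injective_and_card _).2 ⟨fun S S' h => ext_lt ?_, ?_⟩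
  · unfold ps3 at h
    simp only [Prod.mk.injEq, decide_eq_decide] at h
    obtain ⟨h01, h02, h12⟩ := h
    intro i j hij
    fin_cases i <;> fin_cases j <;>
      first | exact h01 | exact h02 | exact h12 | exact absurd hij (by decide)
  · rw [Fintype.card_finset, card_EV, Fintype.card_prod, Fintype.card_prod, Fintype.card_bool]
    rfl

theorem ps4_bij : Function.Bijective ps4 := by
  refine (Fintype.bijective_iff_injective_and_card _).2 ⟨fun S S' h => ext_lt ?_, ?_⟩
  · unfold ps4 at h
    simp only [Prod.mk.injEq, decide_eq_decide] at h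
    obtain ⟨h01, h02, h03, h12, h13, h23⟩ := h
    intro i j hij
    fin_cases i <;> fin_cases j <;>
      first | exact h01 | exact h02 | exact h03 | exact h12 | exact h13 | exact h23 |
        exact absurd hij (by decide)
  · rw [Fintype.card_finset, card_EV, Fintype.card_prod, Fintype.card_prod, Fintype.card_prod,
      Fintype.card_prod, Fintype.card_prod, Fintype.card_bool]
    rfl

theorem NN_eq {V : Type} [Fintype V] [DecidableEq V] (τ : V → TY 𝓕) {β : Type} [Fintype β]
    {ψ : Finset (EV V) → β} (hψ : Function.Bijective ψ) (g : β → Bool)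
    (h : ∀ S, Bad τ (toG S) ↔ g (ψ S) = true) :
    NN 2 τ = ∑ b, if (!g b) = true then (1 : ZMod 2) else 0 := by
  rw [← hψ.sum_comp (fun b => if (!g b) = true then (1 : ZMod 2) else 0)]
  unfold NN
  refine sum_congr rfl fun S _ => ?_
  unfold ind
  rw [neg_one_pow_two, mul_one]
  by_cases hb : Bad τ (toG S)
  · rw [if_pos hb, (h S).1 hb]
    rfl
  · rw [if_neg hb]
    have h2 : g (ψ S) = false := by
      by_contra h3
      exact hb ((h S).2 (by simpa using h3))
    rw [h2]
    rfl

theorem NN_all {V : Type} [Fintype V] [DecidableEq V] (τ : V → TY 𝓕)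
    (h : ∀ S : Finset (EV V), Bad τ (toG S)) : NN 2 τ = 0 := by
  unfold NN
  refine sum_eq_zero fun S _ => ?_
  unfold ind
  rw [if_pos (h S), zero_mul]

end Link

section Bad

variable {ω : ℕ}

open Classical in
theorem bad2 {w : Fin 2 → ℕ} {G : SimpleGraph (Fin 2)} (hw : ∀ v, 1 ≤ w v)
    (hle : ∀ v, w v ≤ ω) (h0 : ∀ F ∈ 𝓕, ¬ F.2.Colorable ω)
    (h1 : ∃ F ∈ 𝓕, F.2.Colorable (ω + 1)) : Bad (Kt 𝓕 w) G ↔
      bd2 (decide (ω < w 0 + w 1)) (decide (G.Adj 0 1)) = true := by
  rw [bad_iff (by simp) hw h0 h1]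
  simp only [bd2, Bool.and_eq_true, decide_eq_true_eq]
  constructor
  · rintro ⟨T, hT, hlt⟩
    have hs : ∑ a ∈ T, w a = (if 0 ∈ T then w 0 else 0) + (if 1 ∈ T then w 1 else 0) := by
      rw [← Fin.sum_univ_two (fun i => if i ∈ T then w i else 0), ← sum_filter]
      congr 1
      ext i
      simp
    rw [hs] at hlt
    have a01 : 0 ∈ T → 1 ∈ T → G.Adj 0 1 := fun h h' => hT 0 h 1 h' (by decide)
    have l0 := hle 0
    have l1 := hle 1
    by_cases t0 : 0 ∈ T <;> by_cases t1 : 1 ∈ T <;>
      simp only [t0, t1, if_true, if_false, add_zero, zero_add, forall_const] at hlt a01 <;>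
      first | (exfalso; omega) | tauto
  · rintro ⟨h2, h3⟩
    refine ⟨{0, 1}, ?_, ?_⟩
    · simp [h3, h3.symm]
    · rw [sum_pair (by decide)]
      exact h2

open Classical in
theorem bad3 {w : Fin 3 → ℕ} {G : SimpleGraph (Fin 3)} (hw : ∀ v, 1 ≤ w v)
    (hle : ∀ v, w v ≤ ω) (h0 : ∀ F ∈ 𝓕, ¬ F.2.Colorable ω)
    (h1 : ∃ F ∈ 𝓕, F.2.Colorable (ω + 1)) : Bad (Kt 𝓕 w) G ↔
      bd3 (decide (ω < w 0 + w 1)) (decide (ω < w 0 + w 2)) (decide (ω < w 1 + w 2))
        (decide (ω < w 0 + w 1 + w 2)) (decide (G.Adj 0 1)) (decide (G.Adj 0 2))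
        (decide (G.Adj 1 2)) = true := by
  rw [bad_iff (by simp) hw h0 h1]
  simp only [bd3, Bool.and_eq_true, Bool.or_eq_true, decide_eq_true_eq]
  constructor
  · rintro ⟨T, hT, hlt⟩
    have hs : ∑ a ∈ T, w a = (if 0 ∈ T then w 0 else 0) + (if 1 ∈ T then w 1 else 0) +
        (if 2 ∈ T then w 2 else 0) := by
      rw [← Fin.sum_univ_three (fun i => if i ∈ T then w i else 0), ← sum_filter]
      congr 1
      ext i
      simp
    rw [hs] at hlt
    have a01 : 0 ∈ T → 1 ∈ T → G.Adj 0 1 := fun h h' => hT 0 h 1 h' (by decide)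
    have a02 : 0 ∈ T → 2 ∈ T → G.Adj 0 2 := fun h h' => hT 0 h 2 h' (by decide)
    have a12 : 1 ∈ T → 2 ∈ T → G.Adj 1 2 := fun h h' => hT 1 h 2 h' (by decide)
    have l0 := hle 0
    have l1 := hle 1
    have l2 := hle 2
    by_cases t0 : 0 ∈ T <;> by_cases t1 : 1 ∈ T <;> by_cases t2 : 2 ∈ T <;>
      simp only [t0, t1, t2, if_true, if_false, add_zero, zero_add, forall_const]
        at hlt a01 a02 a12 <;>
      first | (exfalso; omega) | tauto
  · rintro (((⟨h2, h3⟩ | ⟨h2, h3⟩) | ⟨h2, h3⟩) | ⟨h2, ⟨h3, h4⟩, h5⟩)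
    · refine ⟨{0, 1}, by simp [h3, h3.symm], ?_⟩
      rw [sum_pair (by decide)]
      exact h2
    · refine ⟨{0, 2}, by simp [h3, h3.symm], ?_⟩
      rw [sum_pair (by decide)]
      exact h2
    · refine ⟨{1, 2}, by simp [h3, h3.symm], ?_⟩
      rw [sum_pair (by decide)]
      exact h2
    · refine ⟨{0, 1, 2}, by simp [h3, h3.symm, h4, h4.symm, h5, h5.symm], ?_⟩
      rw [sum_insert (by decide), sum_pair (by decide)]
      omega

open Classical in
theorem bad4 {w : Fin 4 → ℕ} {G : SimpleGraph (Fin 4)} (hw : ∀ v, 1 ≤ w v)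
    (hle : ∀ v, w v ≤ ω) (h0 : ∀ F ∈ 𝓕, ¬ F.2.Colorable ω)
    (h1 : ∃ F ∈ 𝓕, F.2.Colorable (ω + 1)) : Bad (Kt 𝓕 w) G ↔
      bd4 (decide (ω < w 0 + w 1)) (decide (ω < w 0 + w 2)) (decide (ω < w 0 + w 3))
        (decide (ω < w 1 + w 2)) (decide (ω < w 1 + w 3)) (decide (ω < w 2 + w 3))
        (decide (ω < w 0 + w 1 + w 2)) (decide (ω < w 0 + w 1 + w 3))
        (decide (ω < w 0 + w 2 + w 3)) (decide (ω < w 1 + w 2 + w 3))
        (decide (ω < w 0 + w 1 + w 2 + w 3))
        (decide (G.Adj 0 1)) (decide (G.Adj 0 2)) (decide (G.Adj 0 3))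
        (decide (G.Adj 1 2)) (decide (G.Adj 1 3)) (decide (G.Adj 2 3)) = true := by
  rw [bad_iff (by simp) hw h0 h1]
  simp only [bd4, Bool.and_eq_true, Bool.or_eq_true, decide_eq_true_eq]
  constructor
  · rintro ⟨T, hT, hlt⟩
    have hs : ∑ a ∈ T, w a = (if 0 ∈ T then w 0 else 0) + (if 1 ∈ T then w 1 else 0) +
        (if 2 ∈ T then w 2 else 0) + (if 3 ∈ T then w 3 else 0) := by
      rw [← Fin.sum_univ_four (fun i => if i ∈ T then w i else 0), ← sum_filter]
      congr 1
      ext i
      simp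
    rw [hs] at hlt
    have a01 : 0 ∈ T → 1 ∈ T → G.Adj 0 1 := fun h h' => hT 0 h 1 h' (by decide)
    have a02 : 0 ∈ T → 2 ∈ T → G.Adj 0 2 := fun h h' => hT 0 h 2 h' (by decide)
    have a03 : 0 ∈ T → 3 ∈ T → G.Adj 0 3 := fun h h' => hT 0 h 3 h' (by decide)
    have a12 : 1 ∈ T → 2 ∈ T → G.Adj 1 2 := fun h h' => hT 1 h 2 h' (by decide)
    have a13 : 1 ∈ T → 3 ∈ T → G.Adj 1 3 := fun h h' => hT 1 h 3 h' (by decide)
    have a23 : 2 ∈ T → 3 ∈ T → G.Adj 2 3 := fun h h' => hT 2 h 3 h' (by decide)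
    have l0 := hle 0
    have l1 := hle 1
    have l2 := hle 2
    have l3 := hle 3
    clear hT hs hle hw h0 h1
    by_cases t0 : 0 ∈ T <;> by_cases t1 : 1 ∈ T <;> by_cases t2 : 2 ∈ T <;>
      by_cases t3 : 3 ∈ T <;>
      simp only [t0, t1, t2, t3, if_true, if_false, add_zero, zero_add, forall_const]
        at hlt a01 a02 a03 a12 a13 a23 <;>
      first | (exfalso; omega) | simp [*]
  · rintro ((((((((((⟨h2, h3⟩ | ⟨h2, h3⟩) | ⟨h2, h3⟩) | ⟨h2, h3⟩) | ⟨h2, h3⟩) | ⟨h2, h3⟩) |
      ⟨h2, ⟨h3, h4⟩, h5⟩) | ⟨h2, ⟨h3, h4⟩, h5⟩) | ⟨h2, ⟨h3, h4⟩, h5⟩) | ⟨h2, ⟨h3, h4⟩, h5⟩) |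
      ⟨h2, ⟨⟨⟨⟨h3, h4⟩, h5⟩, h6⟩, h7⟩, h8⟩)
    · refine ⟨{0, 1}, by simp [h3, h3.symm], ?_⟩
      rw [sum_pair (by decide)]
      exact h2
    · refine ⟨{0, 2}, by simp [h3, h3.symm], ?_⟩
      rw [sum_pair (by decide)]
      exact h2
    · refine ⟨{0, 3}, by simp [h3, h3.symm], ?_⟩
      rw [sum_pair (by decide)]
      exact h2
    · refine ⟨{1, 2}, by simp [h3, h3.symm], ?_⟩
      rw [sum_pair (by decide)]
      exact h2
    · refine ⟨{1, 3}, by simp [h3, h3.symm], ?_⟩
      rw [sum_pair (by decide)]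
      exact h2
    · refine ⟨{2, 3}, by simp [h3, h3.symm], ?_⟩
      rw [sum_pair (by decide)]
      exact h2
    · refine ⟨{0, 1, 2}, by simp [h3, h3.symm, h4, h4.symm, h5, h5.symm], ?_⟩
      rw [sum_insert (by decide), sum_pair (by decide)]
      omega
    · refine ⟨{0, 1, 3}, by simp [h3, h3.symm, h4, h4.symm, h5, h5.symm], ?_⟩
      rw [sum_insert (by decide), sum_pair (by decide)]
      omega
    · refine ⟨{0, 2, 3}, by simp [h3, h3.symm, h4, h4.symm, h5, h5.symm], ?_⟩
      rw [sum_insert (by decide), sum_pair (by decide)]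
      omega
    · refine ⟨{1, 2, 3}, by simp [h3, h3.symm, h4, h4.symm, h5, h5.symm], ?_⟩
      rw [sum_insert (by decide), sum_pair (by decide)]
      omega
    · refine ⟨{0, 1, 2, 3}, by simp [h3, h3.symm, h4, h4.symm, h5, h5.symm, h6, h6.symm, h7,
        h7.symm, h8, h8.symm], ?_⟩
      rw [sum_insert (by decide), sum_insert (by decide), sum_pair (by decide)]
      omega

end Bad

section Fin

variable {ω : ℕ}

theorem fL_prod {n : ℕ} (w : Fin n → ℕ) : fL 𝓕 (∏ v, Kc 𝓕 (w v)) = NN 2 (Kt 𝓕 w) := by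
  rw [fL_apply, ← Lb_prod]
  rfl

theorem NN_heavy {n : ℕ} {w : Fin n → ℕ} (v : Fin n) (hn : n ≤ 4) (hw : ∀ v, 1 ≤ w v)
    (h0 : ∀ F ∈ 𝓕, ¬ F.2.Colorable ω) (h1 : ∃ F ∈ 𝓕, F.2.Colorable (ω + 1))
    (hv : ω < w v) : NN 2 (Kt 𝓕 w) = 0 := by
  refine NN_all _ fun S => ?_
  rw [bad_iff (by rwa [Fintype.card_fin]) hw h0 h1]
  refine ⟨{v}, fun a ha b hb hab => ?_, by rwa [sum_singleton]⟩
  rw [mem_singleton] at ha hb
  exact absurd (ha.trans hb.symm) hab

theorem v1 (h0 : ∀ F ∈ 𝓕, ¬ F.2.Colorable ω) (h1 : ∃ F ∈ 𝓕, F.2.Colorable (ω + 1))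
    (a : ℕ) (ha : 1 ≤ a) : fL 𝓕 (Kc 𝓕 a) = if a ≤ ω then 1 else 0 := by
  have e : fL 𝓕 (Kc 𝓕 a) = NN 2 (Kt 𝓕 (fun _ : Fin 1 => a)) := by
    rw [← fL_prod]
    simp
  rw [e]
  by_cases h : a ≤ ω
  · rw [if_pos h]
    have hE : IsEmpty (EV (Fin 1)) := by
      rw [← Fintype.card_eq_zero_iff, card_EV]
      rfl
    unfold NN
    rw [Fintype.sum_subsingleton _ ∅]
    unfold ind
    rw [if_neg, card_empty, pow_zero, mul_one]
    rw [bad_iff (by simp) (fun _ => ha) h0 h1]
    rintro ⟨T, -, hT⟩
    rw [sum_const, smul_eq_mul] at hT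
    have h3 : T.card ≤ 1 := by
      have := card_le_univ T
      simpa using this
    have h4 : T.card * a ≤ 1 * a := Nat.mul_le_mul_right a h3
    omega
  · rw [if_neg h]
    exact NN_heavy (ω := ω) 0 (by norm_num) (fun _ => ha) h0 h1 (by omega)

theorem v2 (h0 : ∀ F ∈ 𝓕, ¬ F.2.Colorable ω) (h1 : ∃ F ∈ 𝓕, F.2.Colorable (ω + 1))
    (a b : ℕ) (hb : 1 ≤ b) (hba : b ≤ a) : fL 𝓕 (Kc 𝓕 a * Kc 𝓕 b) =
      if a ≤ ω ∧ ω < a + b then 1 else 0 := by
  have e : fL 𝓕 (Kc 𝓕 a * Kc 𝓕 b) = NN 2 (Kt 𝓕 ![a, b]) := by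
    rw [← fL_prod, Fin.prod_univ_two]
    rfl
  have hw : ∀ v, 1 ≤ (![a, b] : Fin 2 → ℕ) v := by
    intro v
    fin_cases v
    · exact hb.trans hba
    · exact hb
  rw [e]
  by_cases h : a ≤ ω
  · have hle : ∀ v, (![a, b] : Fin 2 → ℕ) v ≤ ω := by
      intro v
      fin_cases v
      · exact h
      · exact hba.trans h
    rw [NN_eq (Kt 𝓕 ![a, b]) ps2_bij (fun x => bd2 (decide (ω < a + b)) x)
      (fun S => bad2 hw hle h0 h1), sum_X2]
    by_cases h2 : ω < a + b
    · rw [if_pos (show a ≤ ω ∧ ω < a + b from ⟨h, h2⟩)]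
      simp [X2, bd2, h2]
    · rw [if_neg (show ¬ (a ≤ ω ∧ ω < a + b) from fun h3 => h2 h3.2)]
      simp [X2, bd2, h2]
  · rw [if_neg (fun h3 => h h3.1)]
    exact NN_heavy (ω := ω) 0 (by norm_num) hw h0 h1 (by change ω < a; omega)

theorem v3 (h0 : ∀ F ∈ 𝓕, ¬ F.2.Colorable ω) (h1 : ∃ F ∈ 𝓕, F.2.Colorable (ω + 1))
    (a b c : ℕ) (hc : 1 ≤ c) (hcb : c ≤ b) (hba : b ≤ a) :
    fL 𝓕 (Kc 𝓕 a * Kc 𝓕 b * Kc 𝓕 c) =
      if a ≤ ω ∧ ((a + b ≤ ω ∧ ω < a + b + c) ∨ ω < b + c) then 1 else 0 := by
  have e : fL 𝓕 (Kc 𝓕 a * Kc 𝓕 b * Kc 𝓕 c) = NN 2 (Kt 𝓕 ![a, b, c]) := by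
    rw [← fL_prod, Fin.prod_univ_three]
    rfl
  have hw : ∀ v, 1 ≤ (![a, b, c] : Fin 3 → ℕ) v := by
    intro v
    fin_cases v
    · exact hc.trans (hcb.trans hba)
    · exact hc.trans hcb
    · exact hc
  rw [e]
  by_cases h : a ≤ ω
  · have hle : ∀ v, (![a, b, c] : Fin 3 → ℕ) v ≤ ω := by
      intro v
      fin_cases v
      · exact h
      · exact hba.trans h
      · exact hcb.trans (hba.trans h)
    have hcnt := cnt3_eq (decide (ω < a + b)) (decide (ω < a + c)) (decide (ω < b + c))
      (decide (ω < a + b + c)) (by rw [decide_eq_true_eq, decide_eq_true_eq]; omega)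
      (by rw [decide_eq_true_eq, decide_eq_true_eq]; omega)
      (by rw [decide_eq_true_eq, decide_eq_true_eq]; omega)
    rw [NN_eq (Kt 𝓕 ![a, b, c]) ps3_bij (fun x => bd3 (decide (ω < a + b)) (decide (ω < a + c))
      (decide (ω < b + c)) (decide (ω < a + b + c)) x.1 x.2.1 x.2.2)
      (fun S => bad3 hw hle h0 h1)]
    simp only [Fintype.sum_prod_type, sum_X2]
    change (if cnt3 (decide (ω < a + b)) (decide (ω < a + c)) (decide (ω < b + c))
      (decide (ω < a + b + c)) = true then (1 : ZMod 2) else 0) = _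
    rw [hcnt]
    refine if_congr ?_ rfl rfl
    simp only [Bool.or_eq_true, Bool.and_eq_true, Bool.not_eq_true', decide_eq_true_eq,
      decide_eq_false_iff_not]
    omega
  · rw [if_neg (fun h3 => h h3.1)]
    exact NN_heavy (ω := ω) 0 (by norm_num) hw h0 h1 (by change ω < a; omega)

theorem v4 (h0 : ∀ F ∈ 𝓕, ¬ F.2.Colorable ω) (h1 : ∃ F ∈ 𝓕, F.2.Colorable (ω + 1))
    (a b c d : ℕ) (hd : 1 ≤ d) (hdc : d ≤ c) (hcb : c ≤ b) (hba : b ≤ a) :
    fL 𝓕 (Kc 𝓕 a * Kc 𝓕 b * Kc 𝓕 c * Kc 𝓕 d) =
    if a ≤ ω ∧ (ω < c + d ∨ (ω < a + d ∧ b + c ≤ ω ∧ ω < b + c + d) ∨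
      (ω < a + b ∧ a + c ≤ ω ∧ ω < b + c + d) ∨
      (a + b ≤ ω ∧ ((a + b + c ≤ ω ∧ ω < a + b + c + d) ∨ ω < a + c + d))) then 1 else 0 := by
  have e : fL 𝓕 (Kc 𝓕 a * Kc 𝓕 b * Kc 𝓕 c * Kc 𝓕 d) = NN 2 (Kt 𝓕 ![a, b, c, d]) := by
    rw [← fL_prod, Fin.prod_univ_four]
    rfl
  have hw : ∀ v, 1 ≤ (![a, b, c, d] : Fin 4 → ℕ) v := by
    intro v
    fin_cases v
    · exact hd.trans (hdc.trans (hcb.trans hba))
    · exact hd.trans (hdc.trans hcb)
    · exact hd.trans hdc
    · exact hd
  rw [e]
  by_cases h : a ≤ ω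
  · have hle : ∀ v, (![a, b, c, d] : Fin 4 → ℕ) v ≤ ω := by
      intro v
      fin_cases v
      · exact h
      · exact hba.trans h
      · exact hcb.trans (hba.trans h)
      · exact hdc.trans (hcb.trans (hba.trans h))
    have hcnt := cnt4_eq (decide (ω < a + b)) (decide (ω < a + c)) (decide (ω < a + d))
      (decide (ω < b + c)) (decide (ω < b + d)) (decide (ω < c + d))
      (decide (ω < a + b + c)) (decide (ω < a + b + d)) (decide (ω < a + c + d))
      (decide (ω < b + c + d)) (decide (ω < a + b + c + d)) (by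
        simp only [ok4, Bool.or_eq_true, Bool.and_eq_true, Bool.not_eq_true', decide_eq_true_eq,
          decide_eq_false_iff_not]
        refine ⟨⟨⟨⟨⟨⟨⟨⟨⟨⟨⟨⟨?_, ?_⟩, ?_⟩, ?_⟩, ?_⟩, ?_⟩, ?_⟩, ?_⟩, ?_⟩, ?_⟩, ?_⟩, ?_⟩, ?_⟩ <;>
          omega)
    rw [NN_eq (Kt 𝓕 ![a, b, c, d]) ps4_bij (fun x => bd4 (decide (ω < a + b))
      (decide (ω < a + c)) (decide (ω < a + d))
      (decide (ω < b + c)) (decide (ω < b + d)) (decide (ω < c + d))
      (decide (ω < a + b + c)) (decide (ω < a + b + d)) (decide (ω < a + c + d))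
      (decide (ω < b + c + d)) (decide (ω < a + b + c + d))
      x.1 x.2.1 x.2.2.1 x.2.2.2.1 x.2.2.2.2.1 x.2.2.2.2.2)
      (fun S => bad4 hw hle h0 h1)]
    simp only [Fintype.sum_prod_type, sum_X2]
    change (if cnt4 (decide (ω < a + b)) (decide (ω < a + c)) (decide (ω < a + d))
      (decide (ω < b + c)) (decide (ω < b + d)) (decide (ω < c + d))
      (decide (ω < a + b + c)) (decide (ω < a + b + d)) (decide (ω < a + c + d))
      (decide (ω < b + c + d)) (decide (ω < a + b + c + d)) = true then (1 : ZMod 2) else 0) = _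
    rw [hcnt]
    refine if_congr ?_ rfl rfl
    simp only [Bool.or_eq_true, Bool.and_eq_true, Bool.not_eq_true', decide_eq_true_eq,
      decide_eq_false_iff_not]
    omega
  · rw [if_neg (fun h3 => h h3.1)]
    exact NN_heavy (ω := ω) 0 (by norm_num) hw h0 h1 (by change ω < a; omega)

end Fin

theorem t : S_val := by
  intro 𝓕 ω h0 h1
  exact ⟨fun a ha => v1 h0 h1 a ha, fun a b hb hba => v2 h0 h1 a b hb hba,
    fun a b c hc hcb hba => v3 h0 h1 a b c hc hcb hba,
    fun a b c d hd hdc hcb hba => v4 h0 h1 a b c d hd hdc hcb hba⟩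

end Pool.Agent.H636.HD.Val
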