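import Pool.Agent.H636.HD.Sd
import Pool.Agent.H636.HD.D.C0
import Pool.Agent.H636.HD.D.C1
import Pool.Agent.H636.HD.D.C2
import Pool.Agent.H636.HD.D.C3
import Pool.Agent.H636.HD.D.C4
import Pool.Agent.H636.HD.D.C5
import Pool.Agent.H636.HD.D.C6
import Pool.Agent.H636.HD.D.C7
import Pool.Agent.H636.HD.D.C8
import Pool.Agent.H636.HD.D.C9
import Pool.Agent.H636.HD.D.C10
import Pool.Agent.H636.HD.D.C11
import Pool.Agent.H636.HD.D.DE
import Pool.Agent.H636.HD.RelE
import Pool.Agent.H636.HD.RelP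
import Pool.Agent.H636.HD.Val
import Pool.Agent.H636.HD.Mono
import Pool.Agent.H636.HD.Kz
import Pool.Agent.H636.HD.Pp

set_option autoImplicit false

/-! MP_257582_lc: the theorem for all numbers of vertices. -/

namespace Pool.Agent.H636.HD

open Finset Pool.Agent.H98R2.Ev Pool.Agent.TH410.KV Pool.Agent.Y577.EV Pool.Agent.H636.HC

theorem cov_all {δ : ℕ} (h1 : 1 ≤ δ) (h2 : δ < 368) : ∃ l, cov δ l = true := by
  have l0 : D0.cs.length = 53 := rfl
  have l1 : D1.cs.length = 18 := rfl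
  have l2 : D2.cs.length = 13 := rfl
  have l3 : D3.cs.length = 13 := rfl
  have l4 : D4.cs.length = 11 := rfl
  have l5 : D5.cs.length = 18 := rfl
  have l6 : D6.cs.length = 14 := rfl
  have l7 : D7.cs.length = 18 := rfl
  have l8 : D8.cs.length = 17 := rfl
  have l9 : D9.cs.length = 25 := rfl
  have l10 : D10.cs.length = 45 := rfl
  have l11 : D11.cs.length = 122 := rfl
  rcases Nat.lt_or_ge δ 54 with h | h0
  · exact goD_get D0.cs 1 δ D0.ok (by omega) (by rw [l0]; omega)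
  rcases Nat.lt_or_ge δ 72 with h | h1
  · exact goD_get D1.cs 54 δ D1.ok (by omega) (by rw [l1]; omega)
  rcases Nat.lt_or_ge δ 85 with h | h2
  · exact goD_get D2.cs 72 δ D2.ok (by omega) (by rw [l2]; omega)
  rcases Nat.lt_or_ge δ 98 with h | h3
  · exact goD_get D3.cs 85 δ D3.ok (by omega) (by rw [l3]; omega)
  rcases Nat.lt_or_ge δ 109 with h | h4
  · exact goD_get D4.cs 98 δ D4.ok (by omega) (by rw [l4]; omega)
  rcases Nat.lt_or_ge δ 127 with h | h5
  · exact goD_get D5.cs 109 δ D5.ok (by omega) (by rw [l5]; omega)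
  rcases Nat.lt_or_ge δ 141 with h | h6
  · exact goD_get D6.cs 127 δ D6.ok (by omega) (by rw [l6]; omega)
  rcases Nat.lt_or_ge δ 159 with h | h7
  · exact goD_get D7.cs 141 δ D7.ok (by omega) (by rw [l7]; omega)
  rcases Nat.lt_or_ge δ 176 with h | h8
  · exact goD_get D8.cs 159 δ D8.ok (by omega) (by rw [l8]; omega)
  rcases Nat.lt_or_ge δ 201 with h | h9
  · exact goD_get D9.cs 176 δ D9.ok (by omega) (by rw [l9]; omega)
  rcases Nat.lt_or_ge δ 246 with h | h10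
  · exact goD_get D10.cs 201 δ D10.ok (by omega) (by rw [l10]; omega)
  rcases Nat.lt_or_ge δ 368 with h | h11
  · exact goD_get D11.cs 246 δ D11.ok (by omega) (by rw [l11]; omega)
  omega

theorem ex_all : exL.all (fun p => DE.es.any (fun e => Nat.beq e.n p.1 && Nat.beq e.ω p.2) ||
    (Nat.beq p.1 12 && Nat.beq p.2 5) || (Nat.beq p.1 24 && Nat.beq p.2 9) ||
    (Nat.beq p.1 75 && (Nat.beq p.2 47 || Nat.beq p.2 48))) = true := by decide +kernel

variable {𝓕 : Fam}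

theorem main_lt {n ω : ℕ} (hn : n < 368) (hω1 : 1 ≤ ω) (hωn : ω + 1 ≤ n)
    (h0 : ∀ F ∈ 𝓕, ¬ F.2.Colorable ω) (h1 : ∃ F ∈ 𝓕, F.2.Colorable (ω + 1))
    (hNE : NE (univ : Finset (EV (Fin n))) (fun S => ¬ HH 𝓕 (toG S))) : False := by
  classical
  have hcol : ∀ F ∈ 𝓕, ¬ F.2.Colorable 1 := fun F hF hc => h0 F hF (hc.mono hω1)
  have htop : HH 𝓕 (⊤ : SimpleGraph (Fin n)) := by
    obtain ⟨F, hF, hc⟩ := h1
    exact ⟨F, hF, hc.mono hωn⟩
  by_cases ha : n % 2 = 0 ∧ n ≤ 2 * ω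
  · exact Pool.Agent.Y454.EW.Even.t n 𝓕 (by omega) (Nat.even_iff.2 ha.1)
      (fun F hF hc => h0 F hF (hc.mono (by omega))) htop hNE
  by_cases hb : n % 2 = 1 ∧ 2 * n ≤ 3 * ω
  · exact Pool.Agent.Y454.EW.Odd.t n ω 𝓕 (by omega) (Nat.odd_iff.2 hb.1) hb.2 h0 htop hNE
  obtain ⟨δ, hδ⟩ : ∃ δ, n = ω + δ := ⟨n - ω, by omega⟩
  obtain ⟨l, hl⟩ := cov_all (δ := δ) (by omega) (by omega)
  unfold cov at hl
  rw [Bool.and_eq_true, List.all_eq_true, List.all_eq_true] at hl
  obtain ⟨hl1, hl2⟩ := hl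
  have h := hl2 ω (List.mem_range.2 (by omega))
  rw [Bool.or_eq_true] at h
  rcases h with h | h
  · have := Nat.eq_of_beq_eq_true h
    omega
  unfold chk at h
  rw [← hδ] at h
  simp only [Bool.or_eq_true] at h
  rcases h with h | h | h | h | h
  · have h2 : mid δ ω = true := by
      unfold mid
      rw [← hδ]
      rcases Nat.mod_two_eq_zero_or_one n with h3 | h3
      · have h4 : Nat.beq (n % 2) 0 = true := by rw [h3]; rfl
        rw [h4, cond_true]
        exact Nat.ble_eq_true_of_le (by omega)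
      · have h4 : Nat.beq (n % 2) 0 = false := by rw [h3]; rfl
        rw [h4, cond_false]
        exact Nat.ble_eq_true_of_le (by omega)
    rw [h2] at h
    exact absurd h (by decide)
  · obtain ⟨p, k, hp, hk, rfl⟩ := pp_wit hn h
    exact Pp.t p k 𝓕 hp hk hcol htop hNE
  · exact win_sound hω1 h0 h1 hNE h
  · obtain ⟨c, hc, hm⟩ := List.any_eq_true.1 h
    exact cls_sound hω1 h0 h1 hNE Mono.t Val.t Kz.t RelE.t c (hl1 c hc) hm
  · unfold exm at h
    obtain ⟨p, hp, hpn⟩ := List.any_eq_true.1 h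
    rw [Bool.and_eq_true] at hpn
    have p1 : p.1 = n := Nat.eq_of_beq_eq_true hpn.1
    have p2 : p.2 = ω := Nat.eq_of_beq_eq_true hpn.2
    have h2 := List.all_eq_true.1 ex_all p hp
    rw [p1, p2] at h2
    simp only [Bool.or_eq_true, Bool.and_eq_true] at h2
    rcases h2 with ((h2 | h2) | h2) | h2
    · obtain ⟨e, he, he2⟩ := List.any_eq_true.1 h2
      rw [Bool.and_eq_true] at he2
      exact ex_sound hω1 h0 h1 hNE Mono.t Val.t Kz.t RelE.t 0 (by rw [ev_zero, map_zero]) e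
        (List.all_eq_true.1 DE.ok e he) (Nat.eq_of_beq_eq_true he2.1)
        (Nat.eq_of_beq_eq_true he2.2)
    · have q1 : n = 12 := Nat.eq_of_beq_eq_true h2.1
      have q2 : ω = 5 := Nat.eq_of_beq_eq_true h2.2
      subst q1 q2
      exact sp12 h0 h1 hNE Val.t Kz.t RelP.t
    · have q1 : n = 24 := Nat.eq_of_beq_eq_true h2.1
      have q2 : ω = 9 := Nat.eq_of_beq_eq_true h2.2
      subst q1 q2
      exact sp24 h0 h1 hNE Mono.t Val.t Kz.t RelE.t RelP.t
    · have q1 : n = 75 := Nat.eq_of_beq_eq_true h2.1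
      subst q1
      refine sp75 ?_ h0 h1 hNE Mono.t Val.t Kz.t RelP.t
      rcases h2.2 with h3 | h3
      · exact Or.inl (Nat.eq_of_beq_eq_true h3)
      · exact Or.inr (Nat.eq_of_beq_eq_true h3)

/-- the theorem for all numbers of vertices -/
theorem main_all {n ω : ℕ} (hω1 : 1 ≤ ω) (hωn : ω + 1 ≤ n)
    (h0 : ∀ F ∈ 𝓕, ¬ F.2.Colorable ω) (h1 : ∃ F ∈ 𝓕, F.2.Colorable (ω + 1))
    (hNE : NE (univ : Finset (EV (Fin n))) (fun S => ¬ HH 𝓕 (toG S))) : False := by
  rcases Nat.lt_or_ge n 368 with hn | hn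
  · exact main_lt hn hω1 hωn h0 h1 hNE
  · exact Pool.Agent.H636.HC.main hn hω1 hωn h0 h1 hNE

end Pool.Agent.H636.HD
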