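import Pool.Agent.H636.HD.Crt

set_option autoImplicit false

/-! MP_257582_lc: the checks for the certificates. -/

namespace Pool.Agent.H636.HD

open Finset Pool.Agent.H98R2.Ev Pool.Agent.TH410.KV Pool.Agent.Y577.EV Pool.Agent.H636.HC

/-- a class of certificates: the same one is used for `n0 + k` vertices and all `k` -/
structure Cls where
  n0 : ℕ
  N : ℕ
  rels : List (ℕ × ℕ × ℕ × ℕ × ℕ × ℕ)
  ids : List (ℕ × ℕ)
  y0 : ℕ
  y1 : ℕ
  y2 : ℕ

/-- the polynomials that remain -/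
def Cls.y (c : Cls) : ℕ → ℕ
  | 0 => c.y0
  | 1 => c.y1
  | 2 => c.y2
  | _ => 0

/-- the class is correct -/
def clsOk (c : Cls) : Bool :=
  c.rels.all (fun r => Nat.beq (relN r) c.n0 && Nat.blt r.1 8) &&
  c.ids.all (fun p => Nat.blt p.1 8) &&
  Nat.beq (comb (resid c.N c.rels c.ids []) 0) c.y0 &&
  Nat.beq (comb (resid c.N c.rels c.ids []) 1) c.y1 &&
  Nat.beq (comb (resid c.N c.rels c.ids []) 2) c.y2 &&
  Nat.beq (comb (resid c.N c.rels c.ids []) 3) 0 &&
  Nat.beq (comb (resid c.N c.rels c.ids []) 4) 0 &&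
  Nat.beq (comb (resid c.N c.rels c.ids []) 5) 0 &&
  Nat.beq (comb (resid c.N c.rels c.ids []) 6) 0 &&
  Nat.beq (comb (resid c.N c.rels c.ids []) 7) 0

/-- the class gives a contradiction for `n` vertices and the threshold `ω` -/
def mtc (n ω : ℕ) (c : Cls) : Bool :=
  Nat.ble c.n0 n && Nat.blt ω (2 ^ c.N) && oks ω (n - c.n0) c.y && tot ω (n - c.n0) c.y

/-- the prime powers below 368 -/
def PP : ℕ := 306504606679848970368975517253224521361454378159358948729904574557037169156084220991320861211433044761733966780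

/-- covered by the theorems for long intervals -/
def win (n ω : ℕ) : Bool :=
  Nat.ble 112 n &&
  ((Nat.blt ω 2 || (Nat.blt ω 4 || (Nat.blt ω 8 || (Nat.blt ω 16 ||
      (Nat.blt ω 32 && Nat.ble 32 (16 + 15 * ((n - 112) / 32))) ||
      (Nat.blt ω 64 && Nat.ble 64 (16 + 15 * ((n - 112) / 32))) ||
      (Nat.blt ω 128 && Nat.ble 128 (16 + 15 * ((n - 112) / 32))))))) ||
   (Nat.beq ((ω + 1) % 2) (n % 2) && Nat.ble ((n - 112) % 32 + 47 + 2 * ((n - 112) / 32)) ω &&
      Nat.ble ω ((n - 112) % 32 + 75 + 32 * ((n - 112) / 32))) ||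
   (Nat.beq (ω % 2) (n % 2) &&
    ((Nat.ble 115 n && Nat.ble ((n - 115) % 32 + 49 + 2 * ((n - 115) / 32)) ω &&
      Nat.ble ω ((n - 115) % 32 + 77 + 32 * ((n - 115) / 32)) &&
      (Nat.beq ((ω + 2 - 3) % 4) 0 || Nat.beq ((ω + 2 - 3) % 4) 3)) ||
     (Nat.ble 117 n && Nat.ble ((n - 117) % 32 + 51 + 2 * ((n - 117) / 32)) ω &&
      Nat.ble ω ((n - 117) % 32 + 79 + 32 * ((n - 117) / 32)) &&
      (Nat.beq ((ω + 2 - 5) % 4) 0 || Nat.beq ((ω + 2 - 5) % 4) 3)))))

/-- a threshold that is not covered by the theorems for large thresholds (`n = ω + δ`) -/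
def mid (δ ω : ℕ) : Bool := bif Nat.beq ((ω + δ) % 2) 0 then Nat.blt ω δ else Nat.blt ω (2 * δ)

/-- the exceptional pairs -/
def exL : List (ℕ × ℕ) := [
  (10, 4), (12, 3), (12, 5), (15, 3), (15, 8), (18, 4), (18, 7), (18, 8), (20, 8), (20, 9), (21,
  8), (21, 9), (21, 10), (24, 6), (24, 9), (26, 8), (26, 12), (30, 8), (30, 11), (33, 10), (33,
  11), (33, 15), (33, 17), (33, 18), (33, 21), (34, 16), (35, 8), (35, 13), (35, 16), (35, 19),
  (35, 20), (35, 23), (36, 9), (36, 16), (36, 17), (38, 8), (38, 11), (38, 15), (38, 17), (39, 9),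
  (39, 16), (39, 19), (39, 20), (39, 23), (39, 24), (40, 16), (40, 17), (42, 8), (42, 15), (42,
  18), (42, 19), (45, 11), (45, 17), (45, 18), (45, 21), (45, 22), (45, 25), (45, 26), (46, 18),
  (46, 19), (46, 22), (48, 10), (48, 17), (51, 9), (51, 23), (51, 24), (51, 27), (51, 28), (51,
  32), (52, 24), (52, 25), (55, 27), (55, 28), (55, 31), (55, 32), (55, 35), (55, 36), (57, 15),
  (57, 19), (57, 29), (57, 30), (57, 33), (57, 34), (57, 37), (58, 16), (63, 32), (63, 35), (63,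
  36), (63, 39), (63, 40), (65, 19), (65, 33), (65, 34), (65, 37), (65, 38), (65, 41), (65, 42),
  (68, 16), (69, 37), (69, 38), (69, 41), (69, 42), (69, 45), (72, 17), (75, 43), (75, 44), (75,
  47), (75, 48), (76, 18), (77, 19), (77, 45), (77, 46), (77, 49), (77, 50)]

def exm (n ω : ℕ) : Bool := exL.any (fun p => Nat.beq p.1 n && Nat.beq p.2 ω)

/-- one pair -/
def chk (δ ω : ℕ) (l : List Cls) : Bool :=
  !mid δ ω || (PP.testBit (ω + δ) || (win (ω + δ) ω || (l.any (mtc (ω + δ) ω) ||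
    exm (ω + δ) ω)))

/-- one value of `n - ω` -/
def cov (δ : ℕ) (l : List Cls) : Bool :=
  l.all clsOk && (List.range (min (2 * δ) (368 - δ))).all (fun ω => Nat.beq ω 0 || chk δ ω l)

/-- consecutive values of `n - ω` -/
def goD : ℕ → List (List Cls) → Bool
  | _, [] => true
  | δ, l :: ls => cov δ l && goD (δ + 1) ls

theorem goD_nil (δ : ℕ) : goD δ [] = true := rfl

theorem goD_cons {δ δ' : ℕ} {l : List Cls} {ls : List (List Cls)} (h : cov δ l = true)
    (h' : goD δ' ls = true) (e : δ + 1 = δ') : goD δ (l :: ls) = true := by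
  subst e
  change (cov δ l && goD (δ + 1) ls) = true
  rw [h, h']
  rfl

end Pool.Agent.H636.HD
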