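import Pool.Agent.H636.HD.Snd

set_option autoImplicit false

/-! MP_257582_lc: soundness of the certificates. -/

namespace Pool.Agent.H636.HD

open Finset Pool.Agent.H98R2.Ev Pool.Agent.TH410.KV Pool.Agent.Y577.EV Pool.Agent.H636.HC

/-- a Boolean as an element of `ZMod 2` -/
def bz (b : Bool) : ZMod 2 := if b then 1 else 0

theorem bz_xor (a b : Bool) : bz (xor a b) = bz a + bz b := by
  cases a <;> cases b <;> decide

/-- the sum of the values -/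
def tot (ω k : ℕ) (y : ℕ → ℕ) : Bool :=
  xor (xor (xor (xor (xor (xor (xor (vv ω 0 (y 0 <<< k)) (vv ω 1 (y 1 <<< k)))
    (vv ω 2 (y 2 <<< k))) (vv ω 3 (y 3 <<< k))) (vv ω 4 (y 4 <<< k))) (vv ω 5 (y 5 <<< k)))
    (vv ω 6 (y 6 <<< k))) (vv ω 7 (y 7 <<< k))

/-- all values are known -/
def oks (ω k : ℕ) (y : ℕ → ℕ) : Bool :=
  okv ω 0 (y 0 <<< k) && okv ω 1 (y 1 <<< k) && okv ω 2 (y 2 <<< k) && okv ω 3 (y 3 <<< k) &&
    okv ω 4 (y 4 <<< k) && okv ω 5 (y 5 <<< k) && okv ω 6 (y 6 <<< k) && okv ω 7 (y 7 <<< k)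

/-- product of complete blocks -/
def prodX (js : List ℕ) : ℕ := js.foldr (fun j acc => mulL (xl j) acc) 1

/-- the contributions of a relation -/
def relL (r : ℕ × ℕ × ℕ × ℕ × ℕ × ℕ) : List (ℕ × ℕ) :=
  (expE r.1).map (fun p => (p.1, tupM r.2.1 r.2.2.1 r.2.2.2.1 r.2.2.2.2.1 r.2.2.2.2.2 <<< p.2))

/-- the size of a relation -/
def relN (r : ℕ × ℕ × ℕ × ℕ × ℕ × ℕ) : ℕ :=
  r.2.1 + 8 * r.2.2.1 + 32 * r.2.2.2.1 + 64 * r.2.2.2.2.1 + 128 * r.2.2.2.2.2 + (el r.1).sum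

/-- the value at a product of at most four complete blocks, weights sorted -/
def thrV (ω : ℕ) : List ℕ → Bool
  | [a] => decide (a ≤ ω)
  | [a, b] => decide (a ≤ ω ∧ ω < a + b)
  | [a, b, c] => decide (a ≤ ω ∧ ((a + b ≤ ω ∧ ω < a + b + c) ∨ ω < b + c))
  | [a, b, c, d] => decide (a ≤ ω ∧ (ω < c + d ∨ (ω < a + d ∧ b + c ≤ ω ∧ ω < b + c + d) ∨
      (ω < a + b ∧ a + c ≤ ω ∧ ω < b + c + d) ∨
      (a + b ≤ ω ∧ ((a + b + c ≤ ω ∧ ω < a + b + c + d) ∨ ω < a + c + d))))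
  | _ => false

/-- sorted lists with at most four elements -/
def srt : List ℕ → Bool
  | [a] => decide (1 ≤ a)
  | [a, b] => decide (1 ≤ b ∧ b ≤ a)
  | [a, b, c] => decide (1 ≤ c ∧ c ≤ b ∧ b ≤ a)
  | [a, b, c, d] => decide (1 ≤ d ∧ d ≤ c ∧ c ≤ b ∧ b ≤ a)
  | _ => false

/-- a product of complete blocks: extra blocks, powers of two, all weights sorted -/
def thrOk (p : ℕ × List ℕ × List ℕ) : Bool :=
  decide (p.1 < 8) && srt p.2.2 && p.2.2.isPerm (el p.1 ++ p.2.1.map (2 ^ ·))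

/-- the contributions of a certificate -/
def resid (N : ℕ) (rels : List (ℕ × ℕ × ℕ × ℕ × ℕ × ℕ)) (ids : List (ℕ × ℕ))
    (thrs : List (ℕ × List ℕ × List ℕ)) : List (ℕ × ℕ) :=
  rels.flatMap relL ++ (ids.map (fun p => (p.1, mulL (xl N) p.2)) ++
    thrs.map (fun p => (p.1, prodX p.2.1)))

/-- the sum of the known values of the products -/
def thrS (ω : ℕ) (thrs : List (ℕ × List ℕ × List ℕ)) : Bool :=
  thrs.foldr (fun p acc => xor (thrV ω p.2.2) acc) false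

theorem expE_lt (E : ℕ) : ∀ p ∈ expE E, p.1 < 8 := by
  unfold expE
  split <;> decide

theorem el_sublist (E : ℕ) : (el E).Sublist [3, 5, 17] := by
  unfold el
  split <;> decide

section

variable {𝓕 : Fam}

section ring

variable [CharP (AA 𝓕 2) 2]

theorem Xc_xl (N : ℕ) : ((xl N).map (Xc 𝓕 0 ^ ·)).sum = Xc 𝓕 N := by
  rw [X_binom (Xc_sq (𝓕 := 𝓕)) N]
  unfold xl
  rw [List.map_map]
  have h : ∀ M : ℕ, ((((List.range M).filter (fun i => N.choose i % 2 = 1))).map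
      ((Xc 𝓕 0 ^ ·) ∘ (2 ^ ·))).sum = ∑ k ∈ range M, (N.choose k : AA 𝓕 2) * Xc 𝓕 0 ^ (2 ^ k) := by
    intro M
    induction M with
    | zero => simp
    | succ M ih =>
      rw [List.range_succ, List.filter_append, List.map_append, List.sum_append, ih,
        Finset.sum_range_succ]
      congr 1
      rcases Nat.mod_two_eq_zero_or_one (N.choose M) with h2 | h2
      · have h3 : (N.choose M : AA 𝓕 2) = 0 := by
          rw [CharP.cast_eq_zero_iff (AA 𝓕 2) 2]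
          exact Nat.dvd_of_mod_eq_zero h2
        rw [h3, zero_mul]
        simp [h2]
      · have h3 : (N.choose M : AA 𝓕 2) = 1 := by
          have h4 : N.choose M = 2 * (N.choose M / 2) + 1 := by omega
          have h5 : (2 : AA 𝓕 2) = 0 := CharTwo.two_eq_zero
          rw [h4]
          push_cast
          linear_combination ((N.choose M / 2 : ℕ) : AA 𝓕 2) * h5
        rw [h3, one_mul]
        simp [h2]
  exact h (N + 1)

theorem ev_prodX (js : List ℕ) : ev (Xc 𝓕 0) (prodX js) = (js.map (Xc 𝓕)).prod := by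
  induction js with
  | nil => simp [prodX]
  | cons j js ih =>
    have : prodX (j :: js) = mulL (xl j) (prodX js) := rfl
    rw [this, ev_mulL, Xc_xl, ih, List.map_cons, List.prod_cons]

theorem X67 : Xc 𝓕 0 - Xc 𝓕 6 = Xc 𝓕 0 ^ 4 + Xc 𝓕 0 ^ 16 + Xc 𝓕 0 ^ 64 ∧
    Xc 𝓕 0 - Xc 𝓕 7 = Xc 𝓕 0 ^ 2 + Xc 𝓕 0 ^ 4 + Xc 𝓕 0 ^ 8 + Xc 𝓕 0 ^ 16 + Xc 𝓕 0 ^ 32 +
      Xc 𝓕 0 ^ 64 + Xc 𝓕 0 ^ 128 := by
  have h2 : (2 : AA 𝓕 2) = 0 := CharTwo.two_eq_zero
  have e6 := Xc_xl (𝓕 := 𝓕) 6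
  have e7 := Xc_xl (𝓕 := 𝓕) 7
  have l6 : xl 6 = [1, 4, 16, 64] := by decide
  have l7 : xl 7 = [1, 2, 4, 8, 16, 32, 64, 128] := by decide
  rw [l6] at e6
  rw [l7] at e7
  simp only [List.map_cons, List.map_nil, List.sum_cons, List.sum_nil] at e6 e7
  rw [← e6, ← e7]
  constructor
  · linear_combination (-(Xc 𝓕 0 ^ 4 + Xc 𝓕 0 ^ 16 + Xc 𝓕 0 ^ 64)) * h2
  · linear_combination (-(Xc 𝓕 0 ^ 2 + Xc 𝓕 0 ^ 4 + Xc 𝓕 0 ^ 8 + Xc 𝓕 0 ^ 16 + Xc 𝓕 0 ^ 32 +
      Xc 𝓕 0 ^ 64 + Xc 𝓕 0 ^ 128)) * h2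

/-- a relation of the list -/
theorem rel_one {n k : ℕ} (hrel : ∀ (L E : List ℕ), E.Sublist [3, 5, 17] →
      (L.map (2 ^ ·)).sum + E.sum = n →
      fL 𝓕 ((L.map (zz 𝓕)).prod * (E.map (fun q => Xc 𝓕 0 - Kc 𝓕 q)).prod) = 0)
    (r : ℕ × ℕ × ℕ × ℕ × ℕ × ℕ) (hr : relN r + k = n) (hE : r.1 < 8) :
    fL 𝓕 (Xc 𝓕 0 ^ k * evS 𝓕 (relL r)) = 0 := by
  obtain ⟨E, s, a, b, c, d⟩ := r
  simp only [relN] at hr
  have h := hrel (List.replicate (s + k) 0 ++ (List.replicate a 3 ++ (List.replicate b 5 ++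
    (List.replicate c 6 ++ List.replicate d 7)))) (el E) (el_sublist E) (by
      simp only [List.map_append, List.map_replicate, List.sum_append, List.sum_replicate,
        smul_eq_mul]
      omega)
  have e : Xc 𝓕 0 ^ k * evS 𝓕 (relL (E, s, a, b, c, d)) =
      (((List.replicate (s + k) 0 ++ (List.replicate a 3 ++ (List.replicate b 5 ++
    (List.replicate c 6 ++ List.replicate d 7)))).map (zz 𝓕)).prod *
      ((el E).map (fun q => Xc 𝓕 0 - Kc 𝓕 q)).prod) := by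
    unfold relL
    rw [exp_prod 𝓕 _ E hE, ev_tupM]
    simp only [List.map_append, List.map_replicate, List.prod_append, List.prod_replicate]
    rw [zz_zero, zz_pos (by norm_num), zz_pos (by norm_num), zz_pos (by norm_num),
      zz_pos (by norm_num), (X3 (Xc_sq (𝓕 := 𝓕))).1, (X3 (Xc_sq (𝓕 := 𝓕))).2,
      (X67 (𝓕 := 𝓕)).1, (X67 (𝓕 := 𝓕)).2, pow_add]
    ring
  rw [e, h]

theorem rel_all {n k : ℕ} (hrel : ∀ (L E : List ℕ), E.Sublist [3, 5, 17] →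
      (L.map (2 ^ ·)).sum + E.sum = n →
      fL 𝓕 ((L.map (zz 𝓕)).prod * (E.map (fun q => Xc 𝓕 0 - Kc 𝓕 q)).prod) = 0)
    (rels : List (ℕ × ℕ × ℕ × ℕ × ℕ × ℕ)) (hr : ∀ r ∈ rels, relN r + k = n ∧ r.1 < 8) :
    fL 𝓕 (Xc 𝓕 0 ^ k * evS 𝓕 (rels.flatMap relL)) = 0 := by
  induction rels with
  | nil => simp [evS]
  | cons r rels ih =>
    rw [List.flatMap_cons, evS_append, mul_add, map_add,
      rel_one hrel r (hr r List.mem_cons_self).1 (hr r List.mem_cons_self).2,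
      ih (fun r' h => hr r' (List.mem_cons_of_mem _ h)), add_zero]

theorem ids_all {N k : ℕ} (hN : Xc 𝓕 N = 0) (ids : List (ℕ × ℕ)) :
    Xc 𝓕 0 ^ k * evS 𝓕 (ids.map (fun p => (p.1, mulL (xl N) p.2))) = 0 := by
  induction ids with
  | nil => simp [evS]
  | cons p ids ih =>
    rw [List.map_cons, evS_cons, mul_add, ih, add_zero]
    simp only
    rw [ev_mulL, Xc_xl, hN]
    ring

end ring

theorem thr_val {ω : ℕ} (hval : S_val) (h0 : ∀ F ∈ 𝓕, ¬ F.2.Colorable ω)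
    (h1 : ∃ F ∈ 𝓕, F.2.Colorable (ω + 1)) (ws : List ℕ) (h : srt ws = true) :
    fL 𝓕 ((ws.map (Kc 𝓕)).prod) = bz (thrV ω ws) := by
  obtain ⟨v1, v2, v3, v4⟩ := hval 𝓕 ω h0 h1
  match ws, h with
  | [], h => exact absurd h (by simp [srt])
  | [a], h =>
    have h' : 1 ≤ a := by simpa [srt] using h
    rw [List.map_cons, List.map_nil, List.prod_cons, List.prod_nil, mul_one, v1 a h']
    simp [thrV, bz]
  | [a, b], h =>
    have h' : 1 ≤ b ∧ b ≤ a := by simpa [srt] using h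
    simp only [List.map_cons, List.map_nil, List.prod_cons, List.prod_nil, mul_one]
    rw [v2 a b h'.1 h'.2]
    simp only [thrV, bz, decide_eq_true_eq]
  | [a, b, c], h =>
    have h' : 1 ≤ c ∧ c ≤ b ∧ b ≤ a := by simpa [srt] using h
    simp only [List.map_cons, List.map_nil, List.prod_cons, List.prod_nil, mul_one]
    rw [← mul_assoc, v3 a b c h'.1 h'.2.1 h'.2.2]
    simp only [thrV, bz, decide_eq_true_eq]
  | [a, b, c, d], h =>
    have h' : 1 ≤ d ∧ d ≤ c ∧ c ≤ b ∧ b ≤ a := by simpa [srt] using h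
    simp only [List.map_cons, List.map_nil, List.prod_cons, List.prod_nil, mul_one]
    rw [← mul_assoc, ← mul_assoc, v4 a b c d h'.1 h'.2.1 h'.2.2.1 h'.2.2.2]
    simp only [thrV, bz, decide_eq_true_eq]
  | _ :: _ :: _ :: _ :: _ :: _, h => exact absurd h (by simp [srt])

theorem thr_all {ω : ℕ} [CharP (AA 𝓕 2) 2] (hval : S_val) (hX : ∀ j, Xc 𝓕 j = Kc 𝓕 (2 ^ j))
    (h0 : ∀ F ∈ 𝓕, ¬ F.2.Colorable ω)
    (h1 : ∃ F ∈ 𝓕, F.2.Colorable (ω + 1)) (thrs : List (ℕ × List ℕ × List ℕ))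
    (h : ∀ p ∈ thrs, thrOk p = true) :
    fL 𝓕 (evS 𝓕 (thrs.map (fun p => (p.1, prodX p.2.1)))) = bz (thrS ω thrs) := by
  induction thrs with
  | nil => simp [evS, thrS, bz]
  | cons p thrs ih =>
    have e : thrS ω (p :: thrs) = xor (thrV ω p.2.2) (thrS ω thrs) := rfl
    rw [List.map_cons, evS_cons, map_add, ih (fun p' h' => h p' (List.mem_cons_of_mem _ h')), e,
      bz_xor]
    congr 1
    have h2 := h p List.mem_cons_self
    unfold thrOk at h2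
    rw [Bool.and_eq_true, Bool.and_eq_true] at h2
    rw [← thr_val hval h0 h1 p.2.2 h2.1.2]
    congr 1
    have h3 : p.2.2.Perm (el p.1 ++ p.2.1.map (2 ^ ·)) := List.isPerm_iff.1 h2.2
    rw [(h3.map (Kc 𝓕)).prod_eq, List.map_append, List.prod_append, ev_prodX, mul_comm]
    unfold KT
    congr 2
    rw [List.map_map]
    exact List.map_congr_left fun j _ => hX j

section

variable {ω : ℕ} (hω : 1 ≤ ω) (h0 : ∀ F ∈ 𝓕, ¬ F.2.Colorable ω)
  (h1 : ∃ F ∈ 𝓕, F.2.Colorable (ω + 1))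
  (hmono : S_mono) (hval : S_val) (hkz : S_kz)

include hω h0 h1 hmono hval hkz

theorem tot_val {k : ℕ} (y : ℕ → ℕ) (hok : oks ω k y = true) :
    fL 𝓕 (Xc 𝓕 0 ^ k * ∑ t ∈ range 8, ev (Xc 𝓕 0) (y t) * KT 𝓕 t) = bz (tot ω k y) := by
  have hk : ∀ t, Xc 𝓕 0 ^ k * (ev (Xc 𝓕 0) (y t) * KT 𝓕 t) =
      ev (Xc 𝓕 0) (y t <<< k) * KT 𝓕 t := fun t => by rw [ev_shift, mul_assoc]
  rw [Finset.mul_sum, map_sum, Finset.sum_congr rfl (fun t _ => congrArg (fL 𝓕) (hk t))]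
  unfold oks at hok
  simp only [Bool.and_eq_true] at hok
  obtain ⟨⟨⟨⟨⟨⟨⟨k0, k1⟩, k2⟩, k3⟩, k4⟩, k5⟩, k6⟩, k7⟩ := hok
  have v : ∀ t y', t < 8 → okv ω t y' = true →
      fL 𝓕 (ev (Xc 𝓕 0) y' * KT 𝓕 t) = bz (vv ω t y') := fun t y' ht h =>
    val_vv hω h0 h1 hmono hval hkz ht h
  unfold tot
  simp only [Finset.sum_range_succ, Finset.sum_range_zero, zero_add, bz_xor]
  rw [v 0 _ (by norm_num) k0, v 1 _ (by norm_num) k1, v 2 _ (by norm_num) k2,
    v 3 _ (by norm_num) k3, v 4 _ (by norm_num) k4, v 5 _ (by norm_num) k5,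
    v 6 _ (by norm_num) k6, v 7 _ (by norm_num) k7]

/-- a certificate without products, shifted by `k` -/
theorem cert_bulk {n k N : ℕ} (hrel : S_relE)
    (hNE : NE (univ : Finset (EV (Fin n))) (fun S => ¬ HH 𝓕 (toG S)))
    (hN : ω < 2 ^ N) (rels : List (ℕ × ℕ × ℕ × ℕ × ℕ × ℕ)) (ids : List (ℕ × ℕ))
    (hr : ∀ r ∈ rels, relN r + k = n ∧ r.1 < 8) (hi : ∀ p ∈ ids, p.1 < 8) (y : ℕ → ℕ)
    (hy : ∀ t < 8, comb (resid N rels ids []) t = y t) (hok : oks ω k y = true) :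
    tot ω k y = false := by
  have hcol : ∀ F ∈ 𝓕, ¬ F.2.Colorable 1 := fun F hF hc => h0 F hF (hc.mono hω)
  have hch : CharP (AA 𝓕 2) 2 := charP_of (h := hcol)
  have hXN : Xc 𝓕 N = 0 := by
    obtain ⟨F, hF, hc⟩ := h1
    exact Xc_eq_zero ⟨F, hF, hc.mono (by omega)⟩
  have e1 : fL 𝓕 (Xc 𝓕 0 ^ k * evS 𝓕 (resid N rels ids [])) = 0 := by
    unfold resid
    rw [evS_append, evS_append, mul_add, mul_add, map_add, map_add,
      rel_all (hrel 𝓕 n hcol hNE) rels hr, ids_all hXN ids, map_zero]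
    simp [evS]
  have hl : ∀ p ∈ resid N rels ids [], p.1 < 8 := by
    intro p hp
    unfold resid at hp
    rw [List.mem_append, List.mem_append, List.mem_flatMap] at hp
    rcases hp with ⟨r, _, hp⟩ | hp | hp
    · unfold relL at hp
      obtain ⟨q, hq, rfl⟩ := List.mem_map.1 hp
      exact expE_lt r.1 q hq
    · obtain ⟨q, hq, rfl⟩ := List.mem_map.1 hp
      exact hi q hq
    · simp at hp
  rw [evS_comb 𝓕 _ hl, Finset.sum_congr rfl (fun t ht => by rw [hy t (Finset.mem_range.1 ht)]),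
    tot_val hω h0 h1 hmono hval hkz y hok] at e1
  by_contra hne
  have : tot ω k y = true := by simpa using hne
  rw [this] at e1
  exact absurd e1 (by decide)

/-- a certificate with products and further polynomials on which the functional vanishes -/
theorem cert_exc {n N : ℕ} (hrel : S_relE)
    (hNE : NE (univ : Finset (EV (Fin n))) (fun S => ¬ HH 𝓕 (toG S)))
    (hN : ω < 2 ^ N) (rels : List (ℕ × ℕ × ℕ × ℕ × ℕ × ℕ)) (ids : List (ℕ × ℕ))
    (thrs : List (ℕ × List ℕ × List ℕ)) (z : ℕ) (hz : fL 𝓕 (ev (Xc 𝓕 0) z) = 0)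
    (hr : ∀ r ∈ rels, relN r = n ∧ r.1 < 8) (hi : ∀ p ∈ ids, p.1 < 8)
    (ht : ∀ p ∈ thrs, thrOk p = true)
    (hok : oks ω 0 (comb ((0, z) :: resid N rels ids thrs)) = true) :
    tot ω 0 (comb ((0, z) :: resid N rels ids thrs)) = thrS ω thrs := by
  have hcol : ∀ F ∈ 𝓕, ¬ F.2.Colorable 1 := fun F hF hc => h0 F hF (hc.mono hω)
  have hch : CharP (AA 𝓕 2) 2 := charP_of (h := hcol)
  have hXN : Xc 𝓕 N = 0 := by
    obtain ⟨F, hF, hc⟩ := h1
    exact Xc_eq_zero ⟨F, hF, hc.mono (by omega)⟩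
  have hX : ∀ j, Xc 𝓕 j = Kc 𝓕 (2 ^ j) := (hkz 𝓕 hcol).2.2
  have a1 := rel_all (k := 0) (hrel 𝓕 n hcol hNE) rels (fun r h => by
    have := hr r h
    rw [add_zero]
    exact this)
  have a2 := ids_all (k := 0) hXN ids
  rw [pow_zero, one_mul] at a1 a2
  have e1 : fL 𝓕 (Xc 𝓕 0 ^ 0 * evS 𝓕 ((0, z) :: resid N rels ids thrs)) = bz (thrS ω thrs) := by
    unfold resid
    rw [pow_zero, one_mul, evS_cons, evS_append, evS_append, map_add, map_add, map_add,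
      a1, a2, map_zero, thr_all hval hX h0 h1 thrs ht]
    have hK : KT 𝓕 0 = 1 := rfl
    simp only
    rw [hK, mul_one, hz]
    ring
  have hl : ∀ p ∈ ((0, z) :: resid N rels ids thrs : List (ℕ × ℕ)), p.1 < 8 := by
    intro p hp
    rcases List.mem_cons.1 hp with rfl | hp
    · norm_num
    unfold resid at hp
    rw [List.mem_append, List.mem_append, List.mem_flatMap] at hp
    rcases hp with ⟨r, _, hp⟩ | hp | hp
    · unfold relL at hp
      obtain ⟨q, hq, rfl⟩ := List.mem_map.1 hp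
      exact expE_lt r.1 q hq
    · obtain ⟨q, hq, rfl⟩ := List.mem_map.1 hp
      exact hi q hq
    · obtain ⟨q, hq, rfl⟩ := List.mem_map.1 hp
      have h3 := ht q hq
      unfold thrOk at h3
      rw [Bool.and_eq_true, Bool.and_eq_true] at h3
      exact of_decide_eq_true h3.1.1
  rw [evS_comb 𝓕 _ hl, tot_val hω h0 h1 hmono hval hkz _ hok] at e1
  revert e1
  cases tot ω 0 (comb ((0, z) :: resid N rels ids thrs)) <;> cases thrS ω thrs <;> decide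

end

end

end Pool.Agent.H636.HD
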