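import Pool.Agent.H636.HD.Chk

set_option autoImplicit false

/-! MP_257582_lc: certificates for exceptional pairs. -/

namespace Pool.Agent.H636.HD

open Finset Pool.Agent.H98R2.Ev Pool.Agent.TH410.KV Pool.Agent.Y577.EV Pool.Agent.H636.HC

/-- a certificate for one pair -/
structure Ex where
  n : ℕ
  ω : ℕ
  N : ℕ
  rels : List (ℕ × ℕ × ℕ × ℕ × ℕ × ℕ)
  ids : List (ℕ × ℕ)
  thrs : List (ℕ × List ℕ × List ℕ)

/-- the certificate is correct -/
def exOk (z : ℕ) (c : Ex) : Bool :=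
  Nat.ble 1 c.ω && Nat.blt c.ω (2 ^ c.N) &&
  c.rels.all (fun r => Nat.beq (relN r) c.n && Nat.blt r.1 8) &&
  c.ids.all (fun p => Nat.blt p.1 8) &&
  c.thrs.all thrOk &&
  oks c.ω 0 (comb ((0, z) :: resid c.N c.rels c.ids c.thrs)) &&
  xor (tot c.ω 0 (comb ((0, z) :: resid c.N c.rels c.ids c.thrs))) (thrS c.ω c.thrs)

end Pool.Agent.H636.HD
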