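import Pool.Agent.H636.HD.Stm

set_option autoImplicit false

/-! MP_257582_lc: polynomials over `F_2` as natural numbers. -/

namespace Pool.Agent.H636.HD

open Finset

section

variable {A : Type} [CommRing A]

/-- the value at `x` of the polynomial with the exponents given by the binary digits of `m` -/
noncomputable def ev (x : A) (m : ℕ) : A := ∑ i ∈ range m, if m.testBit i then x ^ i else 0

theorem testBit_of_lt {m i N : ℕ} (h : m < 2 ^ N) (hi : N ≤ i) : m.testBit i = false :=
  Nat.testBit_lt_two_pow (lt_of_lt_of_le h (Nat.pow_le_pow_right (by norm_num) hi))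

theorem ev_eq (x : A) {m N : ℕ} (h : m < 2 ^ N) :
    ev x m = ∑ i ∈ range N, if m.testBit i then x ^ i else 0 := by
  unfold ev
  have h1 : ∀ K, m < 2 ^ K → ∑ i ∈ range K, (if m.testBit i then x ^ i else 0) =
      ∑ i ∈ range (K + N + m), if m.testBit i then x ^ i else 0 := by
    intro K hK
    refine Finset.sum_subset (Finset.range_subset_range.2 (by omega)) ?_
    intro i _ hi
    rw [Finset.mem_range, not_lt] at hi
    rw [testBit_of_lt hK hi]
    simp
  have h2 := h1 m Nat.lt_two_pow_self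
  have h3 := h1 N h
  have h4 : ∑ i ∈ range (m + N + m), (if m.testBit i then x ^ i else 0) =
      ∑ i ∈ range (N + N + m), if m.testBit i then x ^ i else 0 := by
    rcases le_total N m with hNm | hNm
    · symm
      refine Finset.sum_subset (Finset.range_subset_range.2 (by omega)) ?_
      intro i _ hi
      rw [Finset.mem_range, not_lt] at hi
      rw [testBit_of_lt h (by omega)]
      simp
    · refine Finset.sum_subset (Finset.range_subset_range.2 (by omega)) ?_
      intro i _ hi
      rw [Finset.mem_range, not_lt] at hi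
      rw [testBit_of_lt (Nat.lt_two_pow_self (n := m)) (by omega)]
      simp
  rw [h2, h4, ← h3]

@[simp] theorem ev_zero (x : A) : ev x 0 = 0 := by
  simp [ev]

@[simp] theorem ev_one (x : A) : ev x 1 = 1 := by
  rw [ev_eq x (N := 1) (by norm_num)]
  simp

theorem ev_xor [CharP A 2] (x : A) (a b : ℕ) : ev x (a ^^^ b) = ev x a + ev x b := by
  have ha : a < 2 ^ (a + b) := lt_of_lt_of_le Nat.lt_two_pow_self
    (Nat.pow_le_pow_right (by norm_num) (by omega))
  have hb : b < 2 ^ (a + b) := lt_of_lt_of_le Nat.lt_two_pow_self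
    (Nat.pow_le_pow_right (by norm_num) (by omega))
  rw [ev_eq x ha, ev_eq x hb, ev_eq x (Nat.xor_lt_two_pow ha hb), ← Finset.sum_add_distrib]
  refine Finset.sum_congr rfl fun i _ => ?_
  rw [Nat.testBit_xor]
  cases a.testBit i <;> cases b.testBit i <;> simp [CharTwo.add_self_eq_zero]

theorem ev_shift (x : A) (m k : ℕ) : ev x (m <<< k) = x ^ k * ev x m := by
  have hm : m < 2 ^ m := Nat.lt_two_pow_self
  have hmk : m <<< k < 2 ^ (k + m) := by
    rw [Nat.shiftLeft_eq, pow_add, mul_comm]
    exact Nat.mul_lt_mul_of_pos_left hm (by positivity)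
  rw [ev_eq x hmk, ev_eq x hm, Finset.sum_range_add, Finset.mul_sum]
  have h0 : ∑ i ∈ range k, (if (m <<< k).testBit i then x ^ i else 0) = 0 := by
    refine Finset.sum_eq_zero fun i hi => ?_
    rw [Finset.mem_range] at hi
    rw [Nat.testBit_shiftLeft]
    simp [hi]
  rw [h0, zero_add]
  refine Finset.sum_congr rfl fun i _ => ?_
  rw [Nat.testBit_shiftLeft]
  simp [pow_add]

/-- multiplication by the sum of the powers with the exponents in `l` -/
def mulL (l : List ℕ) (m : ℕ) : ℕ := l.foldr (fun k acc => (m <<< k) ^^^ acc) 0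

theorem ev_mulL [CharP A 2] (x : A) (l : List ℕ) (m : ℕ) :
    ev x (mulL l m) = (l.map (x ^ ·)).sum * ev x m := by
  induction l with
  | nil => simp [mulL]
  | cons k l ih =>
    have : mulL (k :: l) m = (m <<< k) ^^^ mulL l m := rfl
    rw [this, ev_xor, ev_shift, ih, List.map_cons, List.sum_cons, add_mul]

theorem ev_iter [CharP A 2] (x : A) (l : List ℕ) (a m : ℕ) :
    ev x ((mulL l)^[a] m) = (l.map (x ^ ·)).sum ^ a * ev x m := by
  induction a generalizing m with
  | zero => simp
  | succ a ih =>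
    rw [Function.iterate_succ_apply', ev_mulL, ih, pow_succ]
    ring

/-- the product `x ^ s Y₃ ^ a Y₅ ^ b Y₆ ^ c Y₇ ^ d` -/
def tupM (s a b c d : ℕ) : ℕ :=
  (mulL [2, 4, 8])^[a] ((mulL [2, 16, 32])^[b] ((mulL [4, 16, 64])^[c]
    ((mulL [2, 4, 8, 16, 32, 64, 128])^[d] (1 <<< s))))

theorem ev_tupM [CharP A 2] (x : A) (s a b c d : ℕ) : ev x (tupM s a b c d) =
    x ^ s * (x ^ 2 + x ^ 4 + x ^ 8) ^ a * (x ^ 2 + x ^ 16 + x ^ 32) ^ b *
      (x ^ 4 + x ^ 16 + x ^ 64) ^ c *
      (x ^ 2 + x ^ 4 + x ^ 8 + x ^ 16 + x ^ 32 + x ^ 64 + x ^ 128) ^ d := by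
  unfold tupM
  rw [ev_iter, ev_iter, ev_iter, ev_iter, ev_shift, ev_one]
  simp only [List.map_cons, List.map_nil, List.sum_cons, List.sum_nil, add_zero, mul_one]
  ring

/-- the sum over the digits -/
theorem sum_digit {B : Type} [AddCommMonoid B] (g : A →+ B) (x z : A) {m N : ℕ} (h : m < 2 ^ N) :
    g (ev x m * z) = ∑ i ∈ range N, if m.testBit i then g (x ^ i * z) else 0 := by
  rw [ev_eq x h, Finset.sum_mul, map_sum]
  refine Finset.sum_congr rfl fun i _ => ?_
  split_ifs
  · rfl
  · rw [zero_mul, map_zero]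

end

end Pool.Agent.H636.HD
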