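import Pool.Agent.H636.HD.Stm

set_option autoImplicit false
set_option linter.unusedSectionVars false

/-!
HD-B: the relation for `a` single vertices and `b` blocks with `q` vertices, `q = 3, 13, 25`.
-/

namespace Pool.Agent.H636.HD.RelP

open Finset Pool.Agent.H98R2.Ev Pool.Agent.TH410.KV Pool.Agent.Y577.EV Pool.Agent.H636.HC
open Pool.Agent.H98R2.Nb (Inv)
open Pool.Agent.Y407.EV (not_HH_bot HH_hom)

section

/-- the vertices: `a` single vertices and `b` blocks `Z` -/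
abbrev VP (a b : ℕ) (Z : Type) : Type := Fin a ⊕ (Fin b × Z)

/-- the projection to the blocks -/
def pp (a b : ℕ) (Z : Type) : VP a b Z → Fin a ⊕ Fin b := Sum.map id Prod.fst

variable {a b : ℕ} {Z : Type} [AddCommGroup Z]

/-- translations of the blocks -/
def tp (t : Fin b → Z) : Equiv.Perm (VP a b Z) where
  toFun := Sum.map id (fun x => (x.1, x.2 + t x.1))
  invFun := Sum.map id (fun x => (x.1, x.2 - t x.1))
  left_inv := by
    rintro (i | ⟨j, z⟩)
    · rfl
    · simp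
  right_inv := by
    rintro (i | ⟨j, z⟩)
    · rfl
    · simp

/-- the automorphism in every block -/
def cp (μ : Z ≃+ Z) : Equiv.Perm (VP a b Z) where
  toFun := Sum.map id (fun x => (x.1, μ x.2))
  invFun := Sum.map id (fun x => (x.1, μ.symm x.2))
  left_inv := by
    rintro (i | ⟨j, z⟩)
    · rfl
    · simp
  right_inv := by
    rintro (i | ⟨j, z⟩)
    · rfl
    · simp

theorem tp_inl (t : Fin b → Z) (i : Fin a) :
    (tp t : Equiv.Perm (VP a b Z)) (Sum.inl i) = Sum.inl i := rfl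

theorem tp_inr (t : Fin b → Z) (j : Fin b) (z : Z) :
    (tp t : Equiv.Perm (VP a b Z)) (Sum.inr (j, z)) = Sum.inr (j, z + t j) := rfl

theorem cp_inl (μ : Z ≃+ Z) (i : Fin a) :
    (cp μ : Equiv.Perm (VP a b Z)) (Sum.inl i) = Sum.inl i := rfl

theorem cp_inr (μ : Z ≃+ Z) (j : Fin b) (z : Z) :
    (cp μ : Equiv.Perm (VP a b Z)) (Sum.inr (j, z)) = Sum.inr (j, μ z) := rfl

theorem tp_comm (s t : Fin b → Z) :
    (tp s : Equiv.Perm (VP a b Z)) * tp t = tp t * tp s := by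
  apply Equiv.ext
  rintro (i | ⟨j, z⟩)
  · rfl
  · rw [Equiv.Perm.mul_apply, Equiv.Perm.mul_apply, tp_inr, tp_inr, tp_inr, tp_inr,
      add_right_comm]

theorem tp_pow_inl (t : Fin b → Z) (m : ℕ) (i : Fin a) :
    ((tp t : Equiv.Perm (VP a b Z)) ^ m) (Sum.inl i) = Sum.inl i := by
  induction m with
  | zero => rfl
  | succ m ih => rw [pow_succ', Equiv.Perm.mul_apply, ih, tp_inl]

theorem tp_pow_inr (t : Fin b → Z) (m : ℕ) (j : Fin b) (z : Z) :
    ((tp t : Equiv.Perm (VP a b Z)) ^ m) (Sum.inr (j, z)) = Sum.inr (j, z + m • t j) := by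
  induction m with
  | zero => simp
  | succ m ih =>
    rw [pow_succ', Equiv.Perm.mul_apply, ih, tp_inr, add_assoc, succ_nsmul]

theorem tp_p {p : ℕ} (hp : ∀ z : Z, p • z = 0) (t : Fin b → Z) :
    (tp t : Equiv.Perm (VP a b Z)) ^ p = 1 := by
  apply Equiv.ext
  rintro (i | ⟨j, z⟩)
  · rw [tp_pow_inl]; rfl
  · rw [tp_pow_inr, hp, add_zero]; rfl

theorem cp_tp (μ : Z ≃+ Z) (t : Fin b → Z) :
    (cp μ : Equiv.Perm (VP a b Z))⁻¹ * tp t * cp μ = tp fun i => μ.symm (t i) := by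
  rw [mul_assoc, inv_mul_eq_iff_eq_mul]
  apply Equiv.ext
  rintro (i | ⟨j, z⟩)
  · rfl
  · rw [Equiv.Perm.mul_apply, Equiv.Perm.mul_apply, cp_inr, tp_inr, tp_inr, cp_inr, map_add,
      AddEquiv.apply_symm_apply]

theorem cp_pow_inr (μ : Z ≃+ Z) (m : ℕ) (j : Fin b) (z : Z) :
    ((cp μ : Equiv.Perm (VP a b Z)) ^ m) (Sum.inr (j, z)) = Sum.inr (j, (⇑μ)^[m] z) := by
  induction m with
  | zero => rfl
  | succ m ih =>
    rw [pow_succ', Equiv.Perm.mul_apply, ih, cp_inr, Function.iterate_succ_apply']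

theorem classify {G : SimpleGraph (VP a b Z)} (hG : ∀ t, Inv (tp t) G) {μ : Z ≃+ Z}
    (hc : Inv (cp μ) G) (hμ : ∀ x y : Z, x ≠ 0 → y ≠ 0 → ∃ m : ℕ, (⇑μ)^[m] x = y)
    (x y x' y' : VP a b Z) (hxy : x ≠ y) (hxy' : x' ≠ y') (hx : pp a b Z x = pp a b Z x')
    (hy : pp a b Z y = pp a b Z y') (h : G.Adj x' y') : G.Adj x y := by
  rcases x with i | ⟨i, u⟩ <;> rcases x' with i' | ⟨i', u'⟩
  · obtain rfl : i = i' := Sum.inl_injective hx
    rcases y with j | ⟨j, v⟩ <;> rcases y' with j' | ⟨j', v'⟩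
    · obtain rfl : j = j' := Sum.inl_injective hy
      exact h
    · exact absurd hy (by simp [pp])
    · exact absurd hy (by simp [pp])
    · obtain rfl : j = j' := Sum.inr_injective hy
      have h1 := hG (fun _ => v - v') _ _ h
      rw [tp_inl, tp_inr, add_sub_cancel] at h1
      exact h1
  · exact absurd hx (by simp [pp])
  · exact absurd hx (by simp [pp])
  · obtain rfl : i = i' := Sum.inr_injective hx
    rcases y with j | ⟨j, v⟩ <;> rcases y' with j' | ⟨j', v'⟩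
    · obtain rfl : j = j' := Sum.inl_injective hy
      have h1 := hG (fun _ => u - u') _ _ h
      rw [tp_inl, tp_inr, add_sub_cancel] at h1
      exact h1
    · exact absurd hy (by simp [pp])
    · exact absurd hy (by simp [pp])
    · obtain rfl : j = j' := Sum.inr_injective hy
      by_cases hij : i = j
      · subst hij
        obtain ⟨m, hm⟩ := hμ (v' - u') (v - u) (by
          rw [sub_ne_zero]
          rintro rfl
          exact hxy' rfl) (by
          rw [sub_ne_zero]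
          rintro rfl
          exact hxy rfl)
        have h1 := inv_pow hc m _ _ h
        rw [cp_pow_inr, cp_pow_inr] at h1
        have h2 := hG (fun _ => u - (⇑μ)^[m] u') _ _ h1
        rw [tp_inr, tp_inr, add_sub_cancel] at h2
        have e : (⇑μ)^[m] v' + (u - (⇑μ)^[m] u') = v := by
          have h3 : (⇑μ)^[m] (v' - u') = (⇑μ)^[m] v' - (⇑μ)^[m] u' := iterate_map_sub μ m v' u'
          rw [hm] at h3
          have h4 : (⇑μ)^[m] v' + (u - (⇑μ)^[m] u') = ((⇑μ)^[m] v' - (⇑μ)^[m] u') + u := by abel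
          rw [h4, ← h3, sub_add_cancel]
        rwa [e] at h2
      · have h1 := hG (Function.update (fun _ => v - v') i (u - u')) _ _ h
        rw [tp_inr, tp_inr, Function.update_self, Function.update_of_ne (Ne.symm hij),
          add_sub_cancel, add_sub_cancel] at h1
        exact h1

end

section crit

/-- the blocks with at least two vertices -/
def dd (a b : ℕ) : Fin a ⊕ Fin b → ℕ := Sum.elim (fun _ => 0) (fun _ => 1)

theorem pp_surj (a b : ℕ) (Z : Type) [AddCommGroup Z] : Function.Surjective (pp a b Z) := by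
  rintro (i | j)
  · exact ⟨Sum.inl i, rfl⟩
  · exact ⟨Sum.inr (j, 0), rfl⟩

variable (a b : ℕ) {Z : Type} [AddCommGroup Z] [Fintype Z] [DecidableEq Z]

open Classical in
/-- the criterion -/
theorem crit (p : ℕ) [Fact p.Prime] (hp : ∀ z : Z, p • z = 0) (hZ : ∃ z : Z, z ≠ 0)
    (μ : Z ≃+ Z) (hμ : ∀ x y : Z, x ≠ 0 → y ≠ 0 → ∃ m : ℕ, (⇑μ)^[m] x = y) (𝓕 : Fam)
    (h0 : ∀ F ∈ 𝓕, ¬ F.2.Colorable 1)
    (hne : NE (univ : Finset (EV (VP a b Z))) (fun S => ¬ HH 𝓕 (toG S))) :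
    (2 : ℤ) ∣ ∑ A : Finset (EV (Fin a ⊕ Fin b) ⊕ {o // dd a b o ≠ 0}),
      if ¬ HH 𝓕 (gB (pp a b Z) (dd a b) A) then (-1 : ℤ) ^ A.card else 0 := by
  have hcrit := Pool.Agent.H98R2.Nb.GC.graph_criterion (V := VP a b Z) (fun G => ¬ HH 𝓕 G)
    (fun G G' hGG' hP h => hP (HH_hom h (SimpleGraph.Hom.ofLE hGG')))
    (fun s G hP h => hP (HH_hom h (SimpleGraph.Iso.map s G).symm.toHom))
    (not_HH_bot h0) hne p 2 0 (fun t : (Fin b → Z) => tp t) (cp μ) 1
    (fun s t => tp_comm s t) (fun t => tp_p hp t) (one_pow _)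
    (fun t => by rw [mul_one, one_mul])
    (fun G hG t => by rw [cp_tp]; exact hG _)
    (fun G hG hG2 => by rw [inv_one, one_mul, mul_one]; exact hG2)
    (fun A : Finset (EV (Fin a ⊕ Fin b) ⊕ {o // dd a b o ≠ 0}) => gB (pp a b Z) (dd a b) A)
    (fun A A' => gB_le (pp_surj a b Z) (by
      rintro (i | j) hi
      · exact absurd rfl hi
      · obtain ⟨z, hz⟩ := hZ
        refine ⟨Sum.inr (j, 0), Sum.inr (j, z), rfl, rfl, ?_⟩
        intro h
        apply hz
        have h1 : ((j, 0) : Fin b × Z) = (j, z) := Sum.inr_injective h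
        exact (Prod.mk.inj h1).2.symm) A A')
    (fun A t => blow_inv _ _ _ (by rintro (x | z) <;> rfl))
    (fun A => blow_inv _ _ _ (by rintro (x | z) <;> rfl))
    (fun A => blow_inv _ _ _ (by rintro (x | z) <;> rfl))
    (fun G _ hG1 hG2 _ => gB_surj (by
      rintro (i | j) hi x y hx hy
      · rcases x with k | ⟨k, u⟩
        · rcases y with l | ⟨l, v⟩
          · have e1 : k = i := Sum.inl_injective hx
            have e2 : l = i := Sum.inl_injective hy
            rw [e1, e2]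
          · exact absurd hy (by simp [pp])
        · exact absurd hx (by simp [pp])
      · exact absurd hi (by simp [dd]))
      (fun x y x' y' => classify hG1 hG2 hμ x y x' y'))
  exact_mod_cast hcrit

variable {𝓕 : Fam}

/-- the types of the complete blocks -/
def sp (𝓕 : Fam) (a b q : ℕ) : Fin a ⊕ Fin b → TY 𝓕 :=
  Sum.elim (fun _ => xi) (fun _ => J q xi)

theorem sp_mem (q : ℕ) [NeZero q] (hq : Fintype.card Z = q) (o : Fin a ⊕ Fin b)
    (ho : dd a b o ≠ 0) (F : 𝓕) (U : Finset (Fin F.1.1)) :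
    U ∈ (sp 𝓕 a b q o).1 F ↔ Cb {v // pp a b Z v = o} F U := by
  classical
  rcases o with i | j
  · exact absurd rfl ho
  · have e1 : ZMod q ≃ Z := Fintype.equivOfCardEq (by rw [ZMod.card, hq])
    have e2 : Z ≃ {v : VP a b Z // pp a b Z v = Sum.inr j} :=
      { toFun := fun z => ⟨Sum.inr (j, z), rfl⟩
        invFun := fun v => v.1.elim (fun _ => 0) Prod.snd
        left_inv := fun z => rfl
        right_inv := by
          rintro ⟨(x | ⟨k, z⟩), h⟩
          · exact absurd h (by simp [pp])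
          · obtain rfl : k = j := Sum.inr_injective h
            rfl }
    rw [← Cb_of_equiv (e1.trans e2)]
    exact mem_J q F U

theorem rel (p q : ℕ) [Fact p.Prime] [NeZero q] (hq : Fintype.card Z = q)
    (hp : ∀ z : Z, p • z = 0) (hZ : ∃ z : Z, z ≠ 0)
    (μ : Z ≃+ Z) (hμ : ∀ x y : Z, x ≠ 0 → y ≠ 0 → ∃ m : ℕ, (⇑μ)^[m] x = y) {n : ℕ}
    (h1 : ∀ F ∈ 𝓕, ¬ F.2.Colorable 1)
    (hNE : NE (univ : Finset (EV (Fin n))) (fun S => ¬ HH 𝓕 (toG S))) (hn : a + b * q = n) :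
    fL 𝓕 (Xc 𝓕 0 ^ a * (Xc 𝓕 0 - Kc 𝓕 q) ^ b) = 0 := by
  classical
  have hcard : Fintype.card (Fin n) = Fintype.card (VP a b Z) := by
    rw [Fintype.card_fin, Fintype.card_sum, Fintype.card_prod, Fintype.card_fin,
      Fintype.card_fin, hq, hn]
  have hNE2 := ne_transport (Fintype.equivOfCardEq hcard) hNE
  have hd := crit a b p hp hZ μ hμ 𝓕 h1 hNE2
  have hc := count (𝓕 := 𝓕) (pp a b Z) (pp_surj a b Z) (dd a b)
    (sp 𝓕 a b q) (fun o ho F U => sp_mem a b q hq o ho F U)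
  rw [(ZMod.intCast_zmod_eq_zero_iff_dvd _ 2).2 (by exact_mod_cast hd)] at hc
  have e : (∏ o, zq (dd a b) (sp 𝓕 a b q) o) =
      Xc 𝓕 0 ^ a * (Xc 𝓕 0 - Kc 𝓕 q) ^ b := by
    rw [Fintype.prod_sum_type]
    have e1 : ∀ i : Fin a, zq (dd a b) (sp 𝓕 a b q) (Sum.inl i) = Xc 𝓕 0 := fun i => by
      unfold zq
      rw [if_pos (by rfl)]
      rfl
    have e2 : ∀ j : Fin b, zq (dd a b) (sp 𝓕 a b q) (Sum.inr j) = Xc 𝓕 0 - Kc 𝓕 q := fun j => by
      unfold zq
      rw [if_neg (by simp [dd])]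
      rfl
    rw [Finset.prod_congr rfl (fun i _ => e1 i), Finset.prod_congr rfl (fun i _ => e2 i),
      prod_const, prod_const, card_univ, card_univ, Fintype.card_fin, Fintype.card_fin]
  rw [e] at hc
  exact hc.symm

end crit

/-- transitivity from one orbit -/
theorem trans_of {Z : Type} [AddCommGroup Z] (μ : Z ≃+ Z) (e : Z) (N : ℕ)
    (hN : (⇑μ)^[N] e = e) (h : ∀ y : Z, y ≠ 0 → ∃ m : ℕ, m < N ∧ (⇑μ)^[m] e = y) :
    ∀ x y : Z, x ≠ 0 → y ≠ 0 → ∃ m : ℕ, (⇑μ)^[m] x = y := by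
  intro x y hx hy
  obtain ⟨i, hi, rfl⟩ := h x hx
  obtain ⟨j, _, rfl⟩ := h y hy
  refine ⟨j + (N - i), ?_⟩
  rw [← Function.iterate_add_apply, add_assoc, Nat.sub_add_cancel hi.le,
    Function.iterate_add_apply, hN]

/-- doubling modulo 3 -/
def mu3 : ZMod 3 ≃+ ZMod 3 where
  toFun x := 2 * x
  invFun x := 2 * x
  left_inv := by unfold Function.LeftInverse; decide
  right_inv := by unfold Function.RightInverse Function.LeftInverse; decide
  map_add' := by decide

/-- doubling modulo 13 -/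
def mu13 : ZMod 13 ≃+ ZMod 13 where
  toFun x := 2 * x
  invFun x := 7 * x
  left_inv := by unfold Function.LeftInverse; decide
  right_inv := by unfold Function.RightInverse Function.LeftInverse; decide
  map_add' := by intro x y; ring

/-- an automorphism of order 24 -/
def mu25 : (ZMod 5 × ZMod 5) ≃+ (ZMod 5 × ZMod 5) where
  toFun x := (-2 * x.2, x.1 + x.2)
  invFun x := (x.2 - 2 * x.1, 2 * x.1)
  left_inv := by unfold Function.LeftInverse; decide
  right_inv := by unfold Function.RightInverse Function.LeftInverse; decide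
  map_add' := by
    intro x y
    ext
    · simp only [Prod.fst_add, Prod.snd_add]; ring
    · simp only [Prod.fst_add, Prod.snd_add]; ring

theorem tr3 : ∀ x y : ZMod 3, x ≠ 0 → y ≠ 0 → ∃ m : ℕ, (⇑mu3)^[m] x = y := by
  refine trans_of mu3 1 2 (by decide) ?_
  intro y hy
  have h : ∀ y : ZMod 3, y ≠ 0 → ∃ m : Fin 2, (⇑mu3)^[(m : ℕ)] 1 = y := by decide
  obtain ⟨m, hm⟩ := h y hy
  exact ⟨m, m.2, hm⟩

theorem tr13 : ∀ x y : ZMod 13, x ≠ 0 → y ≠ 0 → ∃ m : ℕ, (⇑mu13)^[m] x = y := by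
  refine trans_of mu13 1 12 (by decide) ?_
  intro y hy
  have h : ∀ y : ZMod 13, y ≠ 0 → ∃ m : Fin 12, (⇑mu13)^[(m : ℕ)] 1 = y := by decide
  obtain ⟨m, hm⟩ := h y hy
  exact ⟨m, m.2, hm⟩

theorem tr25 : ∀ x y : ZMod 5 × ZMod 5, x ≠ 0 → y ≠ 0 → ∃ m : ℕ, (⇑mu25)^[m] x = y := by
  refine trans_of mu25 (1, 0) 24 (by decide +kernel) ?_
  intro y hy
  have h : ∀ y : ZMod 5 × ZMod 5, y ≠ 0 → ∃ m : Fin 24, (⇑mu25)^[(m : ℕ)] (1, 0) = y := by
    decide +kernel
  obtain ⟨m, hm⟩ := h y hy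
  exact ⟨m, m.2, hm⟩

theorem p3 : ∀ z : ZMod 3, 3 • z = 0 := by decide
theorem p13 : ∀ z : ZMod 13, 13 • z = 0 := by decide
theorem p25 : ∀ z : ZMod 5 × ZMod 5, 5 • z = 0 := by decide
theorem n3 : ∃ z : ZMod 3, z ≠ 0 := by decide
theorem n13 : ∃ z : ZMod 13, z ≠ 0 := by decide
theorem n25 : ∃ z : ZMod 5 × ZMod 5, z ≠ 0 := by decide

theorem t : S_relP := by
  intro 𝓕 n h1 hNE a b q hq hn
  have f3 : Fact (Nat.Prime 3) := ⟨by norm_num⟩
  have f13 : Fact (Nat.Prime 13) := ⟨by norm_num⟩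
  have f5 : Fact (Nat.Prime 5) := ⟨by norm_num⟩
  rcases hq with rfl | rfl | rfl
  · exact rel a b (Z := ZMod 3) 3 3 (by rw [ZMod.card]) p3 n3 mu3 tr3 h1 hNE hn
  · exact rel a b (Z := ZMod 13) 13 13 (by rw [ZMod.card]) p13 n13 mu13 tr13 h1 hNE hn
  · exact rel a b (Z := ZMod 5 × ZMod 5) 5 25 (by rw [Fintype.card_prod, ZMod.card])
      p25 n25 mu25 tr25 h1 hNE hn

end Pool.Agent.H636.HD.RelP
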