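import Pool.Agent.H636.HD.Exc

set_option autoImplicit false

/-! MP_257582_lc: soundness of the checks. -/

namespace Pool.Agent.H636.HD

open Finset Pool.Agent.H98R2.Ev Pool.Agent.TH410.KV Pool.Agent.Y577.EV Pool.Agent.H636.HC

/-! ### prime powers -/

/-- trial division -/
def isP (p : ℕ) : Bool :=
  Nat.ble 2 p && (List.range p).all (fun d => Nat.ble d 1 || !Nat.beq (p % d) 0)

/-- prime powers below 368 -/
def ppW : List (ℕ × ℕ) := [
  (2, 1), (2, 2), (2, 3), (2, 4), (2, 5), (2, 6), (2, 7), (2, 8), (3, 1), (3, 2), (3, 3), (3, 4),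
  (3, 5), (5, 1), (5, 2), (5, 3), (7, 1), (7, 2), (7, 3), (11, 1), (11, 2), (13, 1), (13, 2), (17,
  1), (17, 2), (19, 1), (19, 2), (23, 1), (29, 1), (31, 1), (37, 1), (41, 1), (43, 1), (47, 1), (53,
  1), (59, 1), (61, 1), (67, 1), (71, 1), (73, 1), (79, 1), (83, 1), (89, 1), (97, 1), (101, 1),
  (103, 1), (107, 1), (109, 1), (113, 1), (127, 1), (131, 1), (137, 1), (139, 1), (149, 1), (151,
  1), (157, 1), (163, 1), (167, 1), (173, 1), (179, 1), (181, 1), (191, 1), (193, 1), (197, 1),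
  (199, 1), (211, 1), (223, 1), (227, 1), (229, 1), (233, 1), (239, 1), (241, 1), (251, 1), (257,
  1), (263, 1), (269, 1), (271, 1), (277, 1), (281, 1), (283, 1), (293, 1), (307, 1), (311, 1),
  (313, 1), (317, 1), (331, 1), (337, 1), (347, 1), (349, 1), (353, 1), (359, 1), (367, 1)]

theorem prime_of_isP {p : ℕ} (h : isP p = true) : p.Prime := by
  unfold isP at h
  rw [Bool.and_eq_true, List.all_eq_true] at h
  obtain ⟨h1, h2⟩ := h
  have h3 : 2 ≤ p := Nat.le_of_ble_eq_true h1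
  rw [Nat.prime_def_lt]
  refine ⟨h3, fun m hm hd => ?_⟩
  have h4 := h2 m (List.mem_range.2 hm)
  have h5 : p % m = 0 := Nat.mod_eq_zero_of_dvd hd
  rw [Bool.or_eq_true] at h4
  rcases h4 with h4 | h4
  · have h6 : m ≤ 1 := Nat.le_of_ble_eq_true h4
    rcases Nat.eq_zero_or_pos m with rfl | h7
    · have := Nat.eq_zero_of_zero_dvd hd
      omega
    · omega
  · rw [h5] at h4
    exact absurd h4 (by decide)

theorem ppW_ok : ppW.all (fun w => isP w.1 && Nat.ble 1 w.2) = true := by decide +kernel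

theorem pp_ok : (List.range 368).all (fun n => !PP.testBit n ||
    ppW.any (fun w => Nat.beq (w.1 ^ w.2) n)) = true := by decide +kernel

theorem pp_wit {n : ℕ} (hn : n < 368) (h : PP.testBit n = true) :
    ∃ p k, p.Prime ∧ 1 ≤ k ∧ p ^ k = n := by
  have h1 := List.all_eq_true.1 pp_ok n (List.mem_range.2 hn)
  rw [h, Bool.or_eq_true] at h1
  rcases h1 with h1 | h1
  · exact absurd h1 (by decide)
  · obtain ⟨w, hw, hw2⟩ := List.any_eq_true.1 h1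
    have h2 := List.all_eq_true.1 ppW_ok w hw
    rw [Bool.and_eq_true] at h2
    exact ⟨w.1, w.2, prime_of_isP h2.1, Nat.le_of_ble_eq_true h2.2, Nat.eq_of_beq_eq_true hw2⟩

/-! ### certificates -/

section

variable {𝓕 : Fam} {n ω : ℕ} (hω : 1 ≤ ω) (h0 : ∀ F ∈ 𝓕, ¬ F.2.Colorable ω)
  (h1 : ∃ F ∈ 𝓕, F.2.Colorable (ω + 1))
  (hNE : NE (univ : Finset (EV (Fin n))) (fun S => ¬ HH 𝓕 (toG S)))
  (hmono : S_mono) (hval : S_val) (hkz : S_kz) (hrel : S_relE)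

include hω h0 h1 hNE hmono hval hkz hrel

theorem cls_sound (c : Cls) (hc : clsOk c = true) (hm : mtc n ω c = true) : False := by
  unfold clsOk at hc
  simp only [Bool.and_eq_true, List.all_eq_true] at hc
  obtain ⟨⟨⟨⟨⟨⟨⟨⟨⟨hr, hi⟩, c0⟩, c1⟩, c2⟩, c3⟩, c4⟩, c5⟩, c6⟩, c7⟩ := hc
  unfold mtc at hm
  simp only [Bool.and_eq_true] at hm
  obtain ⟨⟨⟨m1, m2⟩, m3⟩, m4⟩ := hm
  have hn : c.n0 ≤ n := Nat.le_of_ble_eq_true m1
  have hN : ω < 2 ^ c.N := Nat.le_of_ble_eq_true m2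
  have h := cert_bulk hω h0 h1 hmono hval hkz (n := n) (k := n - c.n0) (N := c.N) hrel hNE hN
    c.rels c.ids (fun r hr' => by
      have h2 := hr r hr'
      have h3 : relN r = c.n0 := Nat.eq_of_beq_eq_true h2.1
      have h4 : r.1 < 8 := Nat.le_of_ble_eq_true h2.2
      exact ⟨by omega, h4⟩) (fun p hp => Nat.le_of_ble_eq_true (hi p hp)) c.y (fun t ht => by
      interval_cases t
      · exact Nat.eq_of_beq_eq_true c0
      · exact Nat.eq_of_beq_eq_true c1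
      · exact Nat.eq_of_beq_eq_true c2
      · exact Nat.eq_of_beq_eq_true c3
      · exact Nat.eq_of_beq_eq_true c4
      · exact Nat.eq_of_beq_eq_true c5
      · exact Nat.eq_of_beq_eq_true c6
      · exact Nat.eq_of_beq_eq_true c7) m3
  rw [m4] at h
  exact absurd h (by decide)

theorem ex_sound (z : ℕ) (hz : fL 𝓕 (ev (Xc 𝓕 0) z) = 0) (c : Ex) (hc : exOk z c = true)
    (hn : c.n = n) (hω' : c.ω = ω) : False := by
  unfold exOk at hc
  simp only [Bool.and_eq_true, List.all_eq_true] at hc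
  obtain ⟨⟨⟨⟨⟨⟨e1, e2⟩, hr⟩, hi⟩, ht⟩, ho⟩, hx⟩ := hc
  rw [hω'] at ho hx e2
  have h := cert_exc hω h0 h1 hmono hval hkz (n := n) (N := c.N) hrel hNE (Nat.le_of_ble_eq_true e2)
    c.rels c.ids c.thrs z hz (fun r hr' => by
      have h2 := hr r hr'
      exact ⟨(Nat.eq_of_beq_eq_true h2.1).trans hn, Nat.le_of_ble_eq_true h2.2⟩)
    (fun p hp => Nat.le_of_ble_eq_true (hi p hp)) ht ho
  rw [h, Bool.xor_self] at hx
  exact absurd hx (by decide)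

end

/-! ### long intervals -/

section

variable {𝓕 : Fam}

theorem win_sound {n ω : ℕ} (hω : 1 ≤ ω) (h0 : ∀ F ∈ 𝓕, ¬ F.2.Colorable ω)
    (h1 : ∃ F ∈ 𝓕, F.2.Colorable (ω + 1))
    (hNE : NE (univ : Finset (EV (Fin n))) (fun S => ¬ HH 𝓕 (toG S)))
    (h : win n ω = true) : False := by
  unfold win at h
  simp only [Bool.and_eq_true, Bool.or_eq_true, Nat.ble_eq, Nat.blt_eq, Nat.beq_eq] at h
  obtain ⟨hn, h⟩ := h
  obtain ⟨k, t, hkt, ht⟩ : ∃ k t, n = 112 + 32 * k + t ∧ t < 32 :=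
    ⟨(n - 112) / 32, (n - 112) % 32, by omega, Nat.mod_lt _ (by norm_num)⟩
  have hk' : (n - 112) / 32 = k := by omega
  have ht' : (n - 112) % 32 = t := by omega
  rw [hk', ht'] at h
  rcases h with (h | h) | h
  · rcases h with h | h | h | ((h | h) | h) | h
    · exact small_case hkt hω h0 h1 hNE (N := 1) (by norm_num) (by omega) (by omega)
    · exact small_case hkt hω h0 h1 hNE (N := 2) (by norm_num) (by omega) (by omega)
    · exact small_case hkt hω h0 h1 hNE (N := 3) (by norm_num) (by omega) (by omega)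
    · exact small_case hkt hω h0 h1 hNE (N := 4) (by norm_num) (by omega) (by omega)
    · exact small_case hkt hω h0 h1 hNE (N := 5) (by norm_num) (by omega) (by omega)
    · exact small_case hkt hω h0 h1 hNE (N := 6) (by norm_num) (by omega) (by omega)
    · exact small_case hkt hω h0 h1 hNE (N := 7) (by norm_num) (by omega) (by omega)
  · exact odd_gap hkt h0 h1 hNE (by omega) (by omega) h.1.1
  · obtain ⟨hp, h | h⟩ := h
    · obtain ⟨⟨⟨a1, a2⟩, a3⟩, a4⟩ := h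
      exact even_gap okq3 le_rfl (k := (n - 115) / 32) (t := (n - 115) % 32) (by omega) h0 h1 hNE
        (by omega) (by omega) hp a4 (by norm_num)
    · obtain ⟨⟨⟨a1, a2⟩, a3⟩, a4⟩ := h
      exact even_gap okq5 (by norm_num) (k := (n - 117) / 32) (t := (n - 117) % 32) (by omega)
        h0 h1 hNE (by omega) (by omega) hp a4 (by norm_num)

/-! ### special pairs -/

theorem sp12 (h0 : ∀ F ∈ 𝓕, ¬ F.2.Colorable 5) (h1 : ∃ F ∈ 𝓕, F.2.Colorable (5 + 1))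
    (hNE : NE (univ : Finset (EV (Fin 12))) (fun S => ¬ HH 𝓕 (toG S)))
    (hval : S_val) (hkz : S_kz) (hrel : S_relP) : False := by
  have hcol : ∀ F ∈ 𝓕, ¬ F.2.Colorable 1 := fun F hF hc => h0 F hF (hc.mono (by norm_num))
  have hch : CharP (AA 𝓕 2) 2 := charP_of (h := hcol)
  have h2 : (2 : AA 𝓕 2) = 0 := CharTwo.two_eq_zero
  have e := hrel 𝓕 12 hcol hNE 0 4 3 (Or.inl rfl) (by norm_num)
  have k6 : Kc 𝓕 6 = 0 := (hkz 𝓕 hcol).1 6 (by norm_num) h1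
  have k3 : Kc 𝓕 3 ^ 2 = Kc 𝓕 3 := by
    have := (hkz 𝓕 hcol).2.1 3 (by norm_num)
    rw [this, show 2 * 3 = 6 from rfl, k6, add_zero]
  have e2 : Xc 𝓕 0 ^ 0 * (Xc 𝓕 0 - Kc 𝓕 3) ^ 4 = Xc 𝓕 0 ^ 4 + Kc 𝓕 3 := by
    linear_combination (-2 * Xc 𝓕 0 ^ 3 * Kc 𝓕 3 + 3 * Xc 𝓕 0 ^ 2 * Kc 𝓕 3 ^ 2 -
      2 * Xc 𝓕 0 * Kc 𝓕 3 ^ 3) * h2 + (Kc 𝓕 3 ^ 2 + Kc 𝓕 3 + 1) * k3
  have u4 : fL 𝓕 (Xc 𝓕 0 ^ 4) = 0 := u_zero h0 (by norm_num) (by norm_num)
  rw [e2, map_add, u4,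
    (hval 𝓕 5 h0 h1).1 3 (by norm_num), if_pos (by norm_num)] at e
  exact absurd e (by decide)

theorem sp75 {ω : ℕ} (hω : ω = 47 ∨ ω = 48) (h0 : ∀ F ∈ 𝓕, ¬ F.2.Colorable ω)
    (h1 : ∃ F ∈ 𝓕, F.2.Colorable (ω + 1))
    (hNE : NE (univ : Finset (EV (Fin 75))) (fun S => ¬ HH 𝓕 (toG S)))
    (hmono : S_mono) (hval : S_val) (hkz : S_kz) (hrel : S_relP) : False := by
  have hcol : ∀ F ∈ 𝓕, ¬ F.2.Colorable 1 := fun F hF hc => h0 F hF (hc.mono (by omega))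
  have hch : CharP (AA 𝓕 2) 2 := charP_of (h := hcol)
  have h2 : (2 : AA 𝓕 2) = 0 := CharTwo.two_eq_zero
  have e := hrel 𝓕 75 hcol hNE 0 3 25 (Or.inr (Or.inr rfl)) (by norm_num)
  have k50 : Kc 𝓕 50 = 0 := by
    obtain ⟨F, hF, hc⟩ := h1
    exact (hkz 𝓕 hcol).1 50 (by norm_num) ⟨F, hF, hc.mono (by omega)⟩
  have k25 : Kc 𝓕 25 ^ 2 = Kc 𝓕 25 := by
    have := (hkz 𝓕 hcol).2.1 25 (by norm_num)
    rw [this, show 2 * 25 = 50 from rfl, k50, add_zero]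
  have e2 : Xc 𝓕 0 ^ 0 * (Xc 𝓕 0 - Kc 𝓕 25) ^ 3 = Xc 𝓕 0 ^ 3 + Xc 𝓕 0 ^ 2 * Kc 𝓕 25 +
      Xc 𝓕 0 ^ 1 * Kc 𝓕 25 + Kc 𝓕 25 := by
    linear_combination (-2 * Xc 𝓕 0 ^ 2 * Kc 𝓕 25 + Xc 𝓕 0 * Kc 𝓕 25 ^ 2 - Kc 𝓕 25 ^ 3) * h2 +
      (Kc 𝓕 25 + 1 + Xc 𝓕 0) * k25
  have m2 := (hmono 𝓕 ω (by omega) h0 h1 2 [25] (by simp) (by simp)).1 (by simp; omega)
  have m1 := (hmono 𝓕 ω (by omega) h0 h1 1 [25] (by simp) (by simp)).1 (by simp; omega)
  simp only [List.map_cons, List.map_nil, List.prod_cons, List.prod_nil, mul_one] at m1 m2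
  have u3 : fL 𝓕 (Xc 𝓕 0 ^ 3) = 0 := u_zero h0 (by norm_num) (by omega)
  rw [e2, map_add, map_add, map_add, m1, m2, u3,
    (hval 𝓕 ω h0 h1).1 25 (by norm_num), if_pos (by omega)] at e
  exact absurd e (by decide)

theorem sp24_ok : exOk (1 <<< 12) ⟨24, 9, 4, [(0, 8, 2, 0, 0, 0)], [(0, 257)], []⟩ = true := by
  decide +kernel

theorem sp24 (h0 : ∀ F ∈ 𝓕, ¬ F.2.Colorable 9) (h1 : ∃ F ∈ 𝓕, F.2.Colorable (9 + 1))
    (hNE : NE (univ : Finset (EV (Fin 24))) (fun S => ¬ HH 𝓕 (toG S)))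
    (hmono : S_mono) (hval : S_val) (hkz : S_kz) (hrelE : S_relE) (hrel : S_relP) : False := by
  have hcol : ∀ F ∈ 𝓕, ¬ F.2.Colorable 1 := fun F hF hc => h0 F hF (hc.mono (by norm_num))
  have hch : CharP (AA 𝓕 2) 2 := charP_of (h := hcol)
  have e := hrel 𝓕 24 hcol hNE 11 1 13 (Or.inr (Or.inl rfl)) (by norm_num)
  have k13 : Kc 𝓕 13 = 0 := by
    obtain ⟨F, hF, hc⟩ := h1
    exact (hkz 𝓕 hcol).1 13 (by norm_num) ⟨F, hF, hc.mono (by norm_num)⟩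
  rw [k13, sub_zero, pow_one, ← pow_succ] at e
  refine ex_sound (by norm_num) h0 h1 hNE hmono hval hkz hrelE (1 <<< 12) ?_ _ sp24_ok rfl rfl
  rw [ev_shift, ev_one, mul_one]
  exact e

end

/-! ### coverage -/

theorem goD_get : ∀ (ls : List (List Cls)) (s δ : ℕ), goD s ls = true → s ≤ δ →
    δ < s + ls.length → ∃ l, cov δ l = true
  | [], s, δ, _, h1, h2 => by
    simp at h2
    omega
  | l :: ls, s, δ, h, h1, h2 => by
    have h3 : (cov s l && goD (s + 1) ls) = true := h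
    rw [Bool.and_eq_true] at h3
    rcases Nat.lt_or_ge s δ with h4 | h4
    · exact goD_get ls (s + 1) δ h3.2 h4 (by simp at h2; omega)
    · have h5 : s = δ := by omega
      exact ⟨l, h5 ▸ h3.1⟩

end Pool.Agent.H636.HD
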