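import Pool.Agent.H636.HD.Poly

set_option autoImplicit false

/-! MP_257582_lc: certificates. -/

namespace Pool.Agent.H636.HD

open Finset Pool.Agent.H98R2.Ev Pool.Agent.TH410.KV Pool.Agent.Y577.EV Pool.Agent.H636.HC

/-- the extra blocks -/
def el : ℕ → List ℕ
  | 0 => []
  | 1 => [3]
  | 2 => [5]
  | 3 => [3, 5]
  | 4 => [17]
  | 5 => [3, 17]
  | 6 => [5, 17]
  | _ => [3, 5, 17]

/-- the expansion of the product of the `x - K_q` -/
def expE : ℕ → List (ℕ × ℕ)
  | 0 => [(0, 0)]
  | 1 => [(0, 1), (1, 0)]
  | 2 => [(0, 1), (2, 0)]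
  | 3 => [(0, 2), (1, 1), (2, 1), (3, 0)]
  | 4 => [(0, 1), (4, 0)]
  | 5 => [(0, 2), (1, 1), (4, 1), (5, 0)]
  | 6 => [(0, 2), (2, 1), (4, 1), (6, 0)]
  | _ => [(0, 3), (1, 2), (2, 2), (4, 2), (3, 1), (5, 1), (6, 1), (7, 0)]

/-- the exponents of `X_N` -/
def xl (N : ℕ) : List ℕ :=
  ((List.range (N + 1)).filter (fun i => N.choose i % 2 = 1)).map (2 ^ ·)

section

variable (𝓕 : Fam)

/-- product of the extra blocks -/
noncomputable def KT (t : ℕ) : AA 𝓕 2 := ((el t).map (Kc 𝓕)).prod

/-- value of a list of pairs (set of extra blocks, polynomial) -/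
noncomputable def evS (l : List (ℕ × ℕ)) : AA 𝓕 2 :=
  (l.map (fun p => ev (Xc 𝓕 0) p.2 * KT 𝓕 p.1)).sum

theorem evS_nil : evS 𝓕 [] = 0 := rfl

theorem evS_cons (p : ℕ × ℕ) (l : List (ℕ × ℕ)) :
    evS 𝓕 (p :: l) = ev (Xc 𝓕 0) p.2 * KT 𝓕 p.1 + evS 𝓕 l := by
  simp [evS]

theorem evS_append (l l' : List (ℕ × ℕ)) : evS 𝓕 (l ++ l') = evS 𝓕 l + evS 𝓕 l' := by
  simp [evS]

variable [CharP (AA 𝓕 2) 2]

theorem exp_prod (y : ℕ) : ∀ E < 8,
    evS 𝓕 ((expE E).map (fun p => (p.1, y <<< p.2))) =
      ev (Xc 𝓕 0) y * ((el E).map (fun q => Xc 𝓕 0 - Kc 𝓕 q)).prod := by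
  intro E hE
  interval_cases E <;>
    simp only [expE, el, KT, evS, List.map_cons, List.map_nil, List.sum_cons, List.sum_nil,
      List.prod_cons, List.prod_nil, ev_shift, CharTwo.sub_eq_add] <;> ring

/-- the polynomials of the list with the first component `t` -/
def comb (l : List (ℕ × ℕ)) (t : ℕ) : ℕ :=
  l.foldr (fun p acc => if p.1 = t then p.2 ^^^ acc else acc) 0

theorem evS_comb (l : List (ℕ × ℕ)) (hl : ∀ p ∈ l, p.1 < 8) :
    evS 𝓕 l = ∑ t ∈ range 8, ev (Xc 𝓕 0) (comb l t) * KT 𝓕 t := by
  induction l with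
  | nil => simp [evS, comb]
  | cons p l ih =>
    rw [evS_cons, ih (fun q hq => hl q (List.mem_cons_of_mem _ hq))]
    have h1 : ∀ t, ev (Xc 𝓕 0) (comb (p :: l) t) * KT 𝓕 t =
        (if p.1 = t then ev (Xc 𝓕 0) p.2 * KT 𝓕 t else 0) +
          ev (Xc 𝓕 0) (comb l t) * KT 𝓕 t := by
      intro t
      have h2 : comb (p :: l) t = if p.1 = t then p.2 ^^^ comb l t else comb l t := rfl
      rw [h2]
      split_ifs
      · rw [ev_xor, add_mul]
      · rw [zero_add]
    rw [Finset.sum_congr rfl (fun t _ => h1 t), Finset.sum_add_distrib, Finset.sum_ite_eq,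
      if_pos (Finset.mem_range.2 (hl p List.mem_cons_self))]

end

/-! ### values -/

/-- `1 + C(e + 1, 2)` is odd -/
def cb (e : ℕ) : Bool := e % 4 == 0 || e % 4 == 3

/-- some extra block has more than `ω` vertices -/
def big (ω t : ℕ) : Bool := (el t).any (fun q => decide (ω < q))

/-- all values are known -/
def okv (ω t y : ℕ) : Bool :=
  big ω t || y == 0 || ((t != 0 || !y.testBit 0) && decide ((el t).sum ≤ ω + 2) &&
    decide (y < 2 ^ (ω + 3 - (el t).sum)))

/-- position of the single factor -/
def lowb (t y : ℕ) : Bool :=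
  if t = 0 then y.testBit 1 else if (el t).length = 1 then y.testBit 0 else false

/-- the value -/
def vv (ω t y : ℕ) : Bool :=
  if big ω t then false else
    xor (lowb t y) (xor (decide ((el t).sum ≤ ω + 1) && y.testBit (ω + 1 - (el t).sum))
      (decide ((el t).sum ≤ ω + 2) && y.testBit (ω + 2 - (el t).sum) && cb (ω + 2 - (el t).sum)))

theorem cb_choose (e : ℕ) : (1 + (((e + 1).choose 2 : ℕ) : ZMod 2)) = if cb e then 1 else 0 := by
  have h2 : (2 : ZMod 2) = 0 := by decide
  have key : ∀ m r : ℕ, (((4 * m + r + 1).choose 2 : ℕ) : ZMod 2) =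
      (((r + 1).choose 2 : ℕ) : ZMod 2) := by
    intro m r
    induction m with
    | zero => simp
    | succ m ih =>
      rw [← ih]
      have e1 : 4 * (m + 1) + r + 1 = (4 * m + r + 1) + 1 + 1 + 1 + 1 := by ring
      rw [e1]
      simp only [Nat.choose_succ_succ' _ 1, Nat.choose_one_right]
      push_cast
      linear_combination (8 * (m : ZMod 2) + 2 * r + 5) * h2
  have h := key (e / 4) (e % 4)
  have he : 4 * (e / 4) + e % 4 = e := Nat.div_add_mod e 4
  rw [he] at h
  rw [h]
  have h4 : e % 4 < 4 := Nat.mod_lt _ (by norm_num)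
  unfold cb
  interval_cases e % 4 <;> decide

variable {𝓕 : Fam}

section

variable {ω : ℕ} (hω : 1 ≤ ω) (h0 : ∀ F ∈ 𝓕, ¬ F.2.Colorable ω)
  (h1 : ∃ F ∈ 𝓕, F.2.Colorable (ω + 1))
  (hmono : S_mono) (hval : S_val) (hkz : S_kz)

theorem el_two (t : ℕ) : ∀ q ∈ el t, 2 ≤ q := by
  intro q hq
  unfold el at hq
  split at hq <;> simp at hq <;> omega

include hω h0 h1 hmono hval hkz

theorem KT_big {t : ℕ} (h : big ω t = true) : KT 𝓕 t = 0 := by
  unfold big at h
  rw [List.any_eq_true] at h
  obtain ⟨q, hq, h⟩ := h
  unfold KT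
  refine List.prod_eq_zero (List.mem_map.2 ⟨q, hq, ?_⟩)
  obtain ⟨F, hF, hc⟩ := h1
  exact (hkz 𝓕 (fun F hF hc => h0 F hF (hc.mono hω))).1 q (by have := el_two t q hq; omega)
    ⟨F, hF, hc.mono (by have := of_decide_eq_true h; omega)⟩

/-- the value at a monomial -/
theorem val_one {t e : ℕ} (hb : big ω t = false) (he : e + (el t).sum ≤ ω + 2)
    (hne : t = 0 → e ≠ 0) :
    fL 𝓕 (Xc 𝓕 0 ^ e * KT 𝓕 t) =
      (if (t = 0 ∧ e = 1) ∨ ((el t).length = 1 ∧ e = 0) then 1 else 0) +
      ((if (el t).sum ≤ ω + 1 ∧ e = ω + 1 - (el t).sum then 1 else 0) +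
      (if (el t).sum ≤ ω + 2 ∧ e = ω + 2 - (el t).sum then (if cb e then 1 else 0) else 0)) := by
  have hlen : t ≠ 0 → 1 ≤ (el t).length := by
    intro ht
    unfold el
    split <;> simp_all
  have hqω : ∀ q ∈ el t, q ≤ ω := by
    intro q hq
    unfold big at hb
    rw [List.any_eq_false] at hb
    have := hb q hq
    simpa using this
  by_cases h2 : 2 ≤ e + (el t).length
  · obtain ⟨m1, m2, m3⟩ := hmono 𝓕 ω hω h0 h1 e (el t) (el_two t) h2
    have hlow : ¬ ((t = 0 ∧ e = 1) ∨ ((el t).length = 1 ∧ e = 0)) := by
      rintro (⟨rfl, rfl⟩ | ⟨h3, rfl⟩)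
      · simp [el] at h2
      · omega
    rw [if_neg hlow, zero_add]
    rcases lt_trichotomy (e + (el t).sum) (ω + 1) with h3 | h3 | h3
    · have h4 := m1 (by omega)
      unfold KT
      rw [h4, if_neg (by omega), if_neg (by omega), add_zero]
    · have h4 := m2 h3
      unfold KT
      rw [h4, if_pos (by omega), if_neg (by omega), add_zero]
    · have h5 : e + (el t).sum = ω + 2 := by omega
      have h4 := m3 h5
      unfold KT
      rw [h4, if_neg (by omega), if_pos (by omega), zero_add, cb_choose]
  · rcases Nat.eq_zero_or_pos t with rfl | ht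
    · have he1 : e = 1 := by
        have := hne rfl
        simp [el] at h2
        omega
      subst he1
      have hs : (el 0).sum = 0 := rfl
      have h5 : fL 𝓕 (Xc 𝓕 0) = 1 := u_one (fun F hF hc => h0 F hF (hc.mono hω))
      have h6 : KT 𝓕 0 = 1 := rfl
      rw [pow_one, h6, mul_one, h5, hs, if_pos (Or.inl ⟨rfl, rfl⟩), if_neg (by omega),
        if_neg (by omega)]
      rfl
    · have hl := hlen (by omega)
      have he0 : e = 0 := by omega
      have hl1 : (el t).length = 1 := by omega
      subst he0
      obtain ⟨q, hq⟩ := List.length_eq_one_iff.1 hl1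
      have hq2 := hqω q (by rw [hq]; simp)
      have hs : (el t).sum = q := by rw [hq]; simp
      have h6 : KT 𝓕 t = Kc 𝓕 q := by
        unfold KT
        rw [hq]
        simp
      have hq1 : 2 ≤ q := el_two t q (by rw [hq]; simp)
      rw [pow_zero, one_mul, h6, (hval 𝓕 ω h0 h1).1 q (by omega), if_pos hq2, hs,
        if_pos (Or.inr ⟨hl1, rfl⟩), if_neg (by omega), if_neg (by omega)]
      rfl

theorem val_vv {t y : ℕ} (ht : t < 8) (hok : okv ω t y = true) :
    fL 𝓕 (ev (Xc 𝓕 0) y * KT 𝓕 t) = if vv ω t y then 1 else 0 := by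
  by_cases hb : big ω t = true
  · rw [KT_big hω h0 h1 hmono hval hkz hb, mul_zero, map_zero]
    unfold vv
    rw [if_pos hb]
    rfl
  · have hb' : big ω t = false := by simpa using hb
    by_cases hy : y = 0
    · subst hy
      unfold vv lowb
      simp
    · unfold okv at hok
      rw [hb'] at hok
      simp only [Bool.false_or, Bool.or_eq_true, beq_iff_eq, hy, false_or, Bool.and_eq_true,
        bne_iff_ne, Bool.not_eq_true', decide_eq_true_eq] at hok
      obtain ⟨⟨h3, h4⟩, h5⟩ := hok
      rw [sum_digit (fL 𝓕) _ _ h5]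
      set s := (el t).sum with hs
      have e1 : ∀ i ∈ range (ω + 3 - s), (if y.testBit i then
          fL 𝓕 (Xc 𝓕 0 ^ i * KT 𝓕 t) else 0) =
          (if i = (if t = 0 then 1 else 0) then (if lowb t y then (1 : ZMod 2) else 0) else 0) +
          ((if i = ω + 1 - s then
            (if (decide (s ≤ ω + 1) && y.testBit (ω + 1 - s)) then (1 : ZMod 2) else 0) else 0) +
          (if i = ω + 2 - s then
            (if (decide (s ≤ ω + 2) && y.testBit (ω + 2 - s) && cb (ω + 2 - s)) then
              (1 : ZMod 2) else 0) else 0)) := by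
        intro i hi
        rw [Finset.mem_range] at hi
        by_cases hyi : y.testBit i = true
        · rw [if_pos hyi, val_one hω h0 h1 hmono hval hkz hb' (by omega) (by
            intro ht0 hi0
            rcases h3 with h3 | h3
            · exact h3 ht0
            · rw [hi0, h3] at hyi
              exact absurd hyi (by simp))]
          rw [← hs]
          congr 1
          · unfold lowb
            by_cases ht0 : t = 0
            · subst ht0
              have hl : (el 0).length = 0 := rfl
              by_cases hi1 : i = 1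
              · subst hi1
                simp [hyi]
              · simp [hi1, hl]
            · by_cases hl : (el t).length = 1
              · by_cases hi1 : i = 0
                · subst hi1
                  simp [ht0, hl, hyi]
                · simp [hi1, ht0]
              · simp [ht0, hl]
          · congr 1
            · by_cases h6 : i = ω + 1 - s
              · subst h6
                simp [hyi]
              · simp [h6]
            · by_cases h6 : i = ω + 2 - s
              · subst h6
                simp [hyi, h4]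
              · simp [h6]
        · have hyi' : y.testBit i = false := by simpa using hyi
          rw [if_neg hyi]
          have a1 : (if i = (if t = 0 then 1 else 0) then
              (if lowb t y then (1 : ZMod 2) else 0) else 0) = 0 := by
            by_cases h6 : i = (if t = 0 then 1 else 0)
            · rw [if_pos h6]
              have h7 : lowb t y = false := by
                unfold lowb
                by_cases ht0 : t = 0
                · rw [if_pos ht0] at h6 ⊢
                  rw [← h6]
                  exact hyi'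
                · rw [if_neg ht0] at h6 ⊢
                  split_ifs
                  · rw [← h6]
                    exact hyi'
                  · rfl
              rw [h7]
              rfl
            · rw [if_neg h6]
          have a2 : (if i = ω + 1 - s then
            (if (decide (s ≤ ω + 1) && y.testBit (ω + 1 - s)) then (1 : ZMod 2) else 0) else 0) = 0 := by
            by_cases h6 : i = ω + 1 - s
            · rw [← h6, hyi']
              simp
            · simp [h6]
          have a3 : (if i = ω + 2 - s then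
            (if (decide (s ≤ ω + 2) && y.testBit (ω + 2 - s) && cb (ω + 2 - s)) then
              (1 : ZMod 2) else 0) else 0) = 0 := by
            by_cases h6 : i = ω + 2 - s
            · rw [← h6, hyi']
              simp
            · simp [h6]
          rw [a1, a2, a3]
          rfl
      rw [Finset.sum_congr rfl e1, Finset.sum_add_distrib, Finset.sum_add_distrib,
        Finset.sum_ite_eq', Finset.sum_ite_eq', Finset.sum_ite_eq']
      have hN : (if t = 0 then 1 else 0) ∈ range (ω + 3 - s) := by
        rw [Finset.mem_range]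
        by_cases ht0 : t = 0
        · have : s = 0 := by rw [hs, ht0]; rfl
          rw [if_pos ht0, this]
          omega
        · rw [if_neg ht0]
          omega
      rw [if_pos hN, if_pos (Finset.mem_range.2 (by omega)), if_pos (Finset.mem_range.2 (by omega))]
      unfold vv
      rw [if_neg hb, ← hs]
      cases lowb t y <;> cases (decide (s ≤ ω + 1) && y.testBit (ω + 1 - s)) <;>
        cases (decide (s ≤ ω + 2) && y.testBit (ω + 2 - s) && cb (ω + 2 - s)) <;> decide

end

end Pool.Agent.H636.HD
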