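import Pool.Agent.H636.HC.Mn

set_option autoImplicit false

/-!
MP_257582_lc, homomorphism-closed properties for ALL `n` (helper636). Statements of the parts.
A file that proves `S_x` contains `theorem t : S_x`.

Notation (library `Y577/EV` and my `HC`): `𝓕 : Fam` a family of finite graphs, `HH 𝓕 G`: some member
has a homomorphism to `G`; `TY 𝓕` types, `xi` the type of a single vertex, `J m xi` the type of a
complete graph with `m` vertices; `AA 𝓕 2` the commutative algebra of characteristic 2 spanned by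
products of classes `cl 2 τ`; `Xc 𝓕 j` the class of a complete graph with `2 ^ j` vertices,
`Xc 𝓕 0 = x` the class of a vertex, `Kc 𝓕 q = cl 2 (J q xi)` the class of a complete graph with `q`
vertices; `fL 𝓕 : AA 𝓕 2 →+ ZMod 2` the functional, `fL (∏ v, cl 2 (τ v)) = NN 2 τ`, the number modulo 2
of the graphs on the vertices `v` that are bad with the types `τ`.
-/

namespace Pool.Agent.H636.HD

open Finset Pool.Agent.H98R2.Ev Pool.Agent.TH410.KV Pool.Agent.Y577.EV Pool.Agent.H636.HC

/-- HD-A: the relation for blocks with `2 ^ c` vertices (`c` in the list `L`) and one block with `q`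
vertices for each `q` in a subset `E` of `{3, 5, 17}` (all at the same time).

Proof (generalise `HC/Cr.lean` and `HC/Ct.lean`, where there is exactly one extra block and the
multiplier is 2): vertices `(Σ i, (Fin (c i) → ZMod 2)) ⊕ (Σ e : ι, ZMod (q e))`, `ι` a finite type
(`Fin E.length`), `q e = E.get e`.  Use `Pool.Agent.H98R2.Nb.GC.graph_criterion` with `p = q = 2`,
`a =` translations of the 2-blocks, `c = (g_i) ×` rotation by 1 of every extra block, `h =` identity on
the 2-blocks and multiplication by `mu q` on the extra block `ZMod q`, where `mu 3 = 2`, `mu 5 = 2`,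
`mu 17 = 3` (primitive roots; the order divides 16, so `h ^ (2 ^ 4) = 1`).
Invariant graphs depend only on the blocks: pairs in two different extra blocks `q ≠ q'`: by the
Chinese remainder theorem a power of `c` moves `(z, w)` to any `(z', w')` (3, 5, 17 are pairwise
coprime), pairs in one extra block: powers of `h` and of `c`; mixed pairs: as in `mixed`.
(`hch`: for an invariant `G` also `h⁻¹ c h` leaves `G` invariant: `h⁻¹ c h` is `g_i` on the 2-blocks and
rotation by `(mu q)⁻¹` on the extra blocks; treat the pairs as in `inv_ca8`: both in 2-blocks: clear;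
mixed: `mixed`; two different extra blocks: all pairs are equivalent by CRT; the same extra block: a
power of `c`.)  The number is then computed by `HC.count` (general index type, here
`B ⊕ ι`), the weight of an extra block is `x - K_q`. -/
def S_relE : Prop := ∀ (𝓕 : Fam) (n : ℕ), (∀ F ∈ 𝓕, ¬ F.2.Colorable 1) →
  NE (univ : Finset (EV (Fin n))) (fun S => ¬ HH 𝓕 (toG S)) →
  ∀ (L E : List ℕ), E.Sublist [3, 5, 17] → (L.map (2 ^ ·)).sum + E.sum = n →
  fL 𝓕 ((L.map (zz 𝓕)).prod * (E.map (fun q => Xc 𝓕 0 - Kc 𝓕 q)).prod) = 0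

/-- HD-B: the relation for `a` single vertices and `b` blocks with `q` vertices, `q ∈ {3, 13, 25}`.

Proof (as `HC/Cr.lean`, `HC/Ct.lean`, but `p` odd): the block is the additive group `Z = ZMod 3`,
`ZMod 13` or `ZMod 5 × ZMod 5` with `p • z = 0` for `p = 3, 13, 5`, and with an additive automorphism
`μ` whose powers are transitive on the nonzero elements (multiplication by 2 for `ZMod 3` and
`ZMod 13`; for `ZMod 5 × ZMod 5` e.g. `μ (u, v) = (2 * v, u + v)`-like matrices of order 24: any matrix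
of order 24 whose characteristic polynomial is primitive over `F_5`, e.g. `X² - X + 2`, i.e.
`μ (u, v) = (-2 * v, u + v)`; check transitivity by `decide` on the orbit of `(1, 0)`).  Vertices
`Fin a ⊕ (Fin b × Z)`; `graph_criterion` with `p`, `q = 2`, `t = 0`, `h = 1`, `a =` translations
`t : Fin b → Z` of the blocks, `c = μ` in every block.  Invariant graphs depend only on the
blocks (two different blocks: the translations are independent; the same block: a power of `μ` and a
translation). Then `HC.count` with `B = Fin a ⊕ Fin b`, `d = 0` on the single vertices and `1` on the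
blocks, `σ = J q xi` on the blocks (see `HC.mem_J'`, `Cb_of_equiv`). -/
def S_relP : Prop := ∀ (𝓕 : Fam) (n : ℕ), (∀ F ∈ 𝓕, ¬ F.2.Colorable 1) →
  NE (univ : Finset (EV (Fin n))) (fun S => ¬ HH 𝓕 (toG S)) →
  ∀ (a b q : ℕ), q = 3 ∨ q = 13 ∨ q = 25 → a + b * q = n →
  fL 𝓕 (Xc 𝓕 0 ^ a * (Xc 𝓕 0 - Kc 𝓕 q) ^ b) = 0

/-- HD-C: the values at products of at most four complete blocks. The numbers are sorted.

Proof: for a graph `G` on at most 4 vertices with complete blocks of sizes `w v ≥ 1`:
`Bad (Kt 𝓕 w) G ↔` some clique `T` of `G` has `∑ v ∈ T, w v ≥ ω + 1` (`←`: `HC.bad_of_complete`;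
`→`: otherwise the blow-up is `ω`-colourable: graphs with at most 4 vertices are perfect; concretely
choose for each vertex a set of `w v` colours `< ω`, adjacent vertices disjoint; then a bad `F` would
be `ω`-colourable by `HC.bad_col'`).  Then count the bad graphs modulo 2 (the number of all graphs is
even for at least two vertices, so one can also count the good ones): if `a > ω` all graphs are bad;
a pair with sum `> ω` must be absent in a good graph; a pair that is allowed and lies in no bad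
clique of allowed pairs can be toggled (`HC.NN_toggle` shows the technique), so the number is
even; the remaining cases are the ones listed.  (Numbers of good graphs: 4 vertices, all pairs
allowed: 63 if only the total is `> ω`; 45 or 41 if `a + c + d > ω`; 25 if exactly `a + b > ω` and
`b + c + d > ω`; 7 if `a` is isolated and only `b + c + d > ω`; 1 if no pair is allowed. 3 vertices: 7 if
only the total is `> ω`, 1 if no pair is allowed.)  Checked by computer for `ω ≤ 13`. -/
def S_val : Prop := ∀ (𝓕 : Fam) (ω : ℕ), (∀ F ∈ 𝓕, ¬ F.2.Colorable ω) →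
  (∃ F ∈ 𝓕, F.2.Colorable (ω + 1)) →
  (∀ a, 1 ≤ a → fL 𝓕 (Kc 𝓕 a) = if a ≤ ω then 1 else 0) ∧
  (∀ a b, 1 ≤ b → b ≤ a → fL 𝓕 (Kc 𝓕 a * Kc 𝓕 b) = if a ≤ ω ∧ ω < a + b then 1 else 0) ∧
  (∀ a b c, 1 ≤ c → c ≤ b → b ≤ a → fL 𝓕 (Kc 𝓕 a * Kc 𝓕 b * Kc 𝓕 c) =
    if a ≤ ω ∧ ((a + b ≤ ω ∧ ω < a + b + c) ∨ ω < b + c) then 1 else 0) ∧
  (∀ a b c d, 1 ≤ d → d ≤ c → c ≤ b → b ≤ a →
    fL 𝓕 (Kc 𝓕 a * Kc 𝓕 b * Kc 𝓕 c * Kc 𝓕 d) =
    if a ≤ ω ∧ (ω < c + d ∨ (ω < a + d ∧ b + c ≤ ω ∧ ω < b + c + d) ∨
      (ω < a + b ∧ a + c ≤ ω ∧ ω < b + c + d) ∨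
      (a + b ≤ ω ∧ ((a + b + c ≤ ω ∧ ω < a + b + c + d) ∨ ω < a + c + d))) then 1 else 0)

/-- HD-D: the values at `x ^ a` times a product of complete blocks with at least 2 vertices, when the
total number of vertices is at most `ω + 2`.

Proof: as `HC.val_le`, `HC.val_eq`, `HC.val_even`, `HC.val_odd` (`HC/Va.lean`), where the product is a
single `Kc 𝓕 q`: (1) `NN_le`; (2) `NN_eq_one` with `m = 1`; (3) prove first for
`x ^ a * Xc 𝓕 1 ^ b * (product)`, `a + 2 * b + sum = ω + 2`: the value is `1 + (a + 1).choose 2`: `a = 0`: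
`NN_eq_one` with `m = 2`; `a = 1`: `NN_toggle` (all other blocks have at least 2 vertices);
`a + 2`: `x ^ (a + 2) = x ^ (a + 1) + x ^ a * Xc 1` (`Xc_sq 0`), the first term has total `ω + 1`... (its
value is 1 by (2)), the second is the induction hypothesis. -/
def S_mono : Prop := ∀ (𝓕 : Fam) (ω : ℕ), 1 ≤ ω → (∀ F ∈ 𝓕, ¬ F.2.Colorable ω) →
  (∃ F ∈ 𝓕, F.2.Colorable (ω + 1)) →
  ∀ (a : ℕ) (T : List ℕ), (∀ q ∈ T, 2 ≤ q) → 2 ≤ a + T.length →
  (a + T.sum ≤ ω → fL 𝓕 (Xc 𝓕 0 ^ a * (T.map (Kc 𝓕)).prod) = 0) ∧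
  (a + T.sum = ω + 1 → fL 𝓕 (Xc 𝓕 0 ^ a * (T.map (Kc 𝓕)).prod) = 1) ∧
  (a + T.sum = ω + 2 → fL 𝓕 (Xc 𝓕 0 ^ a * (T.map (Kc 𝓕)).prod) =
    1 + (((a + 1).choose 2 : ℕ) : ZMod 2))

/-- HD-E: complete blocks with more than `ω` vertices have class `0`, and squares. -/
def S_kz : Prop := ∀ (𝓕 : Fam), (∀ F ∈ 𝓕, ¬ F.2.Colorable 1) →
  (∀ q, 1 ≤ q → (∃ F ∈ 𝓕, F.2.Colorable q) → Kc 𝓕 q = 0) ∧
  (∀ q, 1 ≤ q → Kc 𝓕 q ^ 2 = Kc 𝓕 q + Kc 𝓕 (2 * q)) ∧ (∀ j, Xc 𝓕 j = Kc 𝓕 (2 ^ j))

end Pool.Agent.H636.HD
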