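import Pool.Agent.H636.HD.Stm

set_option autoImplicit false

/-! MP_257582_lc: further statements for the upgrade to all `n` (helper636). -/

namespace Pool.Agent.H636.HD

open Finset Pool.Agent.H98R2.Ev Pool.Agent.TH410.KV Pool.Agent.Y577.EV Pool.Agent.H636.HC

/-- HD-F: prime powers (theorem of Kahn, Saks and Sturtevant in the case needed here).

Proof: `Pool.Agent.H98R2.Nb.GC.graph_criterion` with the given `p`, `q = 2`, `t = 0`, `h = 1`,
`V` a field with `p ^ k` elements (`GaloisField p k`; transport `NE` by `ne_transport`), `a =`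
translations, `c =` multiplication by a generator of the group of units (`IsCyclic`), `Ω = Unit`,
`g ∅ = ⊥`, `g univ = ⊤`. `hac`: `c⁻¹ * a_t * c = a_(c⁻¹ t)`, `hch`: `h = 1`, `hgs`: an invariant graph
with one edge is complete (the group is 2-transitive). The sum over `A ⊆ {()}` is
`1 + 0` since `¬ HH 𝓕 ⊥` (`Pool.Agent.Y407.EV.not_HH_bot`) and `HH 𝓕 ⊤`; `2 ∣ 1` is false. -/
def S_pp : Prop := ∀ (p k : ℕ) (𝓕 : Fam), p.Prime → 1 ≤ k → (∀ F ∈ 𝓕, ¬ F.2.Colorable 1) →
  HH 𝓕 (⊤ : SimpleGraph (Fin (p ^ k))) →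
  ¬ NE (univ : Finset (EV (Fin (p ^ k)))) (fun S => ¬ HH 𝓕 (toG S))

end Pool.Agent.H636.HD
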